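import Mathlib
import Pool.Agent.Helper259.HtDef
import Pool.Agent.Helper259.HtExt
import Pool.Agent.Helper259.HtPoly

set_option autoImplicit false
set_option linter.unusedSectionVars false

namespace Pool.Agent.Helper259.AbsHt

open NumberField Height Module

variable {ι : Type*} [Finite ι]

/-- the absolute height may be computed in any number field mapping to `Qbar` -/
theorem absLogHeight_eq (L : Type*) [Field L] [NumberField L] (φ : L →+* Qbar) (y : ι → L) :
    absLogHeight (fun i => φ (y i)) = logHeight y / finrank ℚ L := by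
  set x : ι → Qbar := fun i => φ (y i) with hx
  -- embed `fieldOf x` in `L`
  have hle : fieldOf x ≤ (RingHom.toRatAlgHom φ).fieldRange := by
    rw [IntermediateField.adjoin_le_iff]
    rintro _ ⟨i, rfl⟩
    exact ⟨y i, rfl⟩
  let e : L ≃ₐ[ℚ] (RingHom.toRatAlgHom φ).fieldRange := AlgEquiv.ofInjectiveField _
  let j : fieldOf x →+* L := (e.symm : (RingHom.toRatAlgHom φ).fieldRange →+* L).comp
    (IntermediateField.inclusion hle : fieldOf x →+* (RingHom.toRatAlgHom φ).fieldRange)
  let _ : Algebra (fieldOf x) L := j.toAlgebra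
  have hj : ∀ z : fieldOf x, φ (algebraMap (fieldOf x) L z) = z := by
    intro z
    have h1 : ((e (j z) : (RingHom.toRatAlgHom φ).fieldRange) : Qbar) = φ (j z) := rfl
    have h2 : e (j z) = IntermediateField.inclusion hle z := by
      show e (e.symm (IntermediateField.inclusion hle z)) = _
      exact e.apply_symm_apply _
    have h3 : algebraMap (fieldOf x) L z = j z := rfl
    rw [h3, ← h1, h2]
    rfl
  have hy : (fun i => algebraMap (fieldOf x) L
      (⟨x i, IntermediateField.subset_adjoin ℚ _ (Set.mem_range_self i)⟩ : fieldOf x)) = y := by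
    funext i
    apply φ.injective
    rw [hj]
  have key := HtExt.logHeight_ext (K := fieldOf x) (L := L)
    (fun i => (⟨x i, IntermediateField.subset_adjoin ℚ _ (Set.mem_range_self i)⟩ : fieldOf x))
  rw [hy] at key
  have hpos : (0 : ℝ) < finrank (fieldOf x) L := by
    have := Module.finrank_pos (R := fieldOf x) (M := L)
    exact_mod_cast this
  have hpos' : (0 : ℝ) < finrank ℚ (fieldOf x) := by
    have := Module.finrank_pos (R := ℚ) (M := fieldOf x)
    exact_mod_cast this
  have hmul : (finrank ℚ (fieldOf x) : ℝ) * finrank (fieldOf x) L = finrank ℚ L := by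
    exact_mod_cast Module.finrank_mul_finrank ℚ (fieldOf x) L
  rw [absLogHeight, key, ← hmul]
  field_simp

/-- finitely many algebraic numbers lie in a number field inside `Qbar` -/
lemma exists_nf (s : Set Qbar) (hs : s.Finite) :
    ∃ (L : IntermediateField ℚ Qbar) (_ : NumberField L), ∀ y ∈ s, y ∈ L := by
  have : Finite s := hs
  refine ⟨IntermediateField.adjoin ℚ s, ?_, fun y hy => IntermediateField.subset_adjoin ℚ _ hy⟩
  exact
    { to_charZero := inferInstance
      to_finiteDimensional := IntermediateField.finiteDimensional_adjoin fun y _ =>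
        ((AlgebraicClosure.isAlgebraic ℚ).isAlgebraic y).isIntegral }

lemma val_eq (L : IntermediateField ℚ Qbar) [NumberField L] (y : ι → L) :
    absLogHeight (fun i => (y i : Qbar)) = logHeight y / finrank ℚ L :=
  absLogHeight_eq L (algebraMap L Qbar) y

lemma finrank_pos' (L : IntermediateField ℚ Qbar) [NumberField L] : (0 : ℝ) < finrank ℚ L := by
  have := Module.finrank_pos (R := ℚ) (M := L)
  exact_mod_cast this

lemma lift_vec (L : IntermediateField ℚ Qbar) (x : ι → Qbar) (h : ∀ i, x i ∈ L) :
    ∃ y : ι → L, x = fun i => (y i : Qbar) := ⟨fun i => ⟨x i, h i⟩, rfl⟩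

theorem absLogHeight_nonneg (x : ι → Qbar) : 0 ≤ absLogHeight x :=
  div_nonneg (logHeight_nonneg _) (finrank_pos' _).le

theorem absLogHeight_smul (x : ι → Qbar) {c : Qbar} (hc : c ≠ 0) :
    absLogHeight (c • x) = absLogHeight x := by
  obtain ⟨L, hL, hmem⟩ := exists_nf (Set.range x ∪ {c}) ((Set.finite_range x).union (by simp))
  obtain ⟨y, rfl⟩ := lift_vec L x fun i => hmem _ (Or.inl ⟨i, rfl⟩)
  have hcL : c ∈ L := hmem _ (Or.inr rfl)
  have e : (c • fun i => (y i : Qbar)) = fun i => (((⟨c, hcL⟩ : L) • y) i : Qbar) := by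
    funext i
    simp
  rw [e, val_eq, val_eq, logHeight_smul_eq_logHeight]
  intro h
  apply hc
  have := congrArg (fun z : L => (z : Qbar)) h
  simpa using this

theorem absLogHeight_comp_le {ι' : Type*} [Finite ι'] (f : ι → ι') (x : ι' → Qbar) :
    absLogHeight (x ∘ f) ≤ absLogHeight x := by
  obtain ⟨L, hL, hmem⟩ := exists_nf (Set.range x) (Set.finite_range x)
  obtain ⟨y, rfl⟩ := lift_vec L x fun i => hmem _ ⟨i, rfl⟩
  have e : ((fun i => (y i : Qbar)) ∘ f) = fun i => ((y ∘ f) i : Qbar) := rfl
  rw [e, val_eq, val_eq]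
  exact div_le_div_of_nonneg_right (logHeight_comp_le _ _) (finrank_pos' L).le

theorem absLogHeight_zero : absLogHeight (0 : ι → Qbar) = 0 := by
  have := absLogHeight_eq ℚ (algebraMap ℚ Qbar) (0 : ι → ℚ)
  rw [logHeight_zero, zero_div] at this
  rw [← this]
  congr 1
  funext i
  simp

/-- height bound for linear maps, with uniform constant -/
theorem absLogHeight_linear {ι' : Type*} [Finite ι'] {ι : Type*} [Fintype ι] (A : ι' × ι → Qbar)
    (x : ι → Qbar) :
    absLogHeight (fun j => ∑ i, A (j, i) * x i) ≤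
      Real.log (Nat.card ι) + absLogHeight A + absLogHeight x := by
  obtain ⟨L, hL, hmem⟩ := exists_nf (Set.range x ∪ Set.range A)
    ((Set.finite_range x).union (Set.finite_range A))
  obtain ⟨y, rfl⟩ := lift_vec L x fun i => hmem _ (Or.inl ⟨i, rfl⟩)
  obtain ⟨B, rfl⟩ := lift_vec L A fun i => hmem _ (Or.inr ⟨i, rfl⟩)
  have e : (fun j => ∑ i, (B (j, i) : Qbar) * (y i : Qbar)) =
      fun j => (((fun j => ∑ i, B (j, i) * y i) j : L) : Qbar) := by
    funext j
    push_cast
    rfl
  rw [e, val_eq, val_eq, val_eq]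
  have hpos := finrank_pos' L
  have := logHeight_linearMap_apply_le B y
  rw [totalWeight_eq_finrank] at this
  rw [div_le_iff₀ hpos]
  calc _ ≤ _ := this
    _ = _ := by field_simp

theorem absLogHeight_segre {ι' : Type*} [Finite ι'] {x : ι → Qbar} (hx : x ≠ 0)
    {y : ι' → Qbar} (hy : y ≠ 0) :
    absLogHeight (fun a : ι × ι' => x a.1 * y a.2) = absLogHeight x + absLogHeight y := by
  obtain ⟨L, hL, hmem⟩ := exists_nf (Set.range x ∪ Set.range y)
    ((Set.finite_range x).union (Set.finite_range y))
  obtain ⟨x', rfl⟩ := lift_vec L x fun i => hmem _ (Or.inl ⟨i, rfl⟩)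
  obtain ⟨y', rfl⟩ := lift_vec L y fun i => hmem _ (Or.inr ⟨i, rfl⟩)
  have hx' : x' ≠ 0 := by rintro rfl; exact hx (by funext i; simp)
  have hy' : y' ≠ 0 := by rintro rfl; exact hy (by funext i; simp)
  have e : (fun a : ι × ι' => (x' a.1 : Qbar) * (y' a.2 : Qbar)) =
      fun a => (((fun a : ι × ι' => x' a.1 * y' a.2) a : L) : Qbar) := by
    funext a
    push_cast
    rfl
  rw [e, val_eq, val_eq, val_eq, logHeight_fun_mul_eq hx' hy', add_div]

theorem absLogHeight_veronese (N : ℕ) (x : ι → Qbar) :
    absLogHeight (fun I : Fin N → ι => ∏ a, x (I a)) = N * absLogHeight x := by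
  by_cases hx : x = 0
  · subst hx
    rw [absLogHeight_zero, mul_zero]
    rcases Nat.eq_zero_or_pos N with rfl | hN
    · have := absLogHeight_eq ℚ (algebraMap ℚ Qbar) (1 : (Fin 0 → ι) → ℚ)
      rw [logHeight_one, zero_div] at this
      rw [← this]
      congr 1
    · have e : (fun I : Fin N → ι => ∏ a, (0 : ι → Qbar) (I a)) = 0 := by
        funext I
        exact Finset.prod_eq_zero (Finset.mem_univ ⟨0, hN⟩) rfl
      rw [e, absLogHeight_zero]
  · obtain ⟨L, hL, hmem⟩ := exists_nf (Set.range x) (Set.finite_range x)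
    obtain ⟨x', rfl⟩ := lift_vec L x fun i => hmem _ ⟨i, rfl⟩
    have hx' : x' ≠ 0 := by rintro rfl; exact hx (by funext i; simp)
    have e : (fun I : Fin N → ι => ∏ a, (x' (I a) : Qbar)) =
        fun I => (((fun I : Fin N → ι => ∏ a, x' (I a)) I : L) : Qbar) := by
      funext I
      push_cast
      rfl
    rw [e, val_eq, val_eq, logHeight_fun_prod_eq (fun _ => hx')]
    simp
    ring

open Polynomial HtPoly in
theorem absLogHeight_polymul (n : ℕ) (f g : Qbar[X]) (hf : f ≠ 0) (hg : g ≠ 0)
    (hn : f.natDegree + g.natDegree ≤ n) :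
    absLogHeight (cv n f) + absLogHeight (cv n g) ≤
      Real.log (2 ^ n * (n + 1)) + absLogHeight (cv n (f * g)) := by
  obtain ⟨L, hL, hmem⟩ := exists_nf ((f.coeffs : Set Qbar) ∪ (g.coeffs : Set Qbar))
    ((Finset.finite_toSet _).union (Finset.finite_toSet _))
  have hf' : ∃ F : L[X], F.map (algebraMap L Qbar) = f := by
    have : f ∈ Polynomial.lifts (algebraMap L Qbar) := by
      rw [Polynomial.lifts_iff_coeff_lifts]
      intro i
      by_cases h : f.coeff i = 0
      · exact ⟨0, by rw [h, map_zero]⟩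
      · exact ⟨⟨f.coeff i, hmem _ (Or.inl (Polynomial.coeff_mem_coeffs h))⟩, rfl⟩
    exact (Polynomial.mem_lifts _).mp this
  have hg' : ∃ G : L[X], G.map (algebraMap L Qbar) = g := by
    have : g ∈ Polynomial.lifts (algebraMap L Qbar) := by
      rw [Polynomial.lifts_iff_coeff_lifts]
      intro i
      by_cases h : g.coeff i = 0
      · exact ⟨0, by rw [h, map_zero]⟩
      · exact ⟨⟨g.coeff i, hmem _ (Or.inr (Polynomial.coeff_mem_coeffs h))⟩, rfl⟩
    exact (Polynomial.mem_lifts _).mp this
  obtain ⟨F, rfl⟩ := hf'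
  obtain ⟨G, rfl⟩ := hg'
  have hF : F ≠ 0 := by rintro rfl; simp at hf
  have hG : G ≠ 0 := by rintro rfl; simp at hg
  have e : ∀ P : L[X], cv n (P.map (algebraMap L Qbar)) = fun i => ((cv n P i : L) : Qbar) := by
    intro P
    funext i
    simp only [cv, coeff_map]
    rfl
  rw [← Polynomial.map_mul, e, e, e, val_eq, val_eq, val_eq]
  rw [natDegree_map, natDegree_map] at hn
  have key := mulHeight_mul_poly n F G hF hG hn
  have hpos := finrank_pos' L
  have h1 := mulHeight_pos (cv n F)
  have h2 := mulHeight_pos (cv n G)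
  have h3 := mulHeight_pos (cv n (F * G))
  have key2 := Real.log_le_log (mul_pos h1 h2) key
  rw [Real.log_mul h1.ne' h2.ne', Real.log_mul (by positivity) h3.ne', Real.log_pow] at key2
  rw [← add_div, div_le_iff₀ hpos]
  simp only [logHeight_eq_log_mulHeight]
  calc _ ≤ _ := key2
    _ = _ := by field_simp

/-- the height of an integral point with coprime coordinates -/
theorem absLogHeight_int {ι : Type*} [Fintype ι] [Nonempty ι] (x : ι → ℤ)
    (hx : Finset.univ.gcd x = 1) :
    absLogHeight (fun i => (x i : Qbar)) = Real.log ((⨆ i, |x i| : ℤ) : ℝ) := by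
  have := absLogHeight_eq ℚ (algebraMap ℚ Qbar) (((↑) : ℤ → ℚ) ∘ x)
  rw [Rat.logHeight_eq_max_abs_of_gcd_eq_one hx] at this
  simp only [Function.comp_apply, map_intCast, finrank_self, Nat.cast_one, div_one] at this
  exact this

/-! homogeneous polynomial maps -/

open MvPolynomial in
/-- a homogeneous polynomial of degree `N` is a linear form in the products of `N` variables -/
lemma exists_linear {ι : Type*} [Fintype ι] [DecidableEq ι] (N : ℕ) (p : MvPolynomial ι Qbar)
    (hp : p.IsHomogeneous N) :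
    ∃ A : (Fin N → ι) → Qbar, ∀ x : ι → Qbar, eval x p = ∑ I : Fin N → ι, A I * ∏ a, x (I a) := by
  classical
  have hlist : ∀ l : List ι, l.length = N → ∃ I : Fin N → ι, ∀ x : ι → Qbar,
      (l.map x).prod = ∏ a, x (I a) := by
    rintro l rfl
    refine ⟨l.get, fun x => ?_⟩
    rw [← List.prod_ofFn]
    congr 1
    apply List.ext_get
    · simp
    · intro n h1 h2
      simp
  have hmon : ∀ s : ι →₀ ℕ, ∃ B : (Fin N → ι) → Qbar, s.degree = N → ∀ x : ι → Qbar,
      s.prod (fun i n => x i ^ n) = ∑ J, B J * ∏ a, x (J a) := by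
    intro s
    by_cases hs : s.degree = N
    · have hcard : (Finsupp.toMultiset s).toList.length = N := by
        rw [Multiset.length_toList, Finsupp.card_toMultiset, ← hs]
        rfl
      obtain ⟨I, hI⟩ := hlist _ hcard
      refine ⟨fun J => if J = I then 1 else 0, fun _ x => ?_⟩
      have h1 : s.prod (fun i n => x i ^ n) = ((Finsupp.toMultiset s).map x).prod := by
        rw [Finsupp.toMultiset_map, Finsupp.prod_toMultiset, Finsupp.prod_mapDomain_index]
        · simp
        · intro b m n
          rw [pow_add]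
      rw [h1]
      have h2 : ((Finsupp.toMultiset s).map x).prod = ((Finsupp.toMultiset s).toList.map x).prod := by
        conv_lhs => rw [← Multiset.coe_toList (Finsupp.toMultiset s)]
        rw [Multiset.map_coe, Multiset.prod_coe]
      rw [h2, hI x]
      simp
    · exact ⟨0, fun h => absurd h hs⟩
  choose B hB using hmon
  refine ⟨fun J => ∑ s ∈ p.support, coeff s p * B s J, fun x => ?_⟩
  rw [eval_eq]
  simp_rw [Finset.sum_mul]
  rw [Finset.sum_comm]
  refine Finset.sum_congr rfl fun s hs => ?_
  have hdeg : s.degree = N := by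
    have := hp (mem_support_iff.mp hs)
    rw [← this, Finsupp.degree_eq_weight_one]
    rfl
  have := hB s hdeg x
  rw [Finsupp.prod_fintype _ _ (fun i => pow_zero _)] at this
  rw [Finset.prod_subset (Finset.subset_univ s.support), this, Finset.mul_sum]
  · refine Finset.sum_congr rfl fun J _ => ?_
    ring
  · intro i _ hi
    rw [Finsupp.notMem_support_iff.mp hi, pow_zero]

open MvPolynomial in
theorem absLogHeight_eval {ι ι' : Type*} [Fintype ι] [Finite ι'] (N : ℕ)
    (p : ι' → MvPolynomial ι Qbar) (hp : ∀ j, (p j).IsHomogeneous N) :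
    ∃ C : ℝ, ∀ x : ι → Qbar, absLogHeight (fun j => eval x (p j)) ≤ C + N * absLogHeight x := by
  classical
  choose A hA using fun j => exists_linear N (p j) (hp j)
  refine ⟨Real.log (Nat.card (Fin N → ι)) + absLogHeight (fun a : ι' × (Fin N → ι) => A a.1 a.2),
    fun x => ?_⟩
  have h1 := absLogHeight_linear (fun a : ι' × (Fin N → ι) => A a.1 a.2)
    (fun I : Fin N → ι => ∏ a, x (I a))
  rw [absLogHeight_veronese] at h1
  have e : (fun j => eval x (p j)) = fun j => ∑ I : Fin N → ι, A j I * ∏ a, x (I a) := by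
    funext j
    exact hA j x
  rw [e]
  exact h1

/-! affine heights -/

theorem absLogHeight_le_sum {ι : Type*} [Fintype ι] (x : ι → Qbar) :
    absLogHeight x ≤ ∑ i, absLogHeight ![1, x i] := by
  classical
  obtain ⟨L, hL, hmem⟩ := exists_nf (Set.range x) (Set.finite_range x)
  obtain ⟨y, rfl⟩ := lift_vec L x fun i => hmem _ ⟨i, rfl⟩
  have e : ∀ i, absLogHeight ![1, (y i : Qbar)] = logHeight ![1, y i] / finrank ℚ L := by
    intro i
    rw [← val_eq]
    congr 1
    funext j
    fin_cases j <;> simp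
  simp only [e]
  rw [val_eq, ← Finset.sum_div]
  refine div_le_div_of_nonneg_right ?_ (finrank_pos' L).le
  have h1 := logHeight_fun_prod_eq (x := fun i : ι => ![1, y i]) (fun i => by
    intro h
    have := congrFun h 0
    simp at this)
  rw [← h1]
  have h2 := logHeight_comp_le (fun i : ι => (fun a : ι => if a = i then (1 : Fin 2) else 0))
    (fun I : ι → Fin 2 => ∏ a, ![1, y a] (I a))
  have e2 : (fun I : ι → Fin 2 => ∏ a, ![1, y a] (I a)) ∘
      (fun i : ι => (fun a : ι => if a = i then (1 : Fin 2) else 0)) = y := by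
    funext i
    simp only [Function.comp_apply]
    rw [Finset.prod_eq_single i]
    · simp
    · intro b _ hb
      simp [hb]
    · intro h
      exact absurd (Finset.mem_univ _) h
  rw [e2] at h2
  exact h2

theorem aff_le_of_eq_one {ι : Type*} [Finite ι] (x : ι → Qbar) (i0 : ι) (h : x i0 = 1) (i : ι) :
    absLogHeight ![1, x i] ≤ absLogHeight x := by
  have := absLogHeight_comp_le ![i0, i] x
  have e : x ∘ ![i0, i] = ![1, x i] := by
    funext j
    fin_cases j
    · simpa using h
    · simp
  rwa [e] at this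

open Polynomial HtPoly in
/-- height of a root of a polynomial -/
theorem absLogHeight_root (n : ℕ) : ∃ C : ℝ, ∀ (P : Qbar[X]) (α : Qbar), P ≠ 0 →
    P.natDegree ≤ n → P.eval α = 0 → absLogHeight ![1, α] ≤ C + absLogHeight (cv n P) := by
  refine ⟨Real.log (Nat.card (Fin 2)) + absLogHeight (fun a : Fin 2 × Fin 2 =>
    if a.1 = a.2 then (if a.1 = 0 then (1 : Qbar) else -1) else 0) +
    Real.log (2 ^ n * (n + 1)), fun P α hP hn hroot => ?_⟩
  obtain ⟨Q, hQ⟩ := Polynomial.dvd_iff_isRoot.mpr hroot
  have hQ0 : Q ≠ 0 := by rintro rfl; simp at hQ; exact hP hQ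
  have hdeg : (X - C α).natDegree + Q.natDegree ≤ n := by
    rw [← natDegree_mul (X_sub_C_ne_zero α) hQ0, ← hQ]; exact hn
  have h1 := absLogHeight_polymul n (X - C α) Q (X_sub_C_ne_zero α) hQ0 hdeg
  rw [← hQ] at h1
  have h2 := absLogHeight_nonneg (cv n Q)
  rw [natDegree_X_sub_C] at hdeg
  -- the vector (1, -α)
  have h3 := absLogHeight_comp_le (![⟨1, by omega⟩, ⟨0, by omega⟩] : Fin 2 → Fin (n + 1))
    (cv n (X - C α))
  have e3 : cv n (X - C α) ∘ (![⟨1, by omega⟩, ⟨0, by omega⟩] : Fin 2 → Fin (n + 1)) =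
      ![1, -α] := by
    funext j
    fin_cases j
    · simp [cv, coeff_X, coeff_C]
    · simp [cv]
  rw [e3] at h3
  have h4 := absLogHeight_linear (fun a : Fin 2 × Fin 2 =>
    if a.1 = a.2 then (if a.1 = 0 then (1 : Qbar) else -1) else 0) ![1, -α]
  have e4 : (fun j : Fin 2 => ∑ i, (fun a : Fin 2 × Fin 2 =>
      if a.1 = a.2 then (if a.1 = 0 then (1 : Qbar) else -1) else 0) (j, i) * ![1, -α] i) =
      ![1, α] := by
    funext j
    fin_cases j <;> simp
  rw [e4] at h4
  linarith

end Pool.Agent.Helper259.AbsHt
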