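import Mathlib
import Pool.Agent.Helper259.AbsHt

set_option autoImplicit false
set_option linter.unusedSectionVars false

namespace Pool.Agent.Helper259.Uniform

open Pool.Agent.Helper259.AbsHt Filter

/-- the ultrapower of `Qbar` -/
def Kst (U : Ultrafilter ℕ) : Type := (U : Filter ℕ).Germ Qbar

noncomputable instance (U : Ultrafilter ℕ) : Field (Kst U) :=
  inferInstanceAs (Field ((U : Filter ℕ).Germ Qbar))

/-- class of a sequence -/
noncomputable def toK (U : Ultrafilter ℕ) : (ℕ → Qbar) →+* Kst U :=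
  Filter.Germ.coeRingHom (U : Filter ℕ)

noncomputable instance (U : Ultrafilter ℕ) : Algebra Qbar (Kst U) :=
  ((toK U).comp (Pi.constRingHom ℕ Qbar)).toAlgebra

variable (U : Ultrafilter ℕ)

lemma algMap_eq (c : Qbar) : algebraMap Qbar (Kst U) c = toK U (fun _ => c) := rfl

lemma toK_surj (z : Kst U) : ∃ f, toK U f = z := by
  refine Quotient.inductionOn' z ?_
  intro f
  exact ⟨f, rfl⟩

lemma toK_eq_iff (f g : ℕ → Qbar) : toK U f = toK U g ↔ ∀ᶠ j in (U : Filter ℕ), f j = g j := by
  exact Filter.Germ.coe_eq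

lemma toK_eq_zero_iff (f : ℕ → Qbar) : toK U f = 0 ↔ ∀ᶠ j in (U : Filter ℕ), f j = 0 := by
  rw [← map_zero (toK U), toK_eq_iff]
  rfl

lemma toK_ne_zero_iff (f : ℕ → Qbar) : toK U f ≠ 0 ↔ ∀ᶠ j in (U : Filter ℕ), f j ≠ 0 := by
  rw [Ne, toK_eq_zero_iff, ← Ultrafilter.eventually_not]

lemma toK_aeval {σ : Type*} (f : σ → ℕ → Qbar) (p : MvPolynomial σ Qbar) :
    MvPolynomial.aeval (fun s => toK U (f s)) p =
      toK U (fun j => MvPolynomial.eval (fun s => f s j) p) := by
  induction p using MvPolynomial.induction_on with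
  | C a => simp [algMap_eq]
  | add p q hp hq =>
    rw [map_add, hp, hq, ← map_add]
    congr 1
    funext j
    simp
  | mul_X p s hp =>
    rw [map_mul, hp, MvPolynomial.aeval_X, ← map_mul]
    congr 1
    funext j
    simp

instance : IsAlgClosed (Kst U) := by
  apply IsAlgClosed.of_exists_root
  intro p hmon hirr
  have hdeg : 0 < p.natDegree := hirr.natDegree_pos
  choose c hc using fun i => toK_surj U (p.coeff i)
  set n := p.natDegree with hn
  have hroot : ∀ j : ℕ, ∃ r : Qbar, r ^ n + ∑ i ∈ Finset.range n, c i j * r ^ i = 0 := by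
    intro j
    set P : Polynomial Qbar := Polynomial.X ^ n +
      ∑ i ∈ Finset.range n, Polynomial.C (c i j) * Polynomial.X ^ i with hP
    have hlt : (∑ i ∈ Finset.range n, Polynomial.C (c i j) * Polynomial.X ^ i).degree <
        ((n : ℕ) : WithBot ℕ) := by
      refine (Polynomial.degree_sum_le _ _).trans_lt ?_
      refine (Finset.sup_lt_iff (WithBot.bot_lt_coe n)).mpr ?_
      intro i hi
      refine (Polynomial.degree_C_mul_X_pow_le _ _).trans_lt ?_
      exact WithBot.coe_lt_coe.mpr (Finset.mem_range.mp hi)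
    have hPdeg : P.degree = n := by
      rw [hP, Polynomial.degree_add_eq_left_of_degree_lt]
      · exact Polynomial.degree_X_pow n
      · rw [Polynomial.degree_X_pow]; exact hlt
    obtain ⟨r, hr⟩ := IsAlgClosed.exists_root P (by
      rw [hPdeg]
      exact_mod_cast hdeg.ne')
    refine ⟨r, ?_⟩
    have := hr.eq_zero
    rw [hP] at this
    simpa [Polynomial.eval_finsetSum] using this
  choose r hr using hroot
  refine ⟨toK U r, ?_⟩
  rw [hmon.as_sum]
  rw [Polynomial.eval_add, Polynomial.eval_pow, Polynomial.eval_X, Polynomial.eval_finsetSum]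
  simp only [Polynomial.eval_mul, Polynomial.eval_C, Polynomial.eval_pow, Polynomial.eval_X, ← hc]
  rw [← hn]
  have : toK U (fun j => r j ^ n + ∑ i ∈ Finset.range n, c i j * r j ^ i) = 0 := by
    have h0 : (fun j => r j ^ n + ∑ i ∈ Finset.range n, c i j * r j ^ i) = 0 := by
      funext j; exact hr j
    rw [h0, map_zero]
  rw [← this]
  have e : (fun j => r j ^ n + ∑ i ∈ Finset.range n, c i j * r j ^ i) =
      r ^ n + ∑ i ∈ Finset.range n, c i * r ^ i := by
    funext j
    simp [Finset.sum_apply]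
  rw [e, map_add, map_pow, map_sum]
  simp only [map_mul, map_pow]

/-! affine heights of values of polynomials -/

/-- affine height -/
noncomputable def h1 (a : Qbar) : ℝ := absLogHeight ![1, a]

lemma h1_nonneg (a : Qbar) : 0 ≤ h1 a := absLogHeight_nonneg _

lemma h1_eq (L : IntermediateField ℚ Qbar) [NumberField L] (a : L) :
    h1 (a : Qbar) = Height.logHeight₁ a / Module.finrank ℚ L := by
  have e : (![1, (a : Qbar)] : Fin 2 → Qbar) = fun i => ((![1, a] i : L) : Qbar) := by
    funext j
    fin_cases j <;> simp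
  rw [h1, e, val_eq, Height.logHeight₁_eq_logHeight, Height.logHeight_swap]

lemma h1_add (a b : Qbar) : h1 (a + b) ≤ Real.log 2 + h1 a + h1 b := by
  obtain ⟨L, hL, hmem⟩ := exists_nf {a, b} (by simp)
  obtain ⟨a, rfl⟩ : ∃ a' : L, a = a' := ⟨⟨a, hmem _ (by simp)⟩, rfl⟩
  obtain ⟨b, rfl⟩ : ∃ b' : L, b = b' := ⟨⟨b, hmem _ (by simp)⟩, rfl⟩
  have e : ((a : Qbar) + b) = ((a + b : L) : Qbar) := by push_cast; rfl
  rw [e, h1_eq, h1_eq, h1_eq]
  have hpos := finrank_pos' L
  have := Height.logHeight₁_add_le a b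
  rw [NumberField.totalWeight_eq_finrank] at this
  rw [div_le_iff₀ hpos]
  calc _ ≤ _ := this
    _ = _ := by field_simp

lemma h1_mul (a b : Qbar) : h1 (a * b) ≤ h1 a + h1 b := by
  obtain ⟨L, hL, hmem⟩ := exists_nf {a, b} (by simp)
  obtain ⟨a, rfl⟩ : ∃ a' : L, a = a' := ⟨⟨a, hmem _ (by simp)⟩, rfl⟩
  obtain ⟨b, rfl⟩ : ∃ b' : L, b = b' := ⟨⟨b, hmem _ (by simp)⟩, rfl⟩
  have e : ((a : Qbar) * b) = ((a * b : L) : Qbar) := by push_cast; rfl
  rw [e, h1_eq, h1_eq, h1_eq, ← add_div]
  exact div_le_div_of_nonneg_right (Height.logHeight₁_mul_le a b) (finrank_pos' L).le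

/-- affine height of the value of a polynomial -/
lemma h1_eval {α : Type*} [Fintype α] (p : MvPolynomial α Qbar) :
    ∃ C : ℝ, 0 ≤ C ∧ ∀ y : α → Qbar, h1 (MvPolynomial.eval y p) ≤ C * (1 + ∑ a, h1 (y a)) := by
  have hS : ∀ y : α → Qbar, 0 ≤ ∑ a, h1 (y a) := fun y =>
    Finset.sum_nonneg fun a _ => h1_nonneg _
  induction p using MvPolynomial.induction_on with
  | C c =>
    refine ⟨h1 c, h1_nonneg c, fun y => ?_⟩
    rw [MvPolynomial.eval_C]
    nlinarith [hS y, h1_nonneg c]
  | add p q hp hq =>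
    obtain ⟨C1, hC1, h1'⟩ := hp
    obtain ⟨C2, hC2, h2'⟩ := hq
    refine ⟨Real.log 2 + C1 + C2, by have := Real.log_nonneg (by norm_num : (1:ℝ) ≤ 2); positivity,
      fun y => ?_⟩
    rw [map_add]
    have hlog := Real.log_nonneg (by norm_num : (1:ℝ) ≤ 2)
    have := h1_add (MvPolynomial.eval y p) (MvPolynomial.eval y q)
    nlinarith [hS y, h1' y, h2' y, mul_nonneg hlog (hS y)]
  | mul_X p s hp =>
    obtain ⟨C1, hC1, h1'⟩ := hp
    refine ⟨C1 + 1, by positivity, fun y => ?_⟩
    rw [map_mul, MvPolynomial.eval_X]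
    have := h1_mul (MvPolynomial.eval y p) (y s)
    have h3 : h1 (y s) ≤ ∑ a, h1 (y a) :=
      Finset.single_le_sum (fun a _ => h1_nonneg (y a)) (Finset.mem_univ s)
    nlinarith [hS y, h1' y]

open Polynomial HtPoly in
/-- height of a root of a polynomial whose coefficients are polynomials in `y` -/
lemma h1_root {α : Type*} [Fintype α] (P : Polynomial (MvPolynomial α Qbar)) :
    ∃ C : ℝ, 0 ≤ C ∧ ∀ (y : α → Qbar) (z : Qbar), P.map (MvPolynomial.eval y) ≠ 0 →
      (P.map (MvPolynomial.eval y)).eval z = 0 → h1 z ≤ C * (1 + ∑ a, h1 (y a)) := by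
  obtain ⟨C0, hC0⟩ := absLogHeight_root P.natDegree
  choose C hC hC' using fun i : ℕ => h1_eval (P.coeff i)
  refine ⟨|C0| + ∑ i : Fin (P.natDegree + 1), C i, by
    have := Finset.sum_nonneg fun (i : Fin (P.natDegree + 1)) (_ : i ∈ Finset.univ) => hC i
    positivity, fun y z hne hroot => ?_⟩
  have hS : 0 ≤ ∑ a, h1 (y a) := Finset.sum_nonneg fun a _ => h1_nonneg _
  have h2 := hC0 (P.map (MvPolynomial.eval y)) z hne (natDegree_map_le) hroot
  have h3 := absLogHeight_le_sum (cv P.natDegree (P.map (MvPolynomial.eval y)))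
  have h4 : ∑ i : Fin (P.natDegree + 1), absLogHeight ![1, cv P.natDegree (P.map (MvPolynomial.eval y)) i] ≤
      ∑ i : Fin (P.natDegree + 1), C i * (1 + ∑ a, h1 (y a)) := by
    refine Finset.sum_le_sum fun i _ => ?_
    have := hC' i y
    simpa [cv, h1] using this
  rw [← Finset.sum_mul] at h4
  have h5 : C0 ≤ |C0| := le_abs_self C0
  have h6 : 0 ≤ |C0| := abs_nonneg C0
  show absLogHeight ![1, z] ≤ _
  nlinarith [mul_nonneg h6 hS]

/-- In the ultrapower, a polynomial system with coefficients in the field generated by `Ys` which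
has a solution has a solution algebraic over that field. -/
lemma exists_alg {α β : Type*} [Fintype α] [Finite β] (S : Set (MvPolynomial (α ⊕ β) Qbar))
    (g : MvPolynomial (α ⊕ β) Qbar) (Ys : α → Kst U) (Xs : β → Kst U)
    (hS : ∀ f ∈ S, MvPolynomial.aeval (Sum.elim Ys Xs) f = 0)
    (hg : MvPolynomial.aeval (Sum.elim Ys Xs) g ≠ 0) :
    ∃ Xs' : β → Kst U, (∀ f ∈ S, MvPolynomial.aeval (Sum.elim Ys Xs') f = 0) ∧
      MvPolynomial.aeval (Sum.elim Ys Xs') g ≠ 0 ∧
      ∀ b, ∃ P : Polynomial (MvPolynomial α Qbar),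
        P.map (MvPolynomial.aeval Ys : MvPolynomial α Qbar →ₐ[Qbar] Kst U).toRingHom ≠ 0 ∧
        (P.map (MvPolynomial.aeval Ys : MvPolynomial α Qbar →ₐ[Qbar] Kst U).toRingHom).eval (Xs' b)
          = 0 := by
  let F0 : IntermediateField Qbar (Kst U) := IntermediateField.adjoin Qbar (Set.range Ys)
  let k1 := algebraicClosure F0 (Kst U)
  let Y0 : α → F0 := fun a => ⟨Ys a, IntermediateField.subset_adjoin _ _ ⟨a, rfl⟩⟩
  let sub : MvPolynomial (α ⊕ β) Qbar →ₐ[Qbar] MvPolynomial β F0 :=
    MvPolynomial.aeval (Sum.elim (fun a => MvPolynomial.C (Y0 a)) (fun b => MvPolynomial.X b))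
  have hsub : ∀ (x : β → Kst U) (f : MvPolynomial (α ⊕ β) Qbar),
      MvPolynomial.aeval x (sub f) = MvPolynomial.aeval (Sum.elim Ys x) f := by
    intro x f
    have : ((MvPolynomial.aeval x : MvPolynomial β F0 →ₐ[F0] Kst U).restrictScalars Qbar).comp sub =
        MvPolynomial.aeval (Sum.elim Ys x) := by
      apply MvPolynomial.algHom_ext
      rintro (a | b)
      · simp [sub, Y0]
      · simp [sub]
    exact congrArg (fun φ => φ f) this
  -- Nullstellensatz over `F0` with points in `k1`
  let I : Ideal (MvPolynomial β F0) := Ideal.span (sub '' S)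
  have hnot : sub g ∉ I.radical := by
    intro h
    obtain ⟨m, hm⟩ := h
    have h2 : I ≤ RingHom.ker (MvPolynomial.aeval Xs : MvPolynomial β F0 →ₐ[F0] Kst U) := by
      rw [Ideal.span_le]
      rintro _ ⟨f, hf, rfl⟩
      show MvPolynomial.aeval Xs (sub f) = 0
      rw [hsub]
      exact hS f hf
    have h3 := h2 hm
    rw [RingHom.mem_ker, map_pow, hsub] at h3
    exact hg (eq_zero_of_pow_eq_zero h3)
  have hk1 : IsAlgClosed k1 := IsAlgClosure.isAlgClosed F0
  rw [← MvPolynomial.vanishingIdeal_zeroLocus_eq_radical (K := k1) I,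
    MvPolynomial.mem_vanishingIdeal_iff] at hnot
  push Not at hnot
  obtain ⟨x, hxI, hxg⟩ := hnot
  rw [MvPolynomial.mem_zeroLocus_iff] at hxI
  have hval : ∀ f : MvPolynomial (α ⊕ β) Qbar,
      MvPolynomial.aeval (Sum.elim Ys (fun b => (x b : Kst U))) f =
        ((MvPolynomial.aeval x (sub f) : k1) : Kst U) := by
    intro f
    rw [← hsub]
    have := MvPolynomial.map_aeval x (algebraMap k1 (Kst U)) (sub f)
    exact (MvPolynomial.aeval_algebraMap_apply (Kst U) x (sub f))
  refine ⟨fun b => (x b : Kst U), ?_, ?_, ?_⟩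
  · intro f hf
    rw [hval, hxI _ (Ideal.subset_span ⟨f, hf, rfl⟩)]
    rfl
  · rw [hval]
    intro h
    apply hxg
    exact Subtype.ext h
  · intro b
    have h1 : IsAlgebraic F0 (x b : Kst U) := mem_algebraicClosure_iff.mp (x b).2
    have h2 : IsAlgebraic (Algebra.adjoin Qbar (Set.range Ys)) (x b : Kst U) :=
      IntermediateField.isAlgebraic_adjoin_iff.mp h1
    obtain ⟨p, hp0, hp⟩ := h2
    -- lift the coefficients
    have hsurj : Function.Surjective
        (fun q : MvPolynomial α Qbar => (⟨MvPolynomial.aeval Ys q, by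
          rw [Algebra.adjoin_range_eq_range_aeval]; exact ⟨q, rfl⟩⟩ :
            Algebra.adjoin Qbar (Set.range Ys))) := by
      rintro ⟨z, hz⟩
      rw [Algebra.adjoin_range_eq_range_aeval] at hz
      obtain ⟨q, hq⟩ := hz
      exact ⟨q, Subtype.ext hq⟩
    let ρ : MvPolynomial α Qbar →+* Algebra.adjoin Qbar (Set.range Ys) :=
      { toFun := fun q => ⟨MvPolynomial.aeval Ys q, by
          rw [Algebra.adjoin_range_eq_range_aeval]; exact ⟨q, rfl⟩⟩
        map_one' := Subtype.ext (map_one _)
        map_mul' := fun a b => Subtype.ext (map_mul _ _ _)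
        map_zero' := Subtype.ext (map_zero _)
        map_add' := fun a b => Subtype.ext (map_add _ _ _) }
    obtain ⟨P, hP⟩ := Polynomial.map_surjective ρ hsurj p
    have hcomp : (MvPolynomial.aeval Ys : MvPolynomial α Qbar →ₐ[Qbar] Kst U).toRingHom =
        (algebraMap (Algebra.adjoin Qbar (Set.range Ys)) (Kst U)).comp ρ := rfl
    refine ⟨P, ?_, ?_⟩
    · rw [hcomp, ← Polynomial.map_map, hP]
      intro h
      apply hp0
      exact (Polynomial.map_eq_zero_iff (FaithfulSMul.algebraMap_injective _ _)).mp h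
    · rw [hcomp, ← Polynomial.map_map, hP]
      rw [Polynomial.eval_map_algebraMap]
      exact hp

/-- **Uniform small solutions.** A solvable polynomial system with parameters `y` has a solution
whose affine height is bounded linearly in the affine height of the parameters. -/
theorem uniform {α β : Type*} [Fintype α] [Fintype β] (S : Set (MvPolynomial (α ⊕ β) Qbar))
    (hSfin : S.Finite) (g : MvPolynomial (α ⊕ β) Qbar) :
    ∃ C : ℝ, 0 ≤ C ∧ ∀ y : α → Qbar,
      (∃ x : β → Qbar, (∀ f ∈ S, MvPolynomial.eval (Sum.elim y x) f = 0) ∧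
        MvPolynomial.eval (Sum.elim y x) g ≠ 0) →
      ∃ x : β → Qbar, (∀ f ∈ S, MvPolynomial.eval (Sum.elim y x) f = 0) ∧
        MvPolynomial.eval (Sum.elim y x) g ≠ 0 ∧ ∀ b, h1 (x b) ≤ C * (1 + ∑ a, h1 (y a)) := by
  by_contra hcon
  push Not at hcon
  choose y hy hbad using fun j : ℕ => hcon (j : ℝ) (Nat.cast_nonneg j)
  choose x hxS hxg using hy
  let U : Ultrafilter ℕ := hyperfilter ℕ
  let Ys : α → Kst U := fun a => toK U (fun j => y j a)
  let Xs : β → Kst U := fun b => toK U (fun j => x j b)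
  have hev : ∀ (X : β → ℕ → Qbar) (f : MvPolynomial (α ⊕ β) Qbar),
      MvPolynomial.aeval (Sum.elim Ys (fun b => toK U (X b))) f =
        toK U (fun j => MvPolynomial.eval (Sum.elim (y j) (fun b => X b j)) f) := by
    intro X f
    have := toK_aeval U (Sum.elim (fun (a : α) (j : ℕ) => y j a) (fun b j => X b j)) f
    have e1 : (fun s => toK U (Sum.elim (fun (a : α) (j : ℕ) => y j a) (fun b j => X b j) s)) =
        Sum.elim Ys (fun b => toK U (X b)) := by
      funext s
      rcases s with a | b <;> rfl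
    rw [e1] at this
    rw [this]
    congr 1
    funext j
    congr 1
    congr 1
    funext s
    rcases s with a | b <;> rfl
  obtain ⟨Xs', hS', hg', halg⟩ := exists_alg U S g Ys Xs
    (by
      intro f hf
      have := hev (fun b j => x j b) f
      rw [show Xs = fun b => toK U (fun j => x j b) from rfl, this]
      have h0 : (fun j => MvPolynomial.eval (Sum.elim (y j) (fun b => x j b)) f) = 0 := by
        funext j
        exact hxS j f hf
      rw [h0, map_zero])
    (by
      have := hev (fun b j => x j b) g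
      rw [show Xs = fun b => toK U (fun j => x j b) from rfl, this, toK_ne_zero_iff]
      exact Filter.Eventually.of_forall fun j => hxg j)
  choose X hX using fun b => toK_surj U (Xs' b)
  have hXs' : Xs' = fun b => toK U (X b) := by funext b; exact (hX b).symm
  rw [hXs'] at hS' hg'
  choose P hP0 hP using halg
  choose C hC hCroot using fun b => h1_root (P b)
  -- the statements that hold almost everywhere
  have ev1 : ∀ᶠ j in (U : Filter ℕ), ∀ f ∈ S,
      MvPolynomial.eval (Sum.elim (y j) (fun b => X b j)) f = 0 := by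
    rw [Filter.eventually_all_finite hSfin]
    intro f hf
    have := hS' f hf
    rw [hev, toK_eq_zero_iff] at this
    exact this
  have ev2 : ∀ᶠ j in (U : Filter ℕ),
      MvPolynomial.eval (Sum.elim (y j) (fun b => X b j)) g ≠ 0 := by
    rw [hev, toK_ne_zero_iff] at hg'
    exact hg'
  have hYs : ∀ q : MvPolynomial α Qbar, MvPolynomial.aeval Ys q =
      toK U (fun j => MvPolynomial.eval (y j) q) := fun q =>
    toK_aeval U (fun a j => y j a) q
  have ev3 : ∀ᶠ j in (U : Filter ℕ), ∀ b, (P b).map (MvPolynomial.eval (y j)) ≠ 0 := by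
    rw [Filter.eventually_all]
    intro b
    have h := hP0 b
    obtain ⟨i, hi⟩ : ∃ i, ((P b).map
        (MvPolynomial.aeval Ys : MvPolynomial α Qbar →ₐ[Qbar] Kst U).toRingHom).coeff i ≠ 0 := by
      by_contra hall
      push Not at hall
      exact h (Polynomial.ext fun i => by rw [hall i, Polynomial.coeff_zero])
    rw [Polynomial.coeff_map] at hi
    have hi' : MvPolynomial.aeval Ys ((P b).coeff i) ≠ 0 := hi
    rw [hYs, toK_ne_zero_iff] at hi'
    filter_upwards [hi'] with j hj
    intro h0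
    apply hj
    have := congrArg (fun q => Polynomial.coeff q i) h0
    simpa [Polynomial.coeff_map] using this
  have ev4 : ∀ᶠ j in (U : Filter ℕ), ∀ b, ((P b).map (MvPolynomial.eval (y j))).eval (X b j) = 0 := by
    rw [Filter.eventually_all]
    intro b
    have h := hP b
    rw [← hX b, Polynomial.eval_map, Polynomial.eval₂_eq_sum_range] at h
    have h' : toK U (fun j => ∑ i ∈ Finset.range ((P b).natDegree + 1),
        MvPolynomial.eval (y j) ((P b).coeff i) * (X b j) ^ i) = 0 := by
      have e : (fun j => ∑ i ∈ Finset.range ((P b).natDegree + 1),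
          MvPolynomial.eval (y j) ((P b).coeff i) * (X b j) ^ i) =
          ∑ i ∈ Finset.range ((P b).natDegree + 1),
            (fun j => MvPolynomial.eval (y j) ((P b).coeff i)) * (X b) ^ i := by
        funext j
        simp [Finset.sum_apply]
      rw [e, map_sum]
      rw [← h]
      refine Finset.sum_congr rfl fun i _ => ?_
      rw [map_mul, map_pow]
      congr 1
      exact (hYs _).symm
    rw [toK_eq_zero_iff] at h'
    filter_upwards [h'] with j hj
    rw [Polynomial.eval_map, Polynomial.eval₂_eq_sum_range]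
    exact hj
  have ev5 : ∀ᶠ j : ℕ in (U : Filter ℕ), ∑ b, C b ≤ (j : ℝ) := by
    have h1 : ∀ᶠ j : ℕ in atTop, ∑ b, C b ≤ (j : ℝ) := by
      filter_upwards [eventually_ge_atTop ⌈∑ b, C b⌉₊] with j hj
      exact (Nat.le_ceil _).trans (by exact_mod_cast hj)
    exact Nat.hyperfilter_le_atTop h1
  obtain ⟨j, h1j, h2j, h3j, h4j, h5j⟩ := (ev1.and (ev2.and (ev3.and (ev4.and ev5)))).exists
  obtain ⟨b, hb⟩ := hbad j (fun b => X b j) h1j h2j
  have h6 := hCroot b (y j) (X b j) (h3j b) (h4j b)
  have h7 : C b ≤ ∑ b, C b := Finset.single_le_sum (fun b _ => hC b) (Finset.mem_univ b)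
  have hS : 0 ≤ ∑ a, h1 (y j a) := Finset.sum_nonneg fun a _ => h1_nonneg _
  have h8 : C b * (1 + ∑ a, h1 (y j a)) ≤ (j : ℝ) * (1 + ∑ a, h1 (y j a)) :=
    mul_le_mul_of_nonneg_right (h7.trans h5j) (by positivity)
  linarith

end Pool.Agent.Helper259.Uniform
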