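import Mathlib
import Pool.Agent.Helper259.Uniform

set_option autoImplicit false

namespace Pool.Agent.Helper259.Dens

open Pool.Agent.Helper259.AbsHt Pool.Agent.Helper259.Uniform

/-- points with separated heights satisfy no polynomial relation -/
theorem sep : ∀ (k : ℕ) (z : Fin k → ℕ → Qbar),
    (∀ i : Fin k, ∀ C : ℝ, ∀ᶠ n in Filter.atTop,
      C * (1 + ∑ j, if i < j then h1 (z j n) else 0) < h1 (z i n)) →
    ∀ q : MvPolynomial (Fin k) Qbar, q ≠ 0 →
      ∀ᶠ n in Filter.atTop, MvPolynomial.eval (fun i => z i n) q ≠ 0 := by
  intro k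
  induction k with
  | zero =>
    intro z _ q hq
    refine Filter.Eventually.of_forall fun n h => hq ?_
    apply MvPolynomial.funext
    intro x
    rw [map_zero, ← h]
    congr 2
    exact Subsingleton.elim _ _
  | succ k ih =>
    intro z hz q hq
    set Q := MvPolynomial.finSuccEquiv Qbar k q with hQ
    have hQ0 : Q ≠ 0 := by
      rw [hQ]
      exact (EmbeddingLike.map_ne_zero_iff).mpr hq
    obtain ⟨C, hC0, hC⟩ := h1_root Q
    have h1 := ih (fun i => z i.succ) (by
      intro i K
      filter_upwards [hz i.succ K] with n hn
      rw [Fin.sum_univ_succ] at hn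
      simpa using hn) Q.leadingCoeff (Polynomial.leadingCoeff_ne_zero.mpr hQ0)
    filter_upwards [h1, hz 0 C] with n hn1 hn2 h0
    have hmap : Q.map (MvPolynomial.eval fun i => z i.succ n) ≠ 0 := by
      intro h
      apply hn1
      have := congrArg (fun p => Polynomial.coeff p Q.natDegree) h
      simpa [Polynomial.coeff_map] using this
    have hroot : (Q.map (MvPolynomial.eval fun i => z i.succ n)).eval (z 0 n) = 0 := by
      have h3 := MvPolynomial.eval_eq_eval_mv_eval' (fun i => z i.succ n) (z 0 n) q
      have h4 : (Fin.cons (z 0 n) (fun i => z i.succ n) : Fin (k + 1) → Qbar) =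
          fun i => z i n := by
        funext i
        refine Fin.cases ?_ (fun j => ?_) i <;> simp
      rw [h4, h0] at h3
      exact h3.symm
    have h2 := hC (fun i => z i.succ n) (z 0 n) hmap hroot
    rw [Fin.sum_univ_succ] at hn2
    simp only [lt_self_iff_false, if_false, zero_add, Fin.succ_pos, if_true] at hn2
    exact absurd h2 (not_le.mpr hn2)

/-- exchange for algebraic independence -/
theorem algInd {K A : Type*} [Field K] [Field A] [Algebra K A] {k : ℕ} (z u : Fin k → A)
    (hz : AlgebraicIndependent K z)
    (h : ∀ i, IsAlgebraic (Algebra.adjoin K (Set.range u)) (z i)) :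
    AlgebraicIndependent K u := by
  let M := AlgebraicIndependent.matroid K A
  have hI : M.Indep (Set.range z) := hz.to_subtype_range
  have hsub : Set.range z ⊆ M.closure (Set.range u) := by
    rintro _ ⟨i, rfl⟩
    have : M.closure (Set.range u) =
        Subalgebra.algebraicClosure (Algebra.adjoin K (Set.range u)) A :=
      AlgebraicIndependent.matroid_closure_eq
    rw [this]
    exact h i
  have hcard : (Set.range z).encard = k := by
    rw [← Set.image_univ, hz.injective.encard_image, Set.encard_univ]
    simp
  have h1 : (k : ℕ∞) ≤ M.eRk (Set.range u) := by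
    rw [← M.eRk_closure_eq, ← hcard]
    exact hI.encard_le_eRk_of_subset hsub
  obtain ⟨I, hIu, hIind, hIk⟩ := Matroid.le_eRk_iff.mp h1
  have hle : (Set.range u).encard ≤ k := by
    rw [← Set.image_univ]
    refine (Set.encard_image_le _ _).trans ?_
    rw [Set.encard_univ]
    simp
  have hIeq : I = Set.range u := by
    exact ((Set.finite_range u).subset hIu).eq_of_subset_of_encard_le hIu (by rw [hIk]; exact hle)
  rw [hIeq] at hIind hIk
  have hinj : Function.Injective u := by
    rw [← Set.injOn_univ]
    apply Set.finite_univ.injOn_of_encard_image_eq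
    rw [Set.image_univ, hIk, Set.encard_univ]
    simp
  exact AlgebraicIndependent.of_subtype_range hinj hIind

end Pool.Agent.Helper259.Dens
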