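import Mathlib

set_option autoImplicit false

namespace Pool.Agent.Helper259.EllHt

open WeierstrassCurve WeierstrassCurve.Affine Height

/-- the curve `y ^ 2 = x ^ 3 + 3` -/
def W : WeierstrassCurve ℚ := ⟨0, 0, 0, 0, 3⟩

instance : W.IsElliptic := by
  rw [WeierstrassCurve.isElliptic_iff]
  simp [W, WeierstrassCurve.Δ, WeierstrassCurve.b₂, WeierstrassCurve.b₄, WeierstrassCurve.b₆,
    WeierstrassCurve.b₈]

abbrev Pt : Type := W.toAffine.Point

lemma W_eq {x y : ℚ} (h : W.toAffine.Nonsingular x y) : y ^ 2 = x ^ 3 + 3 := by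
  have := (WeierstrassCurve.Affine.equation_iff x y).mp h.1
  simpa [W] using this

lemma W_nonsing {x y : ℚ} (h : y ^ 2 = x ^ 3 + 3) : W.toAffine.Nonsingular x y := by
  apply (WeierstrassCurve.Affine.equation_iff_nonsingular).mp
  rw [WeierstrassCurve.Affine.equation_iff]
  simpa [W] using h

lemma negY_eq (x y : ℚ) : W.toAffine.negY x y = -y := by
  simp [WeierstrassCurve.Affine.negY, W]

/-- naive height -/
noncomputable def H (P : Pt) : ℝ := logHeight P.xRep

/-- values of `addSubMap` -/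
lemma asm_eval (x : Fin 3 → ℚ) : (fun i => (addSubMap W i).eval x) =
    ![x 0 ^ 2 - 12 * x 1 * x 2, 2 * x 1 * x 0 + 12 * x 2 ^ 2, x 1 ^ 2 - 4 * x 0 * x 2] := by
  funext i
  fin_cases i <;>
    simp [addSubMap, W, WeierstrassCurve.b₂, WeierstrassCurve.b₄, WeierstrassCurve.b₆,
      WeierstrassCurve.b₈]
  all_goals norm_num

lemma add_ne {x y x' y' : ℚ} (h : W.toAffine.Nonsingular x y) (h' : W.toAffine.Nonsingular x' y')
    (hx : x ≠ x') : ∃ (X Y : ℚ) (hn : W.toAffine.Nonsingular X Y),
      Point.some x y h + Point.some x' y' h' = Point.some X Y hn ∧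
      X = ((y - y') / (x - x')) ^ 2 - x - x' ∧
      Y = -(y + (y - y') / (x - x') * (X - x)) := by
  refine ⟨_, _, _, Point.add_of_X_ne hx, ?_, ?_⟩
  · rw [slope_of_X_ne hx]
    simp [WeierstrassCurve.Affine.addX, W]
  · rw [slope_of_X_ne hx]
    simp [WeierstrassCurve.Affine.addY, WeierstrassCurve.Affine.negAddY,
      WeierstrassCurve.Affine.addX, W, WeierstrassCurve.Affine.negY]
    ring

lemma dbl {x y : ℚ} (h : W.toAffine.Nonsingular x y) (hy : y ≠ 0) :
    ∃ (X Y : ℚ) (hn : W.toAffine.Nonsingular X Y),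
      Point.some x y h + Point.some x y h = Point.some X Y hn ∧
      X = (3 * x ^ 2 / (2 * y)) ^ 2 - x - x ∧
      Y = -(y + 3 * x ^ 2 / (2 * y) * (X - x)) := by
  have hy' : y ≠ W.toAffine.negY x y := by
    rw [negY_eq]
    intro h
    apply hy
    linarith
  have hs : W.toAffine.slope x x y y = 3 * x ^ 2 / (2 * y) := by
    rw [slope_of_Y_ne rfl hy', negY_eq]
    simp only [WeierstrassCurve.toAffine, W]
    congr 1 <;> ring
  refine ⟨_, _, _, Point.add_self_of_Y_ne hy', ?_, ?_⟩
  · rw [hs]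
    simp [WeierstrassCurve.Affine.addX, W]
  · rw [hs]
    simp [WeierstrassCurve.Affine.addY, WeierstrassCurve.Affine.negAddY,
      WeierstrassCurve.Affine.addX, W, WeierstrassCurve.Affine.negY]
    ring

lemma neg_pt {x y : ℚ} (h : W.toAffine.Nonsingular x y) :
    ∃ hn : W.toAffine.Nonsingular x (-y), -Point.some x y h = Point.some x (-y) hn := by
  have e : -Point.some x y h = Point.some x (W.toAffine.negY x y)
    ((nonsingular_neg ..).mpr h) := Point.neg_some h
  rw [e]
  simp only [negY_eq]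
  exact ⟨W_nonsing (by rw [neg_sq]; exact W_eq h), trivial⟩

lemma dbl_x {x y : ℚ} (h : W.toAffine.Nonsingular x y) (hy : y ≠ 0) :
    ![x ^ 4 - 24 * x, 4 * y ^ 2, 0] =
      (4 * y ^ 2) • (Point.some x y h + Point.some x y h).sym2x (0 : Pt) := by
  obtain ⟨X, Y, hn, e, hX, -⟩ := dbl h hy
  rw [e, Point.sym2x_some_zero, hX]
  have hW := W_eq h
  funext i
  fin_cases i
  · simp
    field_simp
    linear_combination (32 * x) * hW
  · simp
  · simp

lemma addSub (P Q : Pt) : ∃ t : ℚ, t ≠ 0 ∧
    (fun i => (addSubMap W i).eval (P.sym2x Q)) = t • (P + Q).sym2x (P - Q) := by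
  rw [asm_eval]
  rcases P with _ | ⟨x, y, h⟩
  · rcases Q with _ | ⟨x', y', h'⟩
    · refine ⟨1, one_ne_zero, ?_⟩
      simp [← Point.zero_def]
    · refine ⟨1, one_ne_zero, ?_⟩
      rw [← Point.zero_def, zero_add, zero_sub, Point.sym2x_neg_right, Point.sym2x_zero_some,
        Point.sym2x_some_some]
      funext i
      fin_cases i <;> simp <;> ring
  · rcases Q with _ | ⟨x', y', h'⟩
    · refine ⟨1, one_ne_zero, ?_⟩
      rw [← Point.zero_def, add_zero, sub_zero, Point.sym2x_some_zero,
        Point.sym2x_some_some]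
      funext i
      fin_cases i <;> simp <;> ring
    · have hW := W_eq h
      have hW' := W_eq h'
      by_cases hx : x = x'
      · subst hx
        have hyy : y = y' ∨ y = -y' := by
          rw [← sq_eq_sq_iff_eq_or_eq_neg, hW, hW']
        by_cases hy : y = 0
        · have hy' : y' = 0 := by
            rcases hyy with h1 | h1
            · rw [← h1]; exact hy
            · rw [hy] at h1; linarith
          have hz : ∀ (a b : ℚ) (ha : W.toAffine.Nonsingular x a)
              (hb : W.toAffine.Nonsingular x b), a = 0 → b = 0 →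
              Point.some x a ha + Point.some x b hb = 0 := by
            intro a b ha hb ha0 hb0
            apply Point.add_of_Y_eq rfl
            rw [negY_eq, ha0, hb0, neg_zero]
          obtain ⟨hn, e⟩ := neg_pt h'
          have hx3 : x ^ 3 = -3 := by rw [hy] at hW; linarith
          have hx0 : x ≠ 0 := by rintro rfl; norm_num at hx3
          refine ⟨-27 * x, mul_ne_zero (by norm_num) hx0, ?_⟩
          have hsub : Point.some x y h - Point.some x y' h' =
              Point.some x y h + Point.some x (-y') hn := by rw [sub_eq_add_neg, e]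
          rw [hsub, hz _ _ h h' hy hy', hz _ _ h hn hy (by rw [hy', neg_zero]),
            Point.sym2x_zero_zero, Point.sym2x_some_some]
          funext i
          fin_cases i
          · simp
            linear_combination x * hx3
          · simp
            linear_combination 4 * hx3
          · simp
            ring
        · rcases hyy with h1 | h1
          · subst h1
            refine ⟨4 * y ^ 2, by positivity, ?_⟩
            have hP : Point.some x y h - Point.some x y h' = 0 := sub_self _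
            rw [hP, ← dbl_x h hy, Point.sym2x_some_some]
            funext i
            fin_cases i
            · simp; ring
            · simp; linear_combination -4 * hW
            · simp; ring
          · have hP : Point.some x y h + Point.some x y' h' = 0 := by
              apply Point.add_of_Y_eq rfl
              rw [negY_eq]; exact h1
            have hP2 : Point.some x y h - Point.some x y' h' =
                Point.some x y h + Point.some x y h := by
              rw [sub_eq_add_neg, ← eq_neg_of_add_eq_zero_left hP]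
            refine ⟨4 * y ^ 2, by positivity, ?_⟩
            rw [hP, hP2, Point.sym2x_comm (0 : Pt), ← dbl_x h hy, Point.sym2x_some_some]
            funext i
            fin_cases i
            · simp; ring
            · simp; linear_combination -4 * hW
            · simp; ring
      · obtain ⟨hn, e⟩ := neg_pt h'
        obtain ⟨X1, Y1, hn1, e1, hX1, -⟩ := add_ne h h' hx
        obtain ⟨X2, Y2, hn2, e2, hX2, -⟩ := add_ne h hn hx
        have hx' : x - x' ≠ 0 := sub_ne_zero.mpr hx
        refine ⟨(x - x') ^ 2, pow_ne_zero _ hx', ?_⟩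
        have hsub : Point.some x y h - Point.some x' y' h' =
            Point.some x y h + Point.some x' (-y') hn := by rw [sub_eq_add_neg, e]
        rw [hsub, e1, e2, Point.sym2x_some_some, Point.sym2x_some_some, hX1, hX2]
        set p := (y - y') / (x - x') with hp
        set q := (y - -y') / (x - x') with hq
        have hp' : p * (x - x') = y - y' := by rw [hp]; field_simp
        have hq' : q * (x - x') = y + y' := by rw [hq]; field_simp; ring
        have h1 : (x - x') * p * q = x ^ 2 + x * x' + x' ^ 2 := by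
          apply mul_left_cancel₀ hx'
          linear_combination (q * (x - x')) * hp' + (y - y') * hq' + hW - hW'
        have h2 : (x - x') ^ 2 * (p ^ 2 + q ^ 2) = 2 * (y ^ 2 + y' ^ 2) := by
          linear_combination (p * (x - x') + (y - y')) * hp' + (q * (x - x') + (y + y')) * hq'
        funext i
        fin_cases i
        · simp
          linear_combination (-((x - x') * p * q + (x ^ 2 + x * x' + x' ^ 2))) * h1 +
            (x + x') * h2 + 2 * (x + x') * hW + 2 * (x + x') * hW'
        · simp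
          linear_combination -h2 - 2 * hW - 2 * hW'
        · simp
          ring

/-- the approximate parallelogram law -/
theorem par : ∃ C : ℝ, ∀ P Q : Pt, |H (P + Q) + H (P - Q) - 2 * (H P + H Q)| ≤ C := by
  obtain ⟨C1, h1⟩ := abs_logHeight_addSubMap_sub_two_mul_logHeight_le W
  obtain ⟨C2, h2⟩ := abs_logHeight_sym2_sub_le ℚ
  have key : ∀ P Q : Pt, |logHeight (P.sym2x Q) - (H P + H Q)| ≤ C2 := by
    intro P Q
    have hv : ∀ R : Pt, R.xRep = ![R.xRep 0, R.xRep 1] := by
      intro R; funext i; fin_cases i <;> rfl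
    have := h2 (a := P.xRep 0) (b := P.xRep 1) (c := Q.xRep 0) (d := Q.xRep 1)
      (by rw [← hv]; exact Point.xRep_ne_zero P) (by rw [← hv]; exact Point.xRep_ne_zero Q)
    rw [← hv, ← hv] at this
    exact this
  refine ⟨C1 + 3 * C2, fun P Q => ?_⟩
  obtain ⟨t, ht, e⟩ := addSub P Q
  have h3 := h1 (P.sym2x Q)
  rw [e, logHeight_smul_eq_logHeight _ ht] at h3
  have h4 := key P Q
  have h5 := key (P + Q) (P - Q)
  rw [abs_le] at *
  constructor <;> linarith [h3.1, h3.2, h4.1, h4.2, h5.1, h5.2]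

/-- approximate quadratic sequences -/
theorem quad (a : ℤ → ℝ) (C : ℝ)
    (ha : ∀ m n : ℤ, |a (m + n) + a (m - n) - 2 * (a m + a n)| ≤ C) :
    ∃ α C' : ℝ, ∀ n : ℤ, |a n - α * (n : ℝ) ^ 2| ≤ C' := by
  set C1 : ℝ := C + |a 0| with hC1
  have hC0 : 0 ≤ C := (abs_nonneg _).trans (ha 0 0)
  have hC10 : 0 ≤ C1 := by positivity
  have hdbl : ∀ n : ℤ, |a (2 * n) - 4 * a n| ≤ C1 := by
    intro n
    have h1 := ha n n
    rw [sub_self, ← two_mul] at h1
    have h2 : a (2 * n) - 4 * a n = (a (2 * n) + a 0 - 2 * (a n + a n)) - a 0 := by ring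
    rw [h2]
    exact (abs_sub _ _).trans (by linarith)
  -- the limit
  have hstep : ∀ (n : ℤ) (k : ℕ),
      dist (a (2 ^ k * n) / 4 ^ k) (a (2 ^ (k + 1) * n) / 4 ^ (k + 1)) ≤
        C1 / 4 / 4 ^ k := by
    intro n k
    rw [dist_comm, Real.dist_eq]
    have h1 : (2 : ℤ) ^ (k + 1) * n = 2 * (2 ^ k * n) := by ring
    have h2 := hdbl (2 ^ k * n)
    rw [h1]
    have h3 : a (2 * (2 ^ k * n)) / 4 ^ (k + 1) - a (2 ^ k * n) / 4 ^ k =
        (a (2 * (2 ^ k * n)) - 4 * a (2 ^ k * n)) / 4 ^ (k + 1) := by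
      field_simp
      ring
    rw [h3, abs_div, abs_of_pos (by positivity : (0 : ℝ) < 4 ^ (k + 1)), pow_succ, div_div,
      mul_comm (4 : ℝ) (4 ^ k)]
    exact div_le_div_of_nonneg_right h2 (by positivity)
  have hr : (1 / 4 : ℝ) < 1 := by norm_num
  have hstep' : ∀ (n : ℤ) (k : ℕ),
      dist (a (2 ^ k * n) / 4 ^ k) (a (2 ^ (k + 1) * n) / 4 ^ (k + 1)) ≤
        C1 / 4 * (1 / 4) ^ k := by
    intro n k
    refine (hstep n k).trans (le_of_eq ?_)
    rw [one_div_pow]
    ring
  have hlim : ∀ n : ℤ, ∃ b : ℝ, Filter.Tendsto (fun k : ℕ => a (2 ^ k * n) / 4 ^ k)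
      Filter.atTop (nhds b) := fun n =>
    cauchySeq_tendsto_of_complete (cauchySeq_of_le_geometric _ _ hr (hstep' n))
  choose b hb using hlim
  have hclose : ∀ n, |a n - b n| ≤ C1 / 3 := by
    intro n
    have h1 := dist_le_of_le_geometric_of_tendsto₀ _ _ hr (hstep' n) (hb n)
    simp only [pow_zero, one_mul, div_one] at h1
    rw [Real.dist_eq] at h1
    refine h1.trans (le_of_eq ?_)
    norm_num
    ring
  have hbpar : ∀ m n : ℤ, b (m + n) + b (m - n) = 2 * (b m + b n) := by
    intro m n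
    have h1 : Filter.Tendsto (fun k : ℕ => a (2 ^ k * (m + n)) / 4 ^ k +
        a (2 ^ k * (m - n)) / 4 ^ k - 2 * (a (2 ^ k * m) / 4 ^ k + a (2 ^ k * n) / 4 ^ k))
        Filter.atTop (nhds (b (m + n) + b (m - n) - 2 * (b m + b n))) :=
      ((hb _).add (hb _)).sub (((hb _).add (hb _)).const_mul 2)
    have h2 : Filter.Tendsto (fun k : ℕ => a (2 ^ k * (m + n)) / 4 ^ k +
        a (2 ^ k * (m - n)) / 4 ^ k - 2 * (a (2 ^ k * m) / 4 ^ k + a (2 ^ k * n) / 4 ^ k))
        Filter.atTop (nhds 0) := by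
      have h3 : Filter.Tendsto (fun k : ℕ => C * (1 / 4 : ℝ) ^ k) Filter.atTop (nhds (C * 0)) :=
        (tendsto_pow_atTop_nhds_zero_of_lt_one (by norm_num) hr).const_mul C
      rw [mul_zero] at h3
      refine squeeze_zero_norm (fun k => ?_) h3
      have h4 := ha (2 ^ k * m) (2 ^ k * n)
      rw [← mul_add, ← mul_sub] at h4
      have h5 : a (2 ^ k * (m + n)) / 4 ^ k +
        a (2 ^ k * (m - n)) / 4 ^ k - 2 * (a (2 ^ k * m) / 4 ^ k + a (2 ^ k * n) / 4 ^ k) =
        (a (2 ^ k * (m + n)) + a (2 ^ k * (m - n)) -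
          2 * (a (2 ^ k * m) + a (2 ^ k * n))) / 4 ^ k := by ring
      rw [h5, Real.norm_eq_abs, abs_div, abs_of_pos (by positivity : (0 : ℝ) < 4 ^ k),
        one_div_pow, mul_one_div]
      exact div_le_div_of_nonneg_right h4 (by positivity)
    have := tendsto_nhds_unique h1 h2
    linarith
  have hb0 : b 0 = 0 := by
    have := hbpar 0 0
    simp at this
    linarith
  have hbneg : ∀ n, b (-n) = b n := by
    intro n
    have := hbpar 0 n
    simp [hb0] at this
    linarith
  have hbnat : ∀ n : ℕ, b n = b 1 * (n : ℝ) ^ 2 ∧ b (n + 1) = b 1 * ((n : ℝ) + 1) ^ 2 := by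
    intro n
    induction n with
    | zero => simp [hb0]
    | succ n ih =>
      refine ⟨by push_cast; exact ih.2, ?_⟩
      have h1 := hbpar (n + 1) 1
      rw [add_sub_cancel_right, ih.1, ih.2] at h1
      push_cast
      linarith
  have hball : ∀ n : ℤ, b n = b 1 * (n : ℝ) ^ 2 := by
    intro n
    obtain ⟨m, rfl | rfl⟩ := n.eq_nat_or_neg
    · simpa using (hbnat m).1
    · rw [hbneg]
      simpa using (hbnat m).1
  refine ⟨b 1, C1 / 3, fun n => ?_⟩
  rw [← hball]
  exact hclose n

/-- the denominator bounds the height from below -/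
lemma ht_den (x : ℚ) : Real.log x.den ≤ logHeight ![x, 1] := by
  have hden : (x.den : ℚ) ≠ 0 := by exact_mod_cast x.den_nz
  have e : (x.den : ℚ) • ![x, 1] = (((↑) : ℤ → ℚ) ∘ ![x.num, (x.den : ℤ)]) := by
    funext i
    fin_cases i
    · simp [Rat.den_mul_eq_num]
    · simp
  rw [← logHeight_smul_eq_logHeight _ hden, e, Rat.logHeight_eq_max_abs_of_gcd_eq_one]
  · have h1 : (x.den : ℤ) ≤ ⨆ i, |(![x.num, (x.den : ℤ)] : Fin 2 → ℤ) i| := by
      have := le_ciSup (f := fun i => |(![x.num, (x.den : ℤ)] : Fin 2 → ℤ) i|)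
        (Set.finite_range _).bddAbove 1
      simpa using this
    apply Real.log_le_log
    · exact_mod_cast x.den_pos
    · exact_mod_cast h1
  · have h2 : Finset.univ.gcd ![x.num, (x.den : ℤ)] ∣ 1 := by
      have ha : Finset.univ.gcd ![x.num, (x.den : ℤ)] ∣ x.num := by
        simpa using Finset.gcd_dvd (f := ![x.num, (x.den : ℤ)]) (Finset.mem_univ 0)
      have hb : Finset.univ.gcd ![x.num, (x.den : ℤ)] ∣ (x.den : ℤ) := by
        simpa using Finset.gcd_dvd (f := ![x.num, (x.den : ℤ)]) (Finset.mem_univ 1)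
      have hc : IsCoprime x.num (x.den : ℤ) := by
        rw [Int.isCoprime_iff_gcd_eq_one]
        exact x.reduced
      obtain ⟨a, b, hab⟩ := hc
      rw [← hab]
      exact dvd_add (ha.mul_left _) (hb.mul_left _)
    have h3 := Finset.normalize_gcd (s := Finset.univ) (f := ![x.num, (x.den : ℤ)])
    exact Int.eq_one_of_dvd_one (Int.nonneg_of_normalize_eq_self h3) h2

lemma ht_two (x : ℚ) (u w : ℤ) (m : ℕ) (hu : Odd u) (hw : Odd w) (hx : x = u / (4 ^ m * w)) :
    m * Real.log 4 ≤ logHeight ![x, 1] := by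
  refine le_trans ?_ (ht_den x)
  have hw0 : (w : ℚ) ≠ 0 := by
    intro h
    have : w = 0 := by exact_mod_cast h
    rw [this] at hw
    exact absurd hw (by decide)
  have h1 : (x.num : ℚ) * (4 ^ m * w) = u * x.den := by
    have h2 : x = x.num / x.den := (Rat.num_div_den x).symm
    have hden : (x.den : ℚ) ≠ 0 := by exact_mod_cast x.den_nz
    rw [h2] at hx
    field_simp at hx
    linarith
  have h2 : x.num * (4 ^ m * w) = u * x.den := by exact_mod_cast h1
  have h3 : (4 : ℤ) ^ m ∣ u * x.den := ⟨x.num * w, by rw [← h2]; ring⟩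
  have h4 : IsCoprime ((4 : ℤ) ^ m) u := by
    apply IsCoprime.pow_left
    rw [show (4 : ℤ) = 2 ^ 2 by norm_num]
    apply IsCoprime.pow_left
    obtain ⟨c, rfl⟩ := hu
    exact ⟨-c, 1, by ring⟩
  have h5 : (4 : ℤ) ^ m ∣ x.den := h4.dvd_of_dvd_mul_left h3
  have h6 : (4 : ℤ) ^ m ≤ x.den := Int.le_of_dvd (by exact_mod_cast x.den_pos) h5
  have h7 : (4 : ℝ) ^ m ≤ x.den := by exact_mod_cast h6
  rw [← Real.log_pow]
  exact Real.log_le_log (by positivity) h7

lemma nonsing12 : W.toAffine.Nonsingular 1 2 := W_nonsing (by norm_num)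

/-- the generator -/
noncomputable def Q0 : Pt := Point.some 1 2 nonsing12

lemma two_pow_mul (k : ℕ) : ∃ (x y : ℚ) (h : W.toAffine.Nonsingular x y) (u w : ℤ),
    Odd u ∧ Odd w ∧ (2 ^ (k + 1) : ℤ) • Q0 = Point.some x y h ∧ x = u / (4 ^ (k + 2) * w) := by
  induction k with
  | zero =>
    obtain ⟨X, Y, hn, e, hX, -⟩ := dbl nonsing12 (by norm_num)
    refine ⟨X, Y, hn, -23, 1, by decide, by decide, ?_, ?_⟩
    · rw [show (2 ^ (0 + 1) : ℤ) = 2 by norm_num, two_zsmul]
      exact e
    · rw [hX]; norm_num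
  | succ k ih =>
    obtain ⟨x, y, h, u, w, hu, hw, e, hx⟩ := ih
    have hw0 : (w : ℚ) ≠ 0 := by
      intro h
      have : w = 0 := by exact_mod_cast h
      rw [this] at hw
      exact absurd hw (by decide)
    have hW := W_eq h
    set M : ℤ := 4 ^ (k + 2) with hM
    have hM0 : (M : ℚ) ≠ 0 := by rw [hM]; positivity
    have hMe : Even M := by rw [hM]; exact (Even.pow_of_ne_zero (by decide) (by omega))
    have hx' : x = u / (M * w) := by rw [hx, hM]; push_cast; rfl
    have hodd1 : Odd (u ^ 3 + 3 * M ^ 3 * w ^ 3) := by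
      apply (hu.pow).add_even
      have : Even (M ^ 3) := hMe.pow_of_ne_zero (by norm_num)
      exact (this.mul_left 3).mul_right _
    have hodd2 : Odd (u ^ 3 - 24 * M ^ 3 * w ^ 3) := by
      apply (hu.pow).sub_even
      have : Even (M ^ 3) := hMe.pow_of_ne_zero (by norm_num)
      exact (this.mul_left 24).mul_right _
    have hne : (((u ^ 3 + 3 * M ^ 3 * w ^ 3 : ℤ)) : ℚ) ≠ 0 := by
      intro h0
      have : u ^ 3 + 3 * M ^ 3 * w ^ 3 = 0 := by exact_mod_cast h0
      rw [this] at hodd1
      exact absurd hodd1 (by decide)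
    push_cast at hne
    have hx3 : x ^ 3 + 3 = (u ^ 3 + 3 * M ^ 3 * w ^ 3) / (M * w) ^ 3 := by
      rw [hx']; field_simp
    have hy : y ≠ 0 := by
      rintro rfl
      rw [hx3] at hW
      have h1 : ((u : ℚ) ^ 3 + 3 * M ^ 3 * w ^ 3) / (M * w) ^ 3 ≠ 0 :=
        div_ne_zero hne (pow_ne_zero _ (mul_ne_zero hM0 hw0))
      apply h1
      rw [← hW]; ring
    obtain ⟨X, Y, hn, e2, hX, -⟩ := dbl h hy
    refine ⟨X, Y, hn, u * (u ^ 3 - 24 * M ^ 3 * w ^ 3), w * (u ^ 3 + 3 * M ^ 3 * w ^ 3),
      hu.mul hodd2, hw.mul hodd1, ?_, ?_⟩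
    · rw [show (2 ^ (k + 1 + 1) : ℤ) = 2 ^ (k + 1) + 2 ^ (k + 1) by ring, add_zsmul, e]
      exact e2
    · have h1 : X = (x ^ 4 - 24 * x) / (4 * (x ^ 3 + 3)) := by
        rw [hX, ← hW]
        field_simp
        linear_combination (-32 * x) * hW
      have h2 : (4 : ℚ) ^ (k + 1 + 2) = 4 * M := by rw [hM]; push_cast; ring
      rw [h1, hx3, hx', h2]
      push_cast
      field_simp

/-- heights of the multiples of `Q0` -/
theorem main : ∃ α C : ℝ, 0 < α ∧ ∀ n : ℤ, |H (n • Q0) - α * (n : ℝ) ^ 2| ≤ C := by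
  obtain ⟨C, hC⟩ := par
  obtain ⟨α, C', h⟩ := quad (fun n => H (n • Q0)) C (fun m n => by
    have := hC (m • Q0) (n • Q0)
    rw [← add_zsmul, ← sub_smul] at this
    exact this)
  refine ⟨α, C', ?_, h⟩
  by_contra hα
  push Not at hα
  have h1 : ∀ k : ℕ, (k : ℝ) * Real.log 4 ≤ C' := by
    intro k
    obtain ⟨x, y, hn, u, w, hu, hw, e, hx⟩ := two_pow_mul k
    have h2 := ht_two x u w (k + 2) hu hw hx
    have h3 : H ((2 ^ (k + 1) : ℤ) • Q0) = logHeight ![x, 1] := by
      rw [e]; rfl
    have h4 := h (2 ^ (k + 1))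
    rw [h3] at h4
    have h5 := (abs_le.mp h4).2
    have h6 : α * (((2 ^ (k + 1) : ℤ)) : ℝ) ^ 2 ≤ 0 :=
      mul_nonpos_of_nonpos_of_nonneg hα (by positivity)
    have h7 : 0 < Real.log 4 := Real.log_pos (by norm_num)
    push_cast at h2
    nlinarith
  obtain ⟨k, hk⟩ := exists_nat_gt (C' / Real.log 4)
  have h7 : 0 < Real.log 4 := Real.log_pos (by norm_num)
  rw [div_lt_iff₀ h7] at hk
  exact absurd (h1 k) (not_le.mpr hk)

lemma H_zero : H 0 = 0 := by
  rw [H, Point.xRep_zero]
  have : (![1, 0] : Fin 2 → ℚ) = ((↑) : ℤ → ℚ) ∘ ![1, 0] := by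
    funext i; fin_cases i <;> simp
  rw [this, Rat.logHeight_eq_max_abs_of_gcd_eq_one]
  · have : (⨆ i, |(![1, 0] : Fin 2 → ℤ) i|) = 1 := by
      apply le_antisymm
      · apply ciSup_le
        intro i; fin_cases i <;> simp
      · have := le_ciSup (f := fun i => |(![1, 0] : Fin 2 → ℤ) i|)
          (Set.finite_range _).bddAbove 0
        simpa using this
    rw [this]; simp
  · decide

theorem nontors (n : ℤ) (hn : n • Q0 = 0) : n = 0 := by
  by_contra h0
  obtain ⟨α, C, hα, h⟩ := main
  have h1 : ∀ j : ℕ, α * (j : ℝ) ≤ C := by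
    intro j
    have h2 := h (j * n)
    rw [mul_zsmul, hn, zsmul_zero, H_zero, zero_sub, abs_neg] at h2
    have h3 := (abs_le.mp h2).2
    have h4 : (j : ℝ) ≤ (((j * n : ℤ)) : ℝ) ^ 2 := by
      have h5 : (j : ℤ) ≤ (j * n) ^ 2 := by
        have h6 : 1 ≤ n ^ 2 := by
          have : 0 < n ^ 2 := by positivity
          omega
        have h7 : (0 : ℤ) ≤ j := by positivity
        have h8 : (j : ℤ) ≤ j ^ 2 := by
          rcases Nat.eq_zero_or_pos j with rfl | hj
          · simp
          · have : (1 : ℤ) ≤ j := by exact_mod_cast hj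
            nlinarith
        rw [mul_pow]
        nlinarith
      exact_mod_cast h5
    nlinarith
  obtain ⟨j, hj⟩ := exists_nat_gt (C / α)
  rw [div_lt_iff₀ hα] at hj
  have := h1 j
  linarith

end Pool.Agent.Helper259.EllHt
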