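import Mathlib

set_option autoImplicit false

namespace Pool.Agent.Helper259.Perron

open MvPolynomial

variable {σ : Type*} [Fintype σ] [DecidableEq σ]

/-- the product `X^(c mod d) * H^(c / d)` -/
noncomputable def B {R : Type*} [CommRing R] (d : ℕ) (H : σ → MvPolynomial σ R) (c : σ →₀ ℕ) :
    MvPolynomial σ R :=
  ∏ i, (X i ^ (c i % d) * H i ^ (c i / d))

omit [DecidableEq σ] in
lemma B_homog {R : Type*} [CommRing R] {d : ℕ} {H : σ → MvPolynomial σ R}
    (hH : ∀ i, (H i).IsHomogeneous d) (c : σ →₀ ℕ) : (B d H c).IsHomogeneous c.degree := by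
  have h : ∀ i, (X i ^ (c i % d) * H i ^ (c i / d) : MvPolynomial σ R).IsHomogeneous (c i) := by
    intro i
    have := ((isHomogeneous_X_pow (R := R) i (c i % d)).mul ((hH i).pow (c i / d)))
    rwa [Nat.mod_add_div] at this
  have := IsHomogeneous.prod Finset.univ _ _ (fun i _ => h i)
  rwa [← Finsupp.degree_eq_sum] at this

omit [DecidableEq σ] in
lemma map_B {R S : Type*} [CommRing R] [CommRing S] (φ : R →+* S) (d : ℕ)
    (H : σ → MvPolynomial σ R) (c : σ →₀ ℕ) :
    map φ (B d H c) = B d (fun i => map φ (H i)) c := by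
  simp [B, map_prod, map_mul, map_pow]

omit [DecidableEq σ] in
lemma B_X {R : Type*} [CommRing R] (d : ℕ) (c : σ →₀ ℕ) :
    B d (fun i => (X i ^ d : MvPolynomial σ R)) c = monomial c 1 := by
  rw [B, monomial_eq, C_1, one_mul, Finsupp.prod_fintype _ _ (by simp)]
  refine Finset.prod_congr rfl fun i _ => ?_
  rw [← pow_mul, ← pow_add, Nat.mod_add_div]

/-- the perturbed family spans in every degree -/
lemma span_B {k K : Type*} [Field k] [Field K] (φ : Polynomial k →+* K)
    (hφ : Function.Injective φ) (d m : ℕ) (g : σ → MvPolynomial σ k)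
    (hg : ∀ i, (g i).IsHomogeneous d) (c' : σ →₀ ℕ) (hc' : c'.degree = m) :
    monomial c' (1 : K) ∈ Submodule.span K
      (Set.range fun c : {c : σ →₀ ℕ // c.degree = m} =>
        B d (fun i => X i ^ d + C (φ Polynomial.X) * map (φ.comp Polynomial.C) (g i)) c.1) := by
  classical
  let _ : Fintype {c : σ →₀ ℕ // c.degree = m} := (Finsupp.finite_of_degree_eq m).fintype
  set H : σ → MvPolynomial σ (Polynomial k) :=
    fun i => X i ^ d + C Polynomial.X * map Polynomial.C (g i) with hH
  have hHhom : ∀ i, (H i).IsHomogeneous d := by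
    intro i
    refine (isHomogeneous_X_pow i d).add ?_
    exact ((hg i).map _).C_mul _
  have hH' : (fun i => X i ^ d + C (φ Polynomial.X) * map (φ.comp Polynomial.C) (g i)) =
      fun i => map φ (H i) := by
    funext i
    simp [hH, MvPolynomial.map_map]
  rw [hH']
  set H' : σ → MvPolynomial σ K := fun i => map φ (H i) with hH'd
  have hH'hom : ∀ i, (H' i).IsHomogeneous d := fun i => (hHhom i).map _
  let M : Matrix {c : σ →₀ ℕ // c.degree = m} {c : σ →₀ ℕ // c.degree = m} (Polynomial k) :=
    fun c c'' => coeff c''.1 (B d H c.1)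
  have h0 : (Polynomial.evalRingHom (0 : k)).mapMatrix M = 1 := by
    ext c c''
    have h1 : (Polynomial.evalRingHom (0 : k)).mapMatrix M c c'' =
        coeff c''.1 (map (Polynomial.evalRingHom (0 : k)) (B d H c.1)) := by
      rw [coeff_map]; rfl
    have h2 : (fun i => map (Polynomial.evalRingHom (0 : k)) (H i)) =
        fun i => (X i ^ d : MvPolynomial σ k) := by
      funext i
      simp [hH]
    rw [h1, map_B, h2, B_X, coeff_monomial, Matrix.one_apply]
    simp [Subtype.ext_iff]
  have hdet : M.det ≠ 0 := by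
    intro h
    have h1 := congrArg (Polynomial.evalRingHom (0 : k)) h
    rw [RingHom.map_det, h0, Matrix.det_one, map_zero] at h1
    exact one_ne_zero h1
  have hdet' : (φ.mapMatrix M).det ≠ 0 := by
    rw [← RingHom.map_det]
    intro h
    exact hdet ((map_eq_zero_iff φ hφ).mp h)
  set M' := φ.mapMatrix M with hM'
  have hM'e : ∀ c c'', M' c c'' = coeff c''.1 (B d H' c.1) := by
    intro c c''
    rw [hH'd, ← map_B, coeff_map]; rfl
  have hkey : monomial c' (1 : K) = ∑ c : {c : σ →₀ ℕ // c.degree = m},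
      ((M'.det)⁻¹ * M'.adjugate ⟨c', hc'⟩ c) • B d H' c.1 := by
    ext c''
    rw [coeff_sum]
    simp only [coeff_smul, smul_eq_mul]
    by_cases hc'' : c''.degree = m
    · have h1 := congrFun (congrFun (Matrix.adjugate_mul M') ⟨c', hc'⟩) ⟨c'', hc''⟩
      rw [Matrix.mul_apply] at h1
      simp only [hM'e] at h1
      simp_rw [mul_assoc]
      rw [← Finset.mul_sum, h1, Matrix.smul_apply, Matrix.one_apply, coeff_monomial]
      simp only [Subtype.mk.injEq, smul_eq_mul]
      rw [inv_mul_cancel_left₀ hdet']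
    · have h1 : ∀ c : {c : σ →₀ ℕ // c.degree = m}, coeff c'' (B d H' c.1) = 0 := by
        intro c
        apply (B_homog hH'hom c.1).coeff_eq_zero
        rw [c.2]; exact hc''
      simp only [h1, mul_zero, Finset.sum_const_zero]
      rw [coeff_monomial, if_neg]
      rintro rfl
      exact hc'' hc'
  rw [hkey]
  refine Submodule.sum_mem _ fun c _ => Submodule.smul_mem _ _ (Submodule.subset_span ⟨c, rfl⟩)

/-- index set: exponents less than `d` with sum divisible by `d` -/
abbrev J (σ : Type*) [Fintype σ] (d : ℕ) : Type _ := {a : σ → Fin d // d ∣ ∑ i, (a i : ℕ)}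

lemma card_J (n d : ℕ) : Fintype.card (J (Fin (n + 1)) d) ≤ d ^ n := by
  have h : Function.Injective (fun a : J (Fin (n + 1)) d => fun i : Fin n => a.1 i.succ) := by
    rintro ⟨a, ha⟩ ⟨b, hb⟩ hab
    apply Subtype.ext
    funext i
    have hsucc : ∀ i : Fin n, a i.succ = b i.succ := fun i => congrFun hab i
    refine Fin.cases ?_ hsucc i
    rw [Fin.sum_univ_succ] at ha hb
    have h1 : ∑ i : Fin n, ((a i.succ : Fin d) : ℕ) = ∑ i : Fin n, ((b i.succ : Fin d) : ℕ) :=
      Finset.sum_congr rfl fun i _ => by rw [hsucc]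
    rw [h1] at ha
    apply Fin.ext
    have h2 := (Nat.modEq_zero_iff_dvd.mpr ha).trans (Nat.modEq_zero_iff_dvd.mpr hb).symm
    have h3 := Nat.ModEq.add_right_cancel' _ h2
    exact Nat.ModEq.eq_of_lt_of_lt h3 (a 0).2 (b 0).2
  have := Fintype.card_le_of_injective _ h
  simpa using this

/-- monomials -/
noncomputable def xm {K : Type*} [Field K] {d : ℕ} (a : J σ d) : MvPolynomial σ K :=
  ∏ i, X i ^ (a.1 i : ℕ)

omit [DecidableEq σ] in
lemma xm_homog {K : Type*} [Field K] {d : ℕ} (a : J σ d) :
    (xm a : MvPolynomial σ K).IsHomogeneous (∑ i, (a.1 i : ℕ)) :=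
  IsHomogeneous.prod Finset.univ _ _ fun i _ => isHomogeneous_X_pow i _

/-- combinations of the monomials with coefficients in the algebra generated by `G` -/
def W {K : Type*} [Field K] (d : ℕ) (G : σ → MvPolynomial σ K) : Submodule K (MvPolynomial σ K) where
  carrier := {p | ∃ n : J σ d → MvPolynomial σ K, p = ∑ a, aeval G (n a) * xm a}
  add_mem' := by
    rintro p q ⟨n, rfl⟩ ⟨n', rfl⟩
    refine ⟨fun a => n a + n' a, ?_⟩
    rw [← Finset.sum_add_distrib]
    exact Finset.sum_congr rfl fun a _ => by rw [map_add, add_mul]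
  zero_mem' := ⟨0, by simp⟩
  smul_mem' := by
    rintro c p ⟨n, rfl⟩
    refine ⟨fun a => c • n a, ?_⟩
    rw [Finset.smul_sum]
    exact Finset.sum_congr rfl fun a _ => by rw [map_smul, smul_mul_assoc]

lemma B_mem_W {K : Type*} [Field K] {d : ℕ} (hd : 0 < d) (G : σ → MvPolynomial σ K) (e : K)
    (c : σ →₀ ℕ) (hc : d ∣ c.degree) : B d (fun i => C e * G i) c ∈ W d G := by
  have hdvd : d ∣ ∑ i, ((⟨c i % d, Nat.mod_lt _ hd⟩ : Fin d) : ℕ) := by
    rw [Finsupp.degree_eq_sum] at hc
    have h1 : ∑ i, c i = ∑ i, (c i % d) + d * ∑ i, (c i / d) := by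
      rw [Finset.mul_sum, ← Finset.sum_add_distrib]
      exact Finset.sum_congr rfl fun i _ => (Nat.mod_add_div _ _).symm
    rw [h1] at hc
    exact (Nat.dvd_add_left (dvd_mul_right _ _)).mp hc
  set a : J σ d := ⟨fun i => ⟨c i % d, Nat.mod_lt _ hd⟩, hdvd⟩ with ha
  refine ⟨fun a' => if a' = a then ∏ i, (C e * X i) ^ (c i / d) else 0, ?_⟩
  rw [Finset.sum_eq_single a]
  · beta_reduce
    rw [if_pos rfl, B, Finset.prod_mul_distrib, map_prod, mul_comm]
    congr 1
    refine Finset.prod_congr rfl fun i _ => ?_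
    simp
  · intro b _ hb
    beta_reduce
    rw [if_neg hb]; simp
  · intro h; exact absurd (Finset.mem_univ _) h

omit [Fintype σ] [DecidableEq σ] in
lemma aeval_option {K : Type*} [Field K] (g0 : MvPolynomial σ K)
    (G : σ → MvPolynomial σ K) (q : MvPolynomial (Option σ) K) :
    aeval (fun o => Option.elim o g0 G) q =
      (optionEquivLeft K σ q).eval₂ (aeval G : MvPolynomial σ K →ₐ[K] MvPolynomial σ K).toRingHom
        g0 := by
  induction q using MvPolynomial.induction_on with
  | C a => simp
  | add p q hp hq => rw [map_add, map_add, Polynomial.eval₂_add, hp, hq]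
  | mul_X p i hp =>
    rw [map_mul, map_mul, Polynomial.eval₂_mul, hp]
    congr 1
    cases i <;> simp

omit [Fintype σ] [DecidableEq σ] in
lemma aeval_hc {K τ : Type*} [Field K] {d : ℕ} (hd : 0 < d) (y : τ → MvPolynomial σ K)
    (hy : ∀ i, (y i).IsHomogeneous d) (Q : MvPolynomial τ K) (r : ℕ) :
    aeval y (homogeneousComponent r Q) = homogeneousComponent (d * r) (aeval y Q) := by
  have hhom : ∀ j, (aeval y (homogeneousComponent j Q)).IsHomogeneous (d * j) := fun j =>
    (homogeneousComponent_isHomogeneous j Q).aeval _ hy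
  conv_rhs => rw [← sum_homogeneousComponent Q, map_sum, map_sum]
  have h1 : ∀ j ∈ Finset.range (Q.totalDegree + 1),
      homogeneousComponent (d * r) (aeval y (homogeneousComponent j Q)) =
        if j = r then aeval y (homogeneousComponent r Q) else 0 := by
    intro j _
    rw [homogeneousComponent_of_mem (hhom j)]
    by_cases hj : j = r
    · subst hj; simp
    · rw [if_neg hj, if_neg]
      intro h
      exact hj (Nat.eq_of_mul_eq_mul_left hd h).symm
  rw [Finset.sum_congr rfl h1, Finset.sum_ite_eq']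
  split_ifs with h
  · rfl
  · rw [homogeneousComponent_eq_zero, map_zero]
    simpa using h

/-- relation for the perturbed forms -/
lemma relation_K {k K : Type*} [Field k] [Field K] (φ : Polynomial k →+* K)
    (hφ : Function.Injective φ) {d : ℕ} (hd : 0 < d) (g0 : MvPolynomial σ K)
    (hg0 : g0.IsHomogeneous d) (g : σ → MvPolynomial σ k)
    (hg : ∀ i, (g i).IsHomogeneous d) (G : σ → MvPolynomial σ K) (δ : K)
    (hGhom : ∀ i, (G i).IsHomogeneous d)
    (hG : ∀ i, X i ^ d + C (φ Polynomial.X) * map (φ.comp Polynomial.C) (g i) = C δ * G i) :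
    ∃ Q : MvPolynomial (Option σ) K, Q.IsHomogeneous (Fintype.card (J σ d)) ∧ Q ≠ 0 ∧
      aeval (fun o => Option.elim o g0 G) Q = 0 := by
  have hW : ∀ m, d ∣ m → ∀ p : MvPolynomial σ K, p.IsHomogeneous m → p ∈ W d G := by
    intro m hm p hp
    rw [p.as_sum]
    refine Submodule.sum_mem _ fun c hc => ?_
    have h1 : monomial c (coeff c p) = coeff c p • monomial c (1 : K) := by
      rw [smul_monomial, smul_eq_mul, mul_one]
    rw [h1]
    apply Submodule.smul_mem
    have hcm : c.degree = m := by
      by_contra h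
      exact (mem_support_iff.mp hc) (hp.coeff_eq_zero h)
    have h2 := span_B φ hφ d m g hg c hcm
    refine (Submodule.span_le.mpr ?_) h2
    rintro _ ⟨c', rfl⟩
    have h3 : (fun i => X i ^ d + C (φ Polynomial.X) * map (φ.comp Polynomial.C) (g i)) =
        fun i => C δ * G i := funext hG
    rw [SetLike.mem_coe]
    simp only [h3]
    apply B_mem_W hd
    rw [c'.2]; exact hm
  have hmul : ∀ a : J σ d, ∃ n : J σ d → MvPolynomial σ K,
      g0 * xm a = ∑ a', aeval G (n a') * xm a' := by
    intro a
    exact hW (d + ∑ i, (a.1 i : ℕ)) (dvd_add dvd_rfl a.2) _ (hg0.mul (xm_homog a))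
  choose n hn using hmul
  let N : Matrix (J σ d) (J σ d) (MvPolynomial σ K) := Matrix.of n
  let ψ : MvPolynomial σ K →+* MvPolynomial σ K :=
    (aeval G : MvPolynomial σ K →ₐ[K] MvPolynomial σ K).toRingHom
  have hdet : (Matrix.scalar (J σ d) g0 - ψ.mapMatrix N).det = 0 := by
    rw [← Matrix.exists_mulVec_eq_zero_iff]
    refine ⟨xm, ?_, ?_⟩
    · intro h
      have h0 := congrFun h ⟨fun _ => ⟨0, hd⟩, by simp⟩
      simp [xm] at h0
    · funext a
      rw [Matrix.sub_mulVec]
      simp only [Pi.sub_apply, Pi.zero_apply]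
      rw [sub_eq_zero]
      have h1 : (Matrix.scalar (J σ d) g0).mulVec (xm : J σ d → MvPolynomial σ K) a =
          g0 * xm a := by
        rw [Matrix.scalar_apply, Matrix.mulVec_diagonal]
      rw [h1, hn a]
      rfl
  set P := N.charpoly with hP
  set Q := (optionEquivLeft K σ).symm P with hQ
  have hQP : optionEquivLeft K σ Q = P := by rw [hQ, AlgEquiv.apply_symm_apply]
  have hQ0 : aeval (fun o => Option.elim o g0 G) Q = 0 := by
    rw [aeval_option, hQP, Polynomial.eval₂_eq_eval_map, hP, ← Matrix.charpoly_map,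
      Matrix.eval_charpoly]
    exact hdet
  set r := Fintype.card (J σ d) with hr
  refine ⟨homogeneousComponent r Q, homogeneousComponent_isHomogeneous _ _, ?_, ?_⟩
  · intro h
    have h1 := congrArg (coeff (Finsupp.single none r)) h
    rw [coeff_homogeneousComponent, Finsupp.degree_single, if_pos rfl, coeff_zero,
      ← optionEquivLeft_coeff_some_coeff_none, hQP] at h1
    have h2 : (Finsupp.single none r : Option σ →₀ ℕ).some = 0 := by
      ext i; simp
    have h3 : P.coeff r = 1 := by
      have h4 : P.Monic := Matrix.charpoly_monic N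
      have h5 : P.natDegree = r := Matrix.charpoly_natDegree_eq_dim N
      rw [← h5]; exact h4
    rw [h2, Finsupp.single_eq_same, h3, coeff_zero_one] at h1
    exact one_ne_zero h1
  · rw [aeval_hc hd _ _ _ _, hQ0, map_zero]
    rintro (_ | i)
    · exact hg0
    · exact hGhom i

/-- clearing denominators -/
lemma clear_denom {R K τ : Type*} [CommRing R] [IsDomain R] [Field K] [Algebra R K]
    [IsFractionRing R K] (Q : MvPolynomial τ K) (hQ : Q ≠ 0) {r : ℕ} (hr : Q.IsHomogeneous r) :
    ∃ (Q' : MvPolynomial τ R) (b : R), b ≠ 0 ∧ Q' ≠ 0 ∧ Q'.IsHomogeneous r ∧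
      map (algebraMap R K) Q' = C (algebraMap R K b) * Q := by
  classical
  obtain ⟨⟨b, hb⟩, hint⟩ := IsLocalization.exist_integer_multiples_of_finset (nonZeroDivisors R)
    (Q.support.image fun c => coeff c Q)
  have hb0 : b ≠ 0 := nonZeroDivisors.ne_zero hb
  have hinj : Function.Injective (algebraMap R K) := IsFractionRing.injective R K
  have h1 : ∀ c, ∃ a : R, algebraMap R K a = algebraMap R K b * coeff c Q := by
    intro c
    by_cases hc : c ∈ Q.support
    · obtain ⟨a, ha⟩ := hint (coeff c Q) (Finset.mem_image_of_mem _ hc)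
      refine ⟨a, ?_⟩
      rw [ha]
      simp [Algebra.smul_def]
    · refine ⟨0, ?_⟩
      rw [notMem_support_iff.mp hc]; simp
  choose a ha using h1
  have hmap : map (algebraMap R K) (∑ c ∈ Q.support, monomial c (a c)) =
      C (algebraMap R K b) * Q := by
    rw [map_sum]
    conv_rhs => rw [Q.as_sum]
    rw [Finset.mul_sum]
    refine Finset.sum_congr rfl fun c _ => ?_
    rw [map_monomial, C_mul_monomial, ha]
  have hne : C (algebraMap R K b) * Q ≠ 0 := by
    apply mul_ne_zero _ hQ
    rw [Ne, C_eq_zero, map_eq_zero_iff _ hinj]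
    exact hb0
  refine ⟨∑ c ∈ Q.support, monomial c (a c), b, hb0, ?_, ?_, hmap⟩
  · intro h
    rw [h, map_zero] at hmap
    exact hne hmap.symm
  · apply IsHomogeneous.of_map hinj
    rw [hmap]
    exact hr.C_mul _

omit [Fintype σ] [DecidableEq σ] in
lemma map_aeval {R S τ : Type*} [CommRing R] [CommRing S] (f : R →+* S)
    (y : τ → MvPolynomial σ R) (Q : MvPolynomial τ R) :
    map f (aeval y Q) = aeval (fun i => map f (y i)) (map f Q) := by
  induction Q using MvPolynomial.induction_on with
  | C a => simp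
  | add p q hp hq => simp only [map_add, hp, hq]
  | mul_X p i hp => simp only [map_mul, hp, aeval_X, map_X]

omit [Fintype σ] [DecidableEq σ] in
/-- specialisation of a relation -/
lemma specialise {k τ : Type*} [Field k] (y : τ → MvPolynomial σ (Polynomial k))
    (Q : MvPolynomial τ (Polynomial k)) (hQ : Q ≠ 0) {r : ℕ} (hr : Q.IsHomogeneous r)
    (h0 : aeval y Q = 0) :
    ∃ Q' : MvPolynomial τ k, Q' ≠ 0 ∧ Q'.IsHomogeneous r ∧
      aeval (fun i => map (Polynomial.evalRingHom 0) (y i)) Q' = 0 := by
  classical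
  obtain ⟨c0, hc0, hmin⟩ := Finset.exists_min_image Q.support
    (fun c => (coeff c Q).natTrailingDegree) (support_nonempty.mpr hQ)
  set s := (coeff c0 Q).natTrailingDegree with hs
  have h1 : C (Polynomial.X ^ s) ∣ Q := by
    rw [C_dvd_iff_dvd_coeff]
    intro c
    by_cases hc : c ∈ Q.support
    · rw [Polynomial.X_pow_dvd_iff]
      intro j hj
      exact Polynomial.coeff_eq_zero_of_lt_natTrailingDegree (hj.trans_le (hmin c hc))
    · rw [notMem_support_iff.mp hc]; exact dvd_zero _
  obtain ⟨Q2, hQ2⟩ := h1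
  have hcoeff : ∀ c, coeff c Q = Polynomial.X ^ s * coeff c Q2 := by
    intro c; rw [hQ2, coeff_C_mul]
  have hX : (Polynomial.X ^ s : Polynomial k) ≠ 0 := pow_ne_zero _ Polynomial.X_ne_zero
  refine ⟨map (Polynomial.evalRingHom 0) Q2, ?_, ?_, ?_⟩
  · intro h
    have h2 := congrArg (coeff c0) h
    rw [coeff_map, coeff_zero, Polynomial.coe_evalRingHom,
      ← Polynomial.coeff_zero_eq_eval_zero] at h2
    have h3 : (coeff c0 Q).coeff s ≠ 0 := by
      have := Polynomial.trailingCoeff_nonzero_iff_nonzero.mpr (mem_support_iff.mp hc0)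
      exact this
    rw [hcoeff c0] at h3
    have h4 := Polynomial.coeff_X_pow_mul (coeff c0 Q2) s 0
    rw [zero_add] at h4
    rw [h4] at h3
    exact h3 h2
  · apply IsHomogeneous.map
    intro c hc
    apply hr
    rw [hcoeff]
    exact mul_ne_zero hX hc
  · rw [← map_aeval]
    have h2 : aeval y Q2 = 0 := by
      rw [hQ2, map_mul, aeval_C] at h0
      rcases mul_eq_zero.mp h0 with h3 | h3
      · exfalso
        rw [algebraMap_eq, C_eq_zero] at h3
        exact hX h3
      · exact h3
    rw [h2, map_zero]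

/-- **Homogeneous Perron theorem**: `card σ + 1` forms of degree `d` in the variables `σ`
satisfy a nonzero homogeneous relation whose degree is the cardinality of `J σ d`. -/
theorem relation {k : Type*} [Field k] {d : ℕ} (hd : 0 < d) (g0 : MvPolynomial σ k)
    (hg0 : g0.IsHomogeneous d) (g : σ → MvPolynomial σ k) (hg : ∀ i, (g i).IsHomogeneous d) :
    ∃ Q : MvPolynomial (Option σ) k, Q ≠ 0 ∧ Q.IsHomogeneous (Fintype.card (J σ d)) ∧
      aeval (fun o => Option.elim o g0 g) Q = 0 := by
  set K := FractionRing (Polynomial k) with hK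
  set δ : K := algebraMap (Polynomial k) K Polynomial.X with hδ
  have hinj : Function.Injective (algebraMap (Polynomial k) K) := IsFractionRing.injective _ _
  have hδ0 : δ ≠ 0 := by
    rw [hδ, Ne, map_eq_zero_iff _ hinj]; exact Polynomial.X_ne_zero
  have hδtr : Transcendental k δ := by
    rw [transcendental_iff_injective]
    have : ⇑(Polynomial.aeval δ : Polynomial k →ₐ[k] K) = algebraMap (Polynomial k) K := by
      funext p
      have h1 : (Polynomial.aeval δ : Polynomial k →ₐ[k] K) =
          IsScalarTower.toAlgHom k (Polynomial k) K := by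
        ext; simp [hδ]
      rw [h1]; rfl
    rw [this]; exact hinj
  have hδitr : Transcendental k δ⁻¹ := by
    intro h
    apply hδtr
    have := h.inv
    rwa [inv_inv] at this
  let φ : Polynomial k →+* K := (Polynomial.aeval δ⁻¹ : Polynomial k →ₐ[k] K).toRingHom
  have hφ : Function.Injective φ := transcendental_iff_injective.mp hδitr
  have hφX : φ Polynomial.X = δ⁻¹ := Polynomial.aeval_X _
  have hφC : φ.comp Polynomial.C = (algebraMap (Polynomial k) K).comp Polynomial.C := by
    ext a
    simp [φ, IsScalarTower.algebraMap_apply k (Polynomial k) K]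
  have hG : ∀ i, (C δ * X i ^ d + map (φ.comp Polynomial.C) (g i)).IsHomogeneous d := by
    intro i
    exact ((isHomogeneous_X_pow i d).C_mul _).add ((hg i).map _)
  obtain ⟨Q, hQhom, hQ0, hQ⟩ := relation_K φ hφ hd (map (φ.comp Polynomial.C) g0) (hg0.map _) g hg
    (fun i => C δ * X i ^ d + map (φ.comp Polynomial.C) (g i)) δ⁻¹ hG (by
      intro i
      rw [hφX, mul_add, ← mul_assoc, ← C_mul, inv_mul_cancel₀ hδ0, C_1, one_mul])
  obtain ⟨Q1, b, hb, hQ1, hQ1hom, hmap⟩ := clear_denom (R := Polynomial k) Q hQ0 hQhom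
  let y : Option σ → MvPolynomial σ (Polynomial k) := fun o =>
    Option.elim o (map Polynomial.C g0) (fun i => C Polynomial.X * X i ^ d + map Polynomial.C (g i))
  have hy : (fun o => map (algebraMap (Polynomial k) K) (y o)) =
      fun o => Option.elim o (map (φ.comp Polynomial.C) g0)
        (fun i => C δ * X i ^ d + map (φ.comp Polynomial.C) (g i)) := by
    funext o
    rcases o with (_ | i)
    · simp only [y, Option.elim_none, map_map, hφC]
    · simp only [y, Option.elim_some, map_add, map_mul, map_C, map_pow, map_X, map_map, hφC, hδ]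
  have h1 : aeval y Q1 = 0 := by
    apply map_injective _ hinj
    rw [map_aeval, hmap, hy, map_mul, hQ, mul_zero, map_zero]
  obtain ⟨Q', hQ', hQ'hom, h2⟩ := specialise y Q1 hQ1 hQ1hom h1
  have hid : (Polynomial.evalRingHom (0 : k)).comp Polynomial.C = RingHom.id k := by
    ext; simp
  refine ⟨Q', hQ', hQ'hom, ?_⟩
  rw [← h2]
  congr 2
  funext o
  rcases o with (_ | i)
  · simp only [y, Option.elim_none, map_map]
    rw [hid, MvPolynomial.map_id]
  · simp only [y, Option.elim_some, map_add, map_mul, map_C, map_map]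
    rw [hid, MvPolynomial.map_id]
    simp

theorem relation_fin {k : Type*} [Field k] {d : ℕ} (hd : 0 < d) (n : ℕ)
    (g : Fin (n + 2) → MvPolynomial (Fin (n + 1)) k) (hg : ∀ i, (g i).IsHomogeneous d) :
    ∃ (r : ℕ) (Q : MvPolynomial (Fin (n + 2)) k), r ≤ d ^ n ∧ Q ≠ 0 ∧ Q.IsHomogeneous r ∧
      aeval g Q = 0 := by
  obtain ⟨Q, hQ0, hQhom, hQ⟩ := relation hd (g 0) (hg 0) (fun i : Fin (n + 1) => g i.succ)
    (fun i => hg _)
  let e : Option (Fin (n + 1)) → Fin (n + 2) := fun o => o.elim 0 Fin.succ
  have he : Function.Injective e := by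
    rintro (_ | i) (_ | j) h
    · rfl
    · exact absurd h.symm (Fin.succ_ne_zero j)
    · exact absurd h (Fin.succ_ne_zero i)
    · exact congrArg some (Fin.succ_injective _ h)
  refine ⟨_, rename e Q, card_J n d, ?_, hQhom.rename_isHomogeneous, ?_⟩
  · intro h
    exact hQ0 (rename_injective e he (by rw [h, map_zero]))
  · rw [aeval_rename, ← hQ]
    congr 2
    funext o
    rcases o with (_ | i) <;> rfl

end Pool.Agent.Helper259.Perron
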