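import Mathlib
import Pool.Agent.Helper259.HtDef
import Pool.Agent.Helper259.HtPoly
import Pool.Agent.Helper259.AbsHt
import Pool.Agent.Helper259.Perron

set_option autoImplicit false

namespace Pool.Agent.Helper259.HtLower

open Pool.Agent.Helper259.AbsHt Pool.Agent.Helper259.HtPoly MvPolynomial

/-- the coordinates on the generic hyperplane -/
noncomputable def th (n : ℕ) : Fin (n + 2) → MvPolynomial (Fin (n + 1)) (Polynomial Qbar) :=
  Fin.cons (-∑ j : Fin (n + 1), C (Polynomial.X ^ ((j : ℕ) + 1)) * X j) X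

lemma th_homog (n : ℕ) (i : Fin (n + 2)) : (th n i).IsHomogeneous 1 := by
  refine Fin.cases ?_ (fun j => ?_) i
  · rw [th, Fin.cons_zero]
    exact (IsHomogeneous.sum _ _ _ fun j _ => (isHomogeneous_X _ j).C_mul _).neg
  · rw [th, Fin.cons_succ]
    exact isHomogeneous_X _ j

/-- restriction of a form to the generic hyperplane -/
noncomputable def res (n : ℕ) (f : MvPolynomial (Fin (n + 2)) Qbar) :
    MvPolynomial (Fin (n + 1)) (Polynomial Qbar) :=
  eval₂ (C.comp Polynomial.C) (th n) f

lemma res_homog (n : ℕ) {d : ℕ} (f : MvPolynomial (Fin (n + 2)) Qbar) (hf : f.IsHomogeneous d) :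
    (res n f).IsHomogeneous d := by
  have := hf.eval₂ (C.comp Polynomial.C) (th n) (n := 1) (fun r => isHomogeneous_C _ _)
    (th_homog n)
  rwa [one_mul] at this

lemma exists_rel (n : ℕ) {d : ℕ} (hd : 0 < d) (f : Fin (n + 2) → MvPolynomial (Fin (n + 2)) Qbar)
    (hf : ∀ i, (f i).IsHomogeneous d) :
    ∃ (r : ℕ) (Q : MvPolynomial (Fin (n + 2)) (Polynomial Qbar)), r ≤ d ^ n ∧ Q ≠ 0 ∧
      Q.IsHomogeneous r ∧ aeval (fun i => res n (f i)) Q = 0 := by
  set L := FractionRing (Polynomial Qbar) with hL
  have hinj : Function.Injective (algebraMap (Polynomial Qbar) L) := IsFractionRing.injective _ _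
  obtain ⟨r, Q, hr, hQ0, hQhom, hQ⟩ := Perron.relation_fin hd n
    (fun i => map (algebraMap (Polynomial Qbar) L) (res n (f i)))
    (fun i => (res_homog n (f i) (hf i)).map _)
  obtain ⟨Q', b, hb, hQ', hQ'hom, hmap⟩ := Perron.clear_denom (R := Polynomial Qbar) Q hQ0 hQhom
  refine ⟨r, Q', hr, hQ', hQ'hom, ?_⟩
  apply map_injective _ hinj
  rw [Perron.map_aeval, hmap, map_mul, hQ, mul_zero, map_zero]

/-- the linear form with coefficients `x` -/
noncomputable def lf (n : ℕ) (x : Fin (n + 2) → Qbar) : Polynomial Qbar :=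
  ∑ i, Polynomial.C (x i) * Polynomial.X ^ (i : ℕ)

lemma lf_coeff (n : ℕ) (x : Fin (n + 2) → Qbar) (i : Fin (n + 2)) : (lf n x).coeff i = x i := by
  rw [lf, Polynomial.finsetSum_coeff, Finset.sum_eq_single i]
  · simp
  · intro j _ hj
    rw [Polynomial.coeff_C_mul_X_pow, if_neg]
    intro h
    exact hj (Fin.ext h.symm)
  · intro h; exact absurd (Finset.mem_univ _) h

/-- value of the relation at `f x` -/
noncomputable def Wx {n : ℕ} (f : Fin (n + 2) → MvPolynomial (Fin (n + 2)) Qbar)
    (Q : MvPolynomial (Fin (n + 2)) (Polynomial Qbar)) (x : Fin (n + 2) → Qbar) :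
    Polynomial Qbar :=
  eval (fun i => Polynomial.C (eval x (f i))) Q

lemma dvd_Wx (n : ℕ) (f : Fin (n + 2) → MvPolynomial (Fin (n + 2)) Qbar)
    (Q : MvPolynomial (Fin (n + 2)) (Polynomial Qbar))
    (hQ : aeval (fun i => res n (f i)) Q = 0) (x : Fin (n + 2) → Qbar) : lf n x ∣ Wx f Q x := by
  set I := Ideal.span {lf n x} with hI
  let π : Polynomial Qbar →+* (Polynomial Qbar ⧸ I) := Ideal.Quotient.mk I
  rw [← Ideal.mem_span_singleton, ← hI, ← Ideal.Quotient.eq_zero_iff_mem]
  -- the coordinates on the hyperplane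
  let x' : Fin (n + 1) → Polynomial Qbar := fun j => Polynomial.C (x j.succ)
  let ax : Fin (n + 2) → Polynomial Qbar := fun i => eval x' (th n i)
  have hax : ∀ i, π (Polynomial.C (x i)) = π (ax i) := by
    intro i
    refine Fin.cases ?_ (fun j => ?_) i
    · rw [Ideal.Quotient.eq, Ideal.mem_span_singleton]
      have h0 : ax 0 = -∑ j : Fin (n + 1), Polynomial.X ^ ((j : ℕ) + 1) *
          Polynomial.C (x j.succ) := by
        simp [ax, x', th]
      have : Polynomial.C (x 0) - ax 0 = lf n x := by
        rw [h0, lf, Fin.sum_univ_succ (n := n + 1), sub_neg_eq_add]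
        congr 1
        · simp
        · exact Finset.sum_congr rfl fun j _ => mul_comm _ _
      rw [this]
    · simp [ax, x', th]
  have h1 : ∀ i, π (Polynomial.C (eval x (f i))) = π (eval x' (res n (f i))) := by
    intro i
    have e1 : π (Polynomial.C (eval x (f i))) =
        eval₂ (π.comp Polynomial.C) (fun i => π (Polynomial.C (x i))) (f i) := by
      have := eval₂_comp_left (π.comp Polynomial.C) (RingHom.id Qbar) x (f i)
      exact this
    have e2 : π (eval x' (res n (f i))) =
        eval₂ (π.comp Polynomial.C) (fun i => π (ax i)) (f i) := by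
      have h2 := eval₂_comp_left (π.comp (eval x')) (C.comp Polynomial.C) (th n) (f i)
      have h3 : (π.comp (eval x')).comp (C.comp Polynomial.C) = π.comp Polynomial.C := by
        ext a; simp
      rw [h3] at h2
      exact h2
    rw [e1, e2]
    congr 1
    funext i
    exact hax i
  have h2 : π (Wx f Q x) = π (eval x' (aeval (fun i => res n (f i)) Q)) := by
    have e1 : π (Wx f Q x) = eval₂ π (fun i => π (Polynomial.C (eval x (f i)))) Q := by
      have := eval₂_comp_left π (RingHom.id _) (fun i => Polynomial.C (eval x (f i))) Q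
      exact this
    have e2 : π (eval x' (aeval (fun i => res n (f i)) Q)) =
        eval₂ π (fun i => π (eval x' (res n (f i)))) Q := by
      have h2 := eval₂_comp_left (π.comp (eval x')) (algebraMap _ _) (fun i => res n (f i)) Q
      have h3 : (π.comp (eval x')).comp
          (algebraMap (Polynomial Qbar) (MvPolynomial (Fin (n + 1)) (Polynomial Qbar))) = π := by
        ext a <;> simp [algebraMap_eq]
      rw [h3] at h2
      exact h2
    rw [e1, e2]
    congr 1
    funext i
    exact h1 i
  show π (Wx f Q x) = 0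
  rw [h2, hQ, map_zero, map_zero]

/-- coefficient polynomials -/
noncomputable def ck {n : ℕ} (Q : MvPolynomial (Fin (n + 2)) (Polynomial Qbar)) (k : ℕ) :
    MvPolynomial (Fin (n + 2)) Qbar :=
  ∑ e ∈ Q.support, monomial e ((coeff e Q).coeff k)

lemma coeff_ck {n : ℕ} (Q : MvPolynomial (Fin (n + 2)) (Polynomial Qbar)) (k : ℕ)
    (e : Fin (n + 2) →₀ ℕ) : coeff e (ck Q k) = (coeff e Q).coeff k := by
  classical
  rw [ck, coeff_sum]
  simp only [coeff_monomial]
  rw [Finset.sum_ite_eq']
  split_ifs with h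
  · rfl
  · rw [notMem_support_iff.mp h, Polynomial.coeff_zero]

lemma ck_homog {n r : ℕ} (Q : MvPolynomial (Fin (n + 2)) (Polynomial Qbar))
    (hQ : Q.IsHomogeneous r) (k : ℕ) : (ck Q k).IsHomogeneous r := by
  intro e he
  apply hQ
  intro h
  apply he
  rw [coeff_ck, h, Polynomial.coeff_zero]

lemma Wx_coeff {n : ℕ} (f : Fin (n + 2) → MvPolynomial (Fin (n + 2)) Qbar)
    (Q : MvPolynomial (Fin (n + 2)) (Polynomial Qbar)) (x : Fin (n + 2) → Qbar) (k : ℕ) :
    (Wx f Q x).coeff k = eval (fun i => eval x (f i)) (ck Q k) := by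
  rw [Wx, eval_eq', Polynomial.finsetSum_coeff, ck, map_sum]
  refine Finset.sum_congr rfl fun e _ => ?_
  have : (∏ i, (Polynomial.C (eval x (f i)) : Polynomial Qbar) ^ e i) =
      Polynomial.C (∏ i, (eval x (f i)) ^ e i) := by
    rw [map_prod]
    exact Finset.prod_congr rfl fun i _ => (map_pow _ _ _).symm
  rw [this, Polynomial.coeff_mul_C, eval_monomial, Finsupp.prod_fintype _ _ (by simp)]

/-- **Lower bound for heights of images.** -/
theorem lower (n : ℕ) {d : ℕ} (hd : 0 < d) (f : Fin (n + 2) → MvPolynomial (Fin (n + 2)) Qbar)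
    (hf : ∀ i, (f i).IsHomogeneous d) :
    ∃ (r : ℕ) (c : MvPolynomial (Fin (n + 2)) Qbar), c ≠ 0 ∧ c.IsHomogeneous r ∧
      ∃ C : ℝ, ∀ x : Fin (n + 2) → Qbar, eval (fun i => eval x (f i)) c ≠ 0 →
        absLogHeight x ≤ C + (d : ℝ) ^ n * absLogHeight (fun i => eval x (f i)) := by
  classical
  obtain ⟨r, Q, hr, hQ0, hQhom, hQ⟩ := exists_rel n hd f hf
  obtain ⟨e, he⟩ := support_nonempty.mpr hQ0
  have he' := mem_support_iff.mp he
  set k := (coeff e Q).natDegree with hk
  set M := max (n + 1) (Q.support.sup fun e => (coeff e Q).natDegree) with hM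
  obtain ⟨C1, hC1⟩ := absLogHeight_eval r (fun k : Fin (M + 1) => ck Q k)
    (fun k => ck_homog Q hQhom k)
  refine ⟨r, ck Q k, ?_, ck_homog Q hQhom k, Real.log (2 ^ M * (M + 1)) + C1, fun x hx => ?_⟩
  · intro h
    have := congrArg (coeff e) h
    rw [coeff_ck, coeff_zero, hk, Polynomial.coeff_natDegree,
      Polynomial.leadingCoeff_eq_zero] at this
    exact he' this
  · have hW0 : Wx f Q x ≠ 0 := by
      intro h
      apply hx
      rw [← Wx_coeff, h, Polynomial.coeff_zero]
    obtain ⟨q, hq⟩ := dvd_Wx n f Q hQ x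
    have hl0 : lf n x ≠ 0 := by rintro h; rw [h, zero_mul] at hq; exact hW0 hq
    have hq0 : q ≠ 0 := by rintro h; rw [h, mul_zero] at hq; exact hW0 hq
    have hdeg : (Wx f Q x).natDegree ≤ M := by
      rw [Polynomial.natDegree_le_iff_coeff_eq_zero]
      intro j hj
      rw [Wx_coeff]
      have : ck Q j = 0 := by
        ext e
        rw [coeff_ck, coeff_zero]
        by_cases h : e ∈ Q.support
        · apply Polynomial.coeff_eq_zero_of_natDegree_lt
          have h1 := Finset.le_sup (f := fun e => (coeff e Q).natDegree) h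
          exact (h1.trans (le_max_right _ _)).trans_lt hj
        · rw [notMem_support_iff.mp h, Polynomial.coeff_zero]
      rw [this, map_zero]
    have hdeg2 : (lf n x).natDegree + q.natDegree ≤ M := by
      rw [← Polynomial.natDegree_mul hl0 hq0, ← hq]; exact hdeg
    have h1 := absLogHeight_polymul M (lf n x) q hl0 hq0 hdeg2
    rw [← hq] at h1
    have h2 := absLogHeight_nonneg (cv M q)
    have hle : n + 2 ≤ M + 1 := by
      have := le_max_left (n + 1) (Q.support.sup fun e => (coeff e Q).natDegree)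
      omega
    have h3 := absLogHeight_comp_le (Fin.castLE hle) (cv M (lf n x))
    have e3 : cv M (lf n x) ∘ Fin.castLE hle = x := by
      funext i
      exact lf_coeff n x i
    rw [e3] at h3
    have h4 := hC1 (fun i => eval x (f i))
    have e4 : cv M (Wx f Q x) = fun j : Fin (M + 1) => eval (fun i => eval x (f i)) (ck Q j) := by
      funext j
      exact Wx_coeff f Q x j
    rw [← e4] at h4
    have h5 : (r : ℝ) * absLogHeight (fun i => eval x (f i)) ≤
        (d : ℝ) ^ n * absLogHeight (fun i => eval x (f i)) := by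
      apply mul_le_mul_of_nonneg_right _ (absLogHeight_nonneg _)
      exact_mod_cast hr
    linarith

end Pool.Agent.Helper259.HtLower
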