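import Mathlib

set_option autoImplicit false

namespace Pool.Agent.Helper259.Orbit2

open Polynomial

/-- numerator form -/
noncomputable def numF {R : Type*} [CommRing R] (t x z : R) : R :=
  x * (x + z) * (x ^ 2 + t * x * z + (1 + t ^ 2) * z ^ 2)

/-- denominator form -/
noncomputable def denF {R : Type*} [CommRing R] (t x z : R) : R :=
  t * z ^ 2 * (x ^ 2 + t * x * z + z ^ 2)

/-- one step on a pair of polynomials over the field with two elements -/
noncomputable def step (P : (ZMod 2)[X] × (ZMod 2)[X]) : (ZMod 2)[X] × (ZMod 2)[X] :=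
  if P.1.coeff 0 = 0 then
    ((numF X P.1 P.2).divX, (denF X P.1 P.2).divX)
  else
    ((numF X P.1 P.2).divX.divX, (denF X P.1 P.2).divX.divX)

lemma eq_X_mul_divX {f : (ZMod 2)[X]} (h : f.coeff 0 = 0) : f = X * f.divX := by
  conv_lhs => rw [← X_mul_divX_add f, h]
  rw [C_0, add_zero]

lemma divX_X_mul (f : (ZMod 2)[X]) : (X * f).divX = f := by
  ext n
  rw [coeff_divX, coeff_X_mul]

lemma two_eq_zero : (2 : (ZMod 2)[X]) = 0 := by
  have h := CharP.cast_eq_zero (ZMod 2)[X] 2
  exact_mod_cast h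

lemma zmod2_ne_zero {a : ZMod 2} (h : a ≠ 0) : a = 1 := by
  revert a; decide

/-- step when the residue is zero -/
lemma step_zero (r q : (ZMod 2)[X]) :
    numF X (X * r) q = X * (r * (X * r + q) * (X ^ 2 * r ^ 2 + X ^ 2 * r * q + (1 + X ^ 2) * q ^ 2))
    ∧ denF X (X * r) q = X * (q ^ 2 * (X ^ 2 * r ^ 2 + X ^ 2 * r * q + q ^ 2))
    ∧ step (X * r, q) = (r * (X * r + q) * (X ^ 2 * r ^ 2 + X ^ 2 * r * q + (1 + X ^ 2) * q ^ 2),
      q ^ 2 * (X ^ 2 * r ^ 2 + X ^ 2 * r * q + q ^ 2)) := by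
  have hN : numF X (X * r) q =
      X * (r * (X * r + q) * (X ^ 2 * r ^ 2 + X ^ 2 * r * q + (1 + X ^ 2) * q ^ 2)) := by
    simp only [numF]; ring
  have hD : denF X (X * r) q = X * (q ^ 2 * (X ^ 2 * r ^ 2 + X ^ 2 * r * q + q ^ 2)) := by
    simp only [denF]; ring
  refine ⟨hN, hD, ?_⟩
  have h0 : (X * r : (ZMod 2)[X]).coeff 0 = 0 := by simp
  simp only [step, h0, if_true]
  rw [hN, hD, divX_X_mul, divX_X_mul]

/-- step when the residue is one -/
lemma step_one (r q : (ZMod 2)[X]) (hq : q.coeff 0 = 1) :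
    numF X (q + X * r) q =
      X ^ 2 * ((q + X * r) * r * (X * r ^ 2 + q * (q + X * r) + X * q ^ 2))
    ∧ denF X (q + X * r) q = X ^ 2 * (q ^ 2 * (X * r ^ 2 + q * (q + X * r)))
    ∧ step (q + X * r, q) = ((q + X * r) * r * (X * r ^ 2 + q * (q + X * r) + X * q ^ 2),
      q ^ 2 * (X * r ^ 2 + q * (q + X * r))) := by
  have hN : numF X (q + X * r) q =
      X ^ 2 * ((q + X * r) * r * (X * r ^ 2 + q * (q + X * r) + X * q ^ 2)) := by
    simp only [numF]
    linear_combination ((q + X * r) * q * (X ^ 2 * r ^ 2 + X * q * (q + X * r) + X ^ 2 * q ^ 2) +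
      (q + X * r) * (X * r + 2 * q) * (q ^ 2 + q * X * r)) * two_eq_zero
  have hD : denF X (q + X * r) q = X ^ 2 * (q ^ 2 * (X * r ^ 2 + q * (q + X * r))) := by
    simp only [denF]
    linear_combination (X * q ^ 2 * (q ^ 2 + q * X * r)) * two_eq_zero
  refine ⟨hN, hD, ?_⟩
  have h0 : ¬ (q + X * r : (ZMod 2)[X]).coeff 0 = 0 := by simp [hq]
  simp only [step, if_neg h0]
  have hX : ∀ f : (ZMod 2)[X], (X ^ 2 * f).divX.divX = f := by
    intro f
    rw [pow_two, mul_assoc, divX_X_mul, divX_X_mul]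
  rw [hN, hD, hX, hX]

lemma cases_pair (p q : (ZMod 2)[X]) (hq : q.coeff 0 = 1) :
    (p.coeff 0 = 0 ∧ ∃ r, p = X * r) ∨ (p.coeff 0 = 1 ∧ ∃ r, p = q + X * r) := by
  by_cases hp : p.coeff 0 = 0
  · left; exact ⟨hp, p.divX, eq_X_mul_divX hp⟩
  · right
    have hp1 := zmod2_ne_zero hp
    refine ⟨hp1, (p - q).divX, ?_⟩
    have : (p - q).coeff 0 = 0 := by simp [hp1, hq]
    rw [← eq_X_mul_divX this]; ring

noncomputable def orb (n : ℕ) : (ZMod 2)[X] × (ZMod 2)[X] := step^[n] (X ^ 2, 1)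

noncomputable def pp (n : ℕ) : (ZMod 2)[X] := (orb n).1
noncomputable def qq (n : ℕ) : (ZMod 2)[X] := (orb n).2

lemma orb_succ (n : ℕ) : orb (n + 1) = step (orb n) := by
  simp [orb, Function.iterate_succ_apply']

noncomputable def phi (n : ℕ) : ℕ := if (pp n).coeff 0 = 0 then 1 else 2

lemma phi_cases (n : ℕ) : phi n = 1 ∨ phi n = 2 := by
  unfold phi; split_ifs <;> simp

lemma qq_coeff (n : ℕ) : (qq n).coeff 0 = 1 := by
  induction n with
  | zero => simp [qq, orb]
  | succ n ih =>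
    have hs : orb (n + 1) = step (pp n, qq n) := orb_succ n
    rcases cases_pair (pp n) (qq n) ih with ⟨_, r, hr⟩ | ⟨_, r, hr⟩
    · rw [hr, (step_zero r (qq n)).2.2] at hs
      have : qq (n + 1) = (qq n) ^ 2 * (X ^ 2 * r ^ 2 + X ^ 2 * r * (qq n) + (qq n) ^ 2) := by
        rw [qq, hs]
      rw [this]
      simp [mul_coeff_zero, pow_two, ih]
    · rw [hr, (step_one r (qq n) ih).2.2] at hs
      have : qq (n + 1) = (qq n) ^ 2 * (X * r ^ 2 + (qq n) * ((qq n) + X * r)) := by
        rw [qq, hs]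
      rw [this]
      simp [mul_coeff_zero, pow_two, ih]

lemma step_eqs (n : ℕ) :
    numF X (pp n) (qq n) = X ^ phi n * pp (n + 1) ∧
    denF X (pp n) (qq n) = X ^ phi n * qq (n + 1) := by
  have hs : orb (n + 1) = step (pp n, qq n) := orb_succ n
  rcases cases_pair (pp n) (qq n) (qq_coeff n) with ⟨h0, r, hr⟩ | ⟨h1, r, hr⟩
  · have hphi : phi n = 1 := by simp [phi, h0]
    have hst := step_zero r (qq n)
    rw [hr, hst.2.2] at hs
    have e1 : pp (n + 1) = r * (X * r + qq n) *
        (X ^ 2 * r ^ 2 + X ^ 2 * r * qq n + (1 + X ^ 2) * qq n ^ 2) := by rw [pp, hs]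
    have e2 : qq (n + 1) = qq n ^ 2 * (X ^ 2 * r ^ 2 + X ^ 2 * r * qq n + qq n ^ 2) := by
      rw [qq, hs]
    rw [hphi, pow_one, e1, e2, hr]
    exact ⟨hst.1, hst.2.1⟩
  · have hphi : phi n = 2 := by simp [phi, h1]
    have hst := step_one r (qq n) (qq_coeff n)
    rw [hr, hst.2.2] at hs
    have e1 : pp (n + 1) = (qq n + X * r) * r *
        (X * r ^ 2 + qq n * (qq n + X * r) + X * qq n ^ 2) := by rw [pp, hs]
    have e2 : qq (n + 1) = qq n ^ 2 * (X * r ^ 2 + qq n * (qq n + X * r)) := by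
      rw [qq, hs]
    rw [hphi, e1, e2, hr]
    exact ⟨hst.1, hst.2.1⟩

/-- the cofactor in the cross-difference identity -/
noncomputable def crossU {R : Type*} [CommRing R] (g1 g2 g3 g4 h0 h1 h2 r q s w : R) : R :=
      g4 * h0 * ((r * w) ^ 3 + (r * w) ^ 2 * (s * q) + (r * w) * (s * q) ^ 2 + (s * q) ^ 3) +
      g4 * h1 * (r * s) * ((r * w) ^ 2 + (r * w) * (s * q) + (s * q) ^ 2) +
      g4 * h2 * (r * s) ^ 2 * ((r * w) + (s * q)) +
      g3 * h0 * (q * w) * ((r * w) ^ 2 + (r * w) * (s * q) + (s * q) ^ 2) +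
      g3 * h1 * (r * s) * (q * w) * ((r * w) + (s * q)) +
      g3 * h2 * (r * s) ^ 2 * (q * w) +
      g2 * h0 * (q * w) ^ 2 * ((r * w) + (s * q)) +
      (g2 * h1 - g1 * h2) * (r * s) * (q * w) ^ 2 +
      g1 * h0 * (q * w) ^ 3

/-- the generic cross-difference identity -/
lemma cross {R : Type*} [CommRing R] (g1 g2 g3 g4 h0 h1 h2 r q s w : R) :
    (g4 * r ^ 4 + g3 * r ^ 3 * q + g2 * r ^ 2 * q ^ 2 + g1 * r * q ^ 3) *
      (h2 * s ^ 2 * w ^ 2 + h1 * s * w ^ 3 + h0 * w ^ 4) -
    (g4 * s ^ 4 + g3 * s ^ 3 * w + g2 * s ^ 2 * w ^ 2 + g1 * s * w ^ 3) *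
      (h2 * r ^ 2 * q ^ 2 + h1 * r * q ^ 3 + h0 * q ^ 4) =
    (r * w - s * q) * crossU g1 g2 g3 g4 h0 h1 h2 r q s w := by
  simp only [crossU]
  ring

/-- equal residues: the cross-difference loses exactly one power of `X` -/
lemma cross_step (m n : ℕ) (h : phi m = phi n) :
    ∃ U : (ZMod 2)[X], U.coeff 0 = 1 ∧
      X * (pp (m + 1) * qq (n + 1) - pp (n + 1) * qq (m + 1)) =
        (pp m * qq n - pp n * qq m) * U := by
  have hsm : orb (m + 1) = step (pp m, qq m) := orb_succ m
  have hsn : orb (n + 1) = step (pp n, qq n) := orb_succ n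
  have hqm := qq_coeff m
  have hqn := qq_coeff n
  rcases cases_pair (pp m) (qq m) hqm with ⟨h0, r, hr⟩ | ⟨h0, r, hr⟩ <;>
  rcases cases_pair (pp n) (qq n) hqn with ⟨h1, s, hs⟩ | ⟨h1, s, hs⟩
  · rw [hr, (step_zero r (qq m)).2.2] at hsm
    rw [hs, (step_zero s (qq n)).2.2] at hsn
    have e1 : pp (m + 1) = r * (X * r + qq m) *
        (X ^ 2 * r ^ 2 + X ^ 2 * r * qq m + (1 + X ^ 2) * qq m ^ 2) := by rw [pp, hsm]
    have e2 : qq (m + 1) = qq m ^ 2 * (X ^ 2 * r ^ 2 + X ^ 2 * r * qq m + qq m ^ 2) := by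
      rw [qq, hsm]
    have e3 : pp (n + 1) = s * (X * s + qq n) *
        (X ^ 2 * s ^ 2 + X ^ 2 * s * qq n + (1 + X ^ 2) * qq n ^ 2) := by rw [pp, hsn]
    have e4 : qq (n + 1) = qq n ^ 2 * (X ^ 2 * s ^ 2 + X ^ 2 * s * qq n + qq n ^ 2) := by
      rw [qq, hsn]
    have key := cross (R := (ZMod 2)[X]) (1 + X ^ 2) (X + X ^ 2 + X ^ 3) (X ^ 2 + X ^ 3) (X ^ 3)
      1 (X ^ 2) (X ^ 2) r (qq m) s (qq n)
    refine ⟨crossU (R := (ZMod 2)[X]) (1 + X ^ 2) (X + X ^ 2 + X ^ 3) (X ^ 2 + X ^ 3) (X ^ 3)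
      1 (X ^ 2) (X ^ 2) r (qq m) s (qq n), ?_, ?_⟩
    · simp only [crossU]
      simp [mul_coeff_zero, pow_two, pow_three, hqm, hqn]
    · rw [e1, e2, e3, e4, hr, hs]
      linear_combination (X : (ZMod 2)[X]) * key
  · exfalso; simp [phi, h0, h1] at h
  · exfalso; simp [phi, h0, h1] at h
  · rw [hr, (step_one r (qq m) hqm).2.2] at hsm
    rw [hs, (step_one s (qq n) hqn).2.2] at hsn
    have e1 : pp (m + 1) = (qq m + X * r) * r *
        (X * r ^ 2 + qq m * (qq m + X * r) + X * qq m ^ 2) := by rw [pp, hsm]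
    have e2 : qq (m + 1) = qq m ^ 2 * (X * r ^ 2 + qq m * (qq m + X * r)) := by
      rw [qq, hsm]
    have e3 : pp (n + 1) = (qq n + X * s) * s *
        (X * s ^ 2 + qq n * (qq n + X * s) + X * qq n ^ 2) := by rw [pp, hsn]
    have e4 : qq (n + 1) = qq n ^ 2 * (X * s ^ 2 + qq n * (qq n + X * s)) := by
      rw [qq, hsn]
    have key := cross (R := (ZMod 2)[X]) (1 + X) (2 * X + X ^ 2) (X + X ^ 2) (X ^ 2)
      1 X X r (qq m) s (qq n)
    refine ⟨crossU (R := (ZMod 2)[X]) (1 + X) (2 * X + X ^ 2) (X + X ^ 2) (X ^ 2)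
      1 X X r (qq m) s (qq n), ?_, ?_⟩
    · simp only [crossU]
      simp [mul_coeff_zero, pow_two, pow_three, hqm, hqn]
    · rw [e1, e2, e3, e4, hr, hs]
      linear_combination (X : (ZMod 2)[X]) * key

lemma itinerary_inj (m n : ℕ) (h : ∀ j, phi (m + j) = phi (n + j)) :
    pp m * qq n = pp n * qq m := by
  have hX : Prime (X : (ZMod 2)[X]) := prime_X
  have key : ∀ k : ℕ, ∀ j : ℕ,
      (X : (ZMod 2)[X]) ^ k ∣ pp (m + j) * qq (n + j) - pp (n + j) * qq (m + j) := by
    intro k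
    induction k with
    | zero => intro j; simp
    | succ k ih =>
      intro j
      obtain ⟨U, hU, hE⟩ := cross_step (m + j) (n + j) (h j)
      have h1 := ih (j + 1)
      have h2 : (X : (ZMod 2)[X]) ^ (k + 1) ∣
          (pp (m + j) * qq (n + j) - pp (n + j) * qq (m + j)) * U := by
        rw [← hE, pow_succ']
        exact mul_dvd_mul_left _ h1
      refine hX.pow_dvd_of_dvd_mul_right (k + 1) ?_ h2
      intro hd
      rw [X_dvd_iff] at hd
      rw [hd] at hU
      exact absurd hU (by decide)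
  by_contra hne
  have hne' : pp m * qq n - pp n * qq m ≠ 0 := sub_ne_zero.mpr hne
  have h1 := key ((pp m * qq n - pp n * qq m).natDegree + 1) 0
  simp only [add_zero] at h1
  have h2 := natDegree_le_of_dvd h1 hne'
  rw [natDegree_X_pow] at h2
  omega


/-! degrees -/

lemma natDegree_num (p q : (ZMod 2)[X]) (hq : q ≠ 0) (h : q.natDegree + 2 ≤ p.natDegree) :
    (numF X p q).natDegree = 4 * p.natDegree ∧ numF X p q ≠ 0 := by
  have hp : p ≠ 0 := by
    rintro rfl; simp at h
  have h1 : (p + q).natDegree = p.natDegree := natDegree_add_eq_left_of_natDegree_lt (by omega)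
  have h1' : p + q ≠ 0 := by
    intro h0; rw [h0] at h1; simp at h1; omega
  have hXq : (1 + X ^ 2 : (ZMod 2)[X]).natDegree ≤ 2 := by
    compute_degree
  have h2 : (X * p * q + (1 + X ^ 2) * q ^ 2).natDegree < (p ^ 2).natDegree := by
    have e1 : (X * p * q).natDegree ≤ 1 + p.natDegree + q.natDegree := by
      refine natDegree_mul_le.trans ?_
      have := natDegree_mul_le (p := (X : (ZMod 2)[X])) (q := p)
      rw [natDegree_X] at this
      omega
    have e2 : ((1 + X ^ 2) * q ^ 2).natDegree ≤ 2 + 2 * q.natDegree := by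
      refine natDegree_mul_le.trans ?_
      rw [natDegree_pow]
      omega
    rw [natDegree_pow]
    refine lt_of_le_of_lt (natDegree_add_le _ _) ?_
    rw [max_lt_iff]
    constructor <;> omega
  have h3 : (p ^ 2 + X * p * q + (1 + X ^ 2) * q ^ 2).natDegree = 2 * p.natDegree := by
    rw [add_assoc, natDegree_add_eq_left_of_natDegree_lt h2, natDegree_pow]
  have h3' : p ^ 2 + X * p * q + (1 + X ^ 2) * q ^ 2 ≠ 0 := by
    intro h0; rw [h0] at h3; simp at h3; omega
  have hne : numF X p q ≠ 0 := by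
    simp only [numF]; exact mul_ne_zero (mul_ne_zero hp h1') h3'
  refine ⟨?_, hne⟩
  simp only [numF]
  rw [natDegree_mul (mul_ne_zero hp h1') h3', natDegree_mul hp h1', h1, h3]
  ring

lemma natDegree_den (p q : (ZMod 2)[X]) (hq : q ≠ 0) (h : q.natDegree + 2 ≤ p.natDegree) :
    (denF X p q).natDegree = 1 + 2 * q.natDegree + 2 * p.natDegree ∧ denF X p q ≠ 0 := by
  have hp : p ≠ 0 := by
    rintro rfl; simp at h
  have h2 : (X * p * q + q ^ 2).natDegree < (p ^ 2).natDegree := by
    have e1 : (X * p * q).natDegree ≤ 1 + p.natDegree + q.natDegree := by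
      refine natDegree_mul_le.trans ?_
      have := natDegree_mul_le (p := (X : (ZMod 2)[X])) (q := p)
      rw [natDegree_X] at this
      omega
    have e2 : (q ^ 2).natDegree ≤ 2 * q.natDegree := by
      rw [natDegree_pow]
    rw [natDegree_pow]
    refine lt_of_le_of_lt (natDegree_add_le _ _) ?_
    rw [max_lt_iff]
    constructor <;> omega
  have h3 : (p ^ 2 + X * p * q + q ^ 2).natDegree = 2 * p.natDegree := by
    rw [add_assoc, natDegree_add_eq_left_of_natDegree_lt h2, natDegree_pow]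
  have h3' : p ^ 2 + X * p * q + q ^ 2 ≠ 0 := by
    intro h0; rw [h0] at h3; simp at h3; omega
  have hne : denF X p q ≠ 0 := by
    simp only [denF]; exact mul_ne_zero (mul_ne_zero X_ne_zero (pow_ne_zero 2 hq)) h3'
  refine ⟨?_, hne⟩
  simp only [denF]
  rw [natDegree_mul (mul_ne_zero X_ne_zero (pow_ne_zero 2 hq)) h3',
    natDegree_mul X_ne_zero (pow_ne_zero 2 hq), natDegree_pow, natDegree_X, h3]

lemma qq_ne_zero (n : ℕ) : qq n ≠ 0 := by
  intro h
  have := qq_coeff n
  rw [h] at this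
  simp at this

lemma degs (n : ℕ) : (qq n).natDegree + 2 ^ n + 1 = (pp n).natDegree := by
  induction n with
  | zero => simp [pp, qq, orb]
  | succ n ih =>
    have hpow : 1 ≤ 2 ^ n := Nat.one_le_two_pow
    have hle : (qq n).natDegree + 2 ≤ (pp n).natDegree := by omega
    obtain ⟨hN, hN0⟩ := natDegree_num (pp n) (qq n) (qq_ne_zero n) hle
    obtain ⟨hD, hD0⟩ := natDegree_den (pp n) (qq n) (qq_ne_zero n) hle
    obtain ⟨e1, e2⟩ := step_eqs n
    have hp1 : pp (n + 1) ≠ 0 := by
      intro h0; rw [h0, mul_zero] at e1; exact hN0 e1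
    rw [e1, natDegree_mul (pow_ne_zero _ X_ne_zero) hp1, natDegree_X_pow] at hN
    rw [e2, natDegree_mul (pow_ne_zero _ X_ne_zero) (qq_ne_zero _), natDegree_X_pow] at hD
    rw [pow_succ]
    omega

lemma pp_ne_zero (n : ℕ) : pp n ≠ 0 := by
  intro h
  have := degs n
  rw [h] at this
  simp at this

/-- accumulated power of `X` -/
noncomputable def ee : ℕ → ℕ
  | 0 => 0
  | n + 1 => 4 * ee n + phi n

lemma deg_add_ee (n : ℕ) : (pp n).natDegree + ee n = 2 * 4 ^ n := by
  induction n with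
  | zero => simp [pp, orb, ee]
  | succ n ih =>
    have hpow : 1 ≤ 2 ^ n := Nat.one_le_two_pow
    have hd := degs n
    have hle : (qq n).natDegree + 2 ≤ (pp n).natDegree := by omega
    obtain ⟨hN, hN0⟩ := natDegree_num (pp n) (qq n) (qq_ne_zero n) hle
    obtain ⟨e1, e2⟩ := step_eqs n
    rw [e1, natDegree_mul (pow_ne_zero _ X_ne_zero) (pp_ne_zero _), natDegree_X_pow] at hN
    simp only [ee]
    rw [pow_succ]
    omega

/-- the orbit is not preperiodic in its itinerary -/
lemma itinerary_aperiodic (m n : ℕ) (h : ∀ j, phi (m + j) = phi (n + j)) : m = n := by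
  have h1 := itinerary_inj m n h
  have h2 := congrArg natDegree h1
  rw [natDegree_mul (pp_ne_zero _) (qq_ne_zero _), natDegree_mul (pp_ne_zero _) (qq_ne_zero _)] at h2
  have hm := degs m
  have hn := degs n
  have h3 : 2 ^ m = 2 ^ n := by omega
  exact Nat.pow_right_injective (le_refl 2) h3

/-- away from `X` the two coordinates have no common factor -/
lemma coprime_away (n : ℕ) (P : Ideal (ZMod 2)[X]) [P.IsPrime] (h1 : pp n ∈ P) (h2 : qq n ∈ P) :
    (X : (ZMod 2)[X]) ∈ P := by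
  induction n with
  | zero =>
    exfalso
    have : qq 0 = 1 := by simp [qq, orb]
    rw [this] at h2
    exact Ideal.IsPrime.ne_top' (Ideal.eq_top_of_isUnit_mem P h2 isUnit_one)
  | succ n ih =>
    by_contra hX
    apply hX
    apply ih
    all_goals
      obtain ⟨e1, e2⟩ := step_eqs n
      have hN : numF X (pp n) (qq n) ∈ P := by rw [e1]; exact P.mul_mem_left _ h1
      have hD : denF X (pp n) (qq n) ∈ P := by rw [e2]; exact P.mul_mem_left _ h2
      simp only [numF] at hN
      simp only [denF] at hD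
      have hboth : pp n ∈ P ∧ qq n ∈ P := by
        rcases Ideal.IsPrime.mem_or_mem ‹P.IsPrime› hD with hD | hD
        · rcases Ideal.IsPrime.mem_or_mem ‹P.IsPrime› hD with hD | hD
          · exact absurd hD hX
          · have hq : qq n ∈ P := Ideal.IsPrime.mem_of_pow_mem ‹P.IsPrime› _ hD
            refine ⟨?_, hq⟩
            have : (pp n) ^ 4 ∈ P := by
              have e : (pp n) ^ 4 = pp n * (pp n + qq n) *
                  (pp n ^ 2 + X * pp n * qq n + (1 + X ^ 2) * qq n ^ 2) -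
                  (pp n ^ 2 * (X * pp n + (1 + X ^ 2) * qq n) +
                    pp n * (pp n ^ 2 + X * pp n * qq n + (1 + X ^ 2) * qq n ^ 2)) * qq n := by
                ring
              rw [e]
              exact P.sub_mem hN (P.mul_mem_left _ hq)
            exact Ideal.IsPrime.mem_of_pow_mem ‹P.IsPrime› _ this
        · have h4 : pp n * (pp n + qq n) * (X ^ 2 * qq n ^ 2) ∈ P := by
            have e : pp n * (pp n + qq n) * (X ^ 2 * qq n ^ 2) = pp n * (pp n + qq n) *
                  (pp n ^ 2 + X * pp n * qq n + (1 + X ^ 2) * qq n ^ 2) -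
                  pp n * (pp n + qq n) * (pp n ^ 2 + X * pp n * qq n + qq n ^ 2) := by
              ring
            rw [e]
            exact P.sub_mem hN (P.mul_mem_left _ hD)
          have key1 : pp n ∈ P → pp n ∈ P ∧ qq n ∈ P := by
            intro hp
            refine ⟨hp, ?_⟩
            have : (qq n) ^ 2 ∈ P := by
              have e : (qq n) ^ 2 = (pp n ^ 2 + X * pp n * qq n + qq n ^ 2) -
                (pp n + X * qq n) * pp n := by ring
              rw [e]; exact P.sub_mem hD (P.mul_mem_left _ hp)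
            exact Ideal.IsPrime.mem_of_pow_mem ‹P.IsPrime› _ this
          have key2 : qq n ∈ P → pp n ∈ P ∧ qq n ∈ P := by
            intro hq
            refine ⟨?_, hq⟩
            have : (pp n) ^ 2 ∈ P := by
              have e : (pp n) ^ 2 = (pp n ^ 2 + X * pp n * qq n + qq n ^ 2) -
                (X * pp n + qq n) * qq n := by ring
              rw [e]; exact P.sub_mem hD (P.mul_mem_left _ hq)
            exact Ideal.IsPrime.mem_of_pow_mem ‹P.IsPrime› _ this
          rcases Ideal.IsPrime.mem_or_mem ‹P.IsPrime› h4 with h4 | h4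
          · rcases Ideal.IsPrime.mem_or_mem ‹P.IsPrime› h4 with h4 | h4
            · exact key1 h4
            · have h5 : X * pp n * qq n ∈ P := by
                have e : X * pp n * qq n = (pp n ^ 2 + X * pp n * qq n + qq n ^ 2) -
                    (pp n + qq n) * (pp n + qq n) + 2 * (pp n * qq n) := by ring
                rw [e, two_eq_zero, zero_mul, add_zero]
                exact P.sub_mem hD (P.mul_mem_left _ h4)
              rcases Ideal.IsPrime.mem_or_mem ‹P.IsPrime› h5 with h5 | h5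
              · rcases Ideal.IsPrime.mem_or_mem ‹P.IsPrime› h5 with h5 | h5
                · exact absurd h5 hX
                · exact key1 h5
              · exact key2 h5
          · rcases Ideal.IsPrime.mem_or_mem ‹P.IsPrime› h4 with h4 | h4
            · exact absurd (Ideal.IsPrime.mem_of_pow_mem ‹P.IsPrime› _ h4) hX
            · exact key2 (Ideal.IsPrime.mem_of_pow_mem ‹P.IsPrime› _ h4)
    · exact hboth.1
    · exact hboth.2

end Pool.Agent.Helper259.Orbit2
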