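import Mathlib
import Pool.Agent.Helper259.Orbit2

set_option autoImplicit false

namespace Pool.Agent.Helper259.Orbit2Val

open Polynomial Filter Topology Pool.Agent.Helper259.Orbit2

/-! Part 1: irrationality of the limit -/

noncomputable def rr (n : ℕ) : ℝ := (ee n : ℝ) / 4 ^ n

lemma rr_succ (n : ℕ) : rr (n + 1) = rr n + (phi n : ℝ) / 4 ^ (n + 1) := by
  have h4 : (4 : ℝ) ^ n ≠ 0 := by positivity
  simp only [rr, ee]
  push_cast
  rw [pow_succ]
  field_simp

lemma phi_bounds (n : ℕ) : (1 : ℝ) ≤ phi n ∧ (phi n : ℝ) ≤ 2 := by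
  rcases phi_cases n with h | h <;> rw [h] <;> norm_num

lemma not_rational (q : ℚ) (h : Tendsto rr atTop (𝓝 (q : ℝ))) : False := by
  have hpow : Tendsto (fun n : ℕ => (1 : ℝ) / 4 ^ n) atTop (𝓝 0) := by
    have := tendsto_pow_atTop_nhds_zero_of_lt_one (r := (1 / 4 : ℝ)) (by norm_num) (by norm_num)
    simpa [one_div_pow] using this
  -- upper sequence
  have hu : Tendsto (fun n : ℕ => rr n + (2 / 3) * (1 / 4 ^ n)) atTop (𝓝 (q : ℝ)) := by
    have := h.add (hpow.const_mul (2 / 3))
    rwa [mul_zero, add_zero] at this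
  have hl : Tendsto (fun n : ℕ => rr n + (1 / 3) * (1 / 4 ^ n)) atTop (𝓝 (q : ℝ)) := by
    have := h.add (hpow.const_mul (1 / 3))
    rwa [mul_zero, add_zero] at this
  have hpos : ∀ n : ℕ, (0 : ℝ) < 1 / 4 ^ (n + 1) := fun n => by positivity
  have hsplit : ∀ n : ℕ, (1 : ℝ) / 4 ^ n = 4 * (1 / 4 ^ (n + 1)) := by
    intro n
    have h4 : (4 : ℝ) ^ n ≠ 0 := by positivity
    rw [pow_succ]; field_simp
  have hua : Antitone (fun n : ℕ => rr n + (2 / 3) * (1 / 4 ^ n)) := by
    apply antitone_nat_of_succ_le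
    intro n
    have h1 := (phi_bounds n).2
    have h2 := hpos n
    rw [rr_succ, hsplit n]
    have : (phi n : ℝ) / 4 ^ (n + 1) ≤ 2 * (1 / 4 ^ (n + 1)) := by
      rw [div_eq_mul_one_div]; exact mul_le_mul_of_nonneg_right h1 h2.le
    nlinarith
  have hlm : Monotone (fun n : ℕ => rr n + (1 / 3) * (1 / 4 ^ n)) := by
    apply monotone_nat_of_le_succ
    intro n
    have h1 := (phi_bounds n).1
    have h2 := hpos n
    rw [rr_succ, hsplit n]
    have : 1 * (1 / 4 ^ (n + 1)) ≤ (phi n : ℝ) / 4 ^ (n + 1) := by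
      rw [div_eq_mul_one_div (phi n : ℝ)]; exact mul_le_mul_of_nonneg_right h1 h2.le
    nlinarith
  have hU : ∀ m, (q : ℝ) ≤ rr m + (2 / 3) * (1 / 4 ^ m) := fun m => hua.le_of_tendsto hu m
  have hL : ∀ m, rr m + (1 / 3) * (1 / 4 ^ m) ≤ (q : ℝ) := fun m => hlm.ge_of_tendsto hl m
  -- tails
  set T : ℕ → ℝ := fun m => 4 ^ m * ((q : ℝ) - rr m) with hT
  have hTb : ∀ m, 1 / 3 ≤ T m ∧ T m ≤ 2 / 3 := by
    intro m
    have h4 : (0 : ℝ) < 4 ^ m := by positivity
    have e : (4 : ℝ) ^ m * (1 / 4 ^ m) = 1 := by field_simp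
    constructor
    · have := mul_le_mul_of_nonneg_left (hL m) h4.le
      simp only [hT]
      nlinarith
    · have := mul_le_mul_of_nonneg_left (hU m) h4.le
      simp only [hT]
      nlinarith
  have hTs : ∀ m, T (m + 1) = 4 * T m - phi m := by
    intro m
    have h4 : (4 : ℝ) ^ m ≠ 0 := by positivity
    simp only [hT, rr_succ]
    rw [pow_succ]; field_simp; ring
  -- integrality of the tails
  have hint : ∀ m, ∃ z : ℤ, (z : ℝ) = q.den * T m := by
    intro m
    refine ⟨4 ^ m * q.num - q.den * ee m, ?_⟩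
    have h4 : (4 : ℝ) ^ m ≠ 0 := by positivity
    have hq : (q : ℝ) * q.den = q.num := by exact_mod_cast Rat.mul_den_eq_num q
    simp only [hT, rr]
    push_cast
    field_simp
    linear_combination (-(4 : ℝ) ^ m) * hq
  choose z hz using hint
  have hzb : ∀ m, z m ∈ Set.Icc (0 : ℤ) q.den := by
    intro m
    have hd : (0 : ℝ) < q.den := by exact_mod_cast q.den_pos
    obtain ⟨h1, h2⟩ := hTb m
    constructor
    · have : (0 : ℝ) ≤ z m := by rw [hz]; positivity
      exact_mod_cast this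
    · have : (z m : ℝ) ≤ q.den := by rw [hz]; nlinarith
      exact_mod_cast this
  obtain ⟨m, -, n, -, hmn, hzmn⟩ :=
    Set.infinite_univ.exists_ne_map_eq_of_mapsTo (f := z) (s := Set.univ)
      (t := Set.Icc (0 : ℤ) q.den) (fun m _ => hzb m) (Set.finite_Icc _ _)
  have hTmn : T m = T n := by
    have hd : (q.den : ℝ) ≠ 0 := by exact_mod_cast q.den_ne_zero
    have : (q.den : ℝ) * T m = q.den * T n := by rw [← hz, ← hz, hzmn]
    exact mul_left_cancel₀ hd this
  have hall : ∀ j, T (m + j) = T (n + j) := by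
    intro j
    induction j with
    | zero => simpa using hTmn
    | succ j ih =>
      have e1 := hTs (m + j)
      have e2 := hTs (n + j)
      have hphi : phi (m + j) = phi (n + j) := by
        obtain ⟨a1, a2⟩ := hTb (m + j + 1)
        obtain ⟨b1, b2⟩ := hTb (n + j + 1)
        rw [e1] at a1 a2
        rw [e2] at b1 b2
        have h5 : (phi (m + j) : ℝ) < phi (n + j) + 1 := by linarith
        have h6 : (phi (n + j) : ℝ) < phi (m + j) + 1 := by linarith
        have h5' : phi (m + j) < phi (n + j) + 1 := by exact_mod_cast h5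
        have h6' : phi (n + j) < phi (m + j) + 1 := by exact_mod_cast h6
        omega
      rw [← add_assoc, ← add_assoc, e1, e2, ih, hphi]
  have hphi : ∀ j, phi (m + j) = phi (n + j) := by
    intro j
    have e1 := hTs (m + j)
    have e2 := hTs (n + j)
    have h1 := hall j
    have h2 := hall (j + 1)
    rw [← add_assoc, ← add_assoc, e1, e2, h1] at h2
    have : (phi (m + j) : ℝ) = phi (n + j) := by linarith
    exact_mod_cast this
  exact hmn (itinerary_aperiodic m n hphi)

end Pool.Agent.Helper259.Orbit2Val
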