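import Mathlib
import Pool.Agent.Helper259.Orbit2Val

set_option autoImplicit false
set_option linter.unusedSectionVars false
set_option linter.unusedVariables false
set_option linter.style.haveILetI false

namespace Pool.Agent.Helper259.Orbit2Main

open Filter Topology Pool.Agent.Helper259.Orbit2 Pool.Agent.Helper259.Orbit2Val
open WithZero

section maps

variable (K : Type*) [Field K]

lemma map_numF {R S : Type*} [CommRing R] [CommRing S] (g : R →+* S) (t x z : R) :
    g (numF t x z) = numF (g t) (g x) (g z) := by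
  simp [numF]

lemma map_denF {R S : Type*} [CommRing R] [CommRing S] (g : R →+* S) (t x z : R) :
    g (denF t x z) = denF (g t) (g x) (g z) := by
  simp [denF]

lemma numF_smul {R : Type*} [CommRing R] (a t x z : R) :
    numF t (a * x) (a * z) = a ^ 4 * numF t x z := by
  simp only [numF]; ring

lemma denF_smul {R : Type*} [CommRing R] (a t x z : R) :
    denF t (a * x) (a * z) = a ^ 4 * denF t x z := by
  simp only [denF]; ring

/-- the pair of quartic forms defining the map -/
noncomputable def FF {R : Type*} [CommRing R] (T : R) : Fin (1 + 1) → MvPolynomial (Fin (1 + 1)) R :=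
  ![numF (MvPolynomial.C T) (MvPolynomial.X 0) (MvPolynomial.X 1),
    denF (MvPolynomial.C T) (MvPolynomial.X 0) (MvPolynomial.X 1)]

lemma FF_homog {R : Type*} [CommRing R] (T : R) (i : Fin (1 + 1)) : (FF T i).IsHomogeneous 4 := by
  have hX0 : (MvPolynomial.X 0 : MvPolynomial (Fin (1 + 1)) R).IsHomogeneous 1 :=
    MvPolynomial.isHomogeneous_X _ _
  have hX1 : (MvPolynomial.X 1 : MvPolynomial (Fin (1 + 1)) R).IsHomogeneous 1 :=
    MvPolynomial.isHomogeneous_X _ _
  have hC : ∀ a : R, (MvPolynomial.C a : MvPolynomial (Fin (1 + 1)) R).IsHomogeneous 0 :=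
    fun a => MvPolynomial.isHomogeneous_C _ _
  have h1 : (1 + MvPolynomial.C T ^ 2 : MvPolynomial (Fin (1 + 1)) R).IsHomogeneous 0 := by
    have := hC (1 + T ^ 2)
    simpa using this
  have hq : (MvPolynomial.X 0 ^ 2 + MvPolynomial.C T * MvPolynomial.X 0 * MvPolynomial.X 1 :
      MvPolynomial (Fin (1 + 1)) R).IsHomogeneous 2 :=
    (hX0.pow 2).add (((hC T).mul hX0).mul hX1)
  fin_cases i
  · have := (hX0.mul (hX0.add hX1)).mul (hq.add (h1.mul (hX1.pow 2)))
    simpa [FF, numF] using this
  · have := ((hC T).mul (hX1.pow 2)).mul (hq.add (hX1.pow 2))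
    simpa [FF, denF] using this

lemma FF_aeval {R S : Type*} [CommRing R] [CommRing S] [Algebra R S] (T : R)
    (y : Fin (1 + 1) → S) :
    MvPolynomial.aeval y (FF T 0) = numF (algebraMap R S T) (y 0) (y 1) ∧
    MvPolynomial.aeval y (FF T 1) = denF (algebraMap R S T) (y 0) (y 1) := by
  constructor <;> simp [FF, numF, denF]

lemma FF_eval {R : Type*} [CommRing R] (T : R) (y : Fin (1 + 1) → R) :
    (fun j => MvPolynomial.eval y (FF T j)) = ![numF T (y 0) (y 1), denF T (y 0) (y 1)] := by
  funext j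
  fin_cases j <;> simp [FF, numF, denF]

/-- the two forms have no common zero when `T ≠ 0` in characteristic two -/
lemma FF_nonsing {L : Type*} [Field L] [CharP L 2] (T : L) (hT : T ≠ 0) (x z : L)
    (h1 : numF T x z = 0) (h2 : denF T x z = 0) : x = 0 ∧ z = 0 := by
  have two : (2 : L) = 0 := by exact_mod_cast CharP.cast_eq_zero L 2
  simp only [numF] at h1
  simp only [denF] at h2
  have key : z = 0 → x = 0 ∧ z = 0 := by
    rintro rfl
    refine ⟨?_, rfl⟩
    have : x ^ 4 = 0 := by linear_combination h1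
    exact pow_eq_zero_iff (by norm_num) |>.mp this
  by_cases hz : z = 0
  · exact key hz
  · have h3 : x ^ 2 + T * x * z + z ^ 2 = 0 := by
      rcases mul_eq_zero.mp h2 with h | h
      · rcases mul_eq_zero.mp h with h | h
        · exact absurd h hT
        · exact absurd (pow_eq_zero_iff (by norm_num) |>.mp h) hz
      · exact h
    have h4 : x * (x + z) * (T ^ 2 * z ^ 2) = 0 := by
      linear_combination h1 - x * (x + z) * h3
    have hTz : T ^ 2 * z ^ 2 ≠ 0 := mul_ne_zero (pow_ne_zero _ hT) (pow_ne_zero _ hz)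
    rcases mul_eq_zero.mp h4 with h | h
    · rcases mul_eq_zero.mp h with h | h
      · rw [h] at h3
        have : z ^ 2 = 0 := by linear_combination h3
        exact absurd (pow_eq_zero_iff (by norm_num) |>.mp this) hz
      · have : T * z ^ 2 = 0 := by
          linear_combination (-1 : L) * h3 + (x + T * z - z) * h + z ^ 2 * two
        rcases mul_eq_zero.mp this with h | h
        · exact absurd h hT
        · exact absurd (pow_eq_zero_iff (by norm_num) |>.mp h) hz
    · exact absurd h hTz

end maps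

section places

variable {k : Type*} [Field k] [Algebra (ZMod 2) k]

/-- embedding of `F_2[X]` in `k(X)` -/
noncomputable def emb : Polynomial (ZMod 2) →+* RatFunc k :=
  (algebraMap (Polynomial k) (RatFunc k)).comp (Polynomial.mapRingHom (algebraMap (ZMod 2) k))

lemma emb_X : emb (k := k) Polynomial.X = RatFunc.X := by
  simp [emb, RatFunc.algebraMap_X]

lemma emb_natDegree (f : Polynomial (ZMod 2)) :
    (Polynomial.map (algebraMap (ZMod 2) k) f).natDegree = f.natDegree :=
  Polynomial.natDegree_map _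

lemma emb_apply (f : Polynomial (ZMod 2)) :
    emb (k := k) f = algebraMap (Polynomial k) (RatFunc k) (Polynomial.map (algebraMap (ZMod 2) k) f) := rfl

lemma emb_ne_zero {f : Polynomial (ZMod 2)} (hf : f ≠ 0) : emb (k := k) f ≠ 0 := by
  rw [emb_apply]
  simp only [ne_eq, FaithfulSMul.algebraMap_eq_zero_iff]
  rw [Polynomial.map_eq_zero]
  exact hf

/-- the homogeneous orbit -/
noncomputable def xx (n : ℕ) : Fin (1 + 1) → RatFunc k :=
  ![emb (Polynomial.X ^ ee n * pp n), emb (Polynomial.X ^ ee n * qq n)]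

lemma iterate_eq (n : ℕ) :
    ((fun (z : Fin (1 + 1) → RatFunc k) (j : Fin (1 + 1)) =>
      MvPolynomial.eval z (FF (RatFunc.X : RatFunc k) j))^[n] (xx 0)) = xx n := by
  induction n with
  | zero => rfl
  | succ n ih =>
    rw [Function.iterate_succ_apply', ih]
    show (fun j => MvPolynomial.eval (xx n) (FF (RatFunc.X : RatFunc k) j)) = xx (n + 1)
    rw [FF_eval]
    obtain ⟨e1, e2⟩ := step_eqs n
    have f1 : numF Polynomial.X (Polynomial.X ^ ee n * pp n) (Polynomial.X ^ ee n * qq n) =
        Polynomial.X ^ ee (n + 1) * pp (n + 1) := by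
      rw [numF_smul, e1]
      simp only [ee]
      ring
    have f2 : denF Polynomial.X (Polynomial.X ^ ee n * pp n) (Polynomial.X ^ ee n * qq n) =
        Polynomial.X ^ ee (n + 1) * qq (n + 1) := by
      rw [denF_smul, e2]
      simp only [ee]
      ring
    have h1 : numF (RatFunc.X : RatFunc k) (xx n 0) (xx n 1) = xx (n + 1) 0 := by
      have := map_numF (emb (k := k)) Polynomial.X (Polynomial.X ^ ee n * pp n)
        (Polynomial.X ^ ee n * qq n)
      rw [f1, emb_X] at this
      exact this.symm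
    have h2 : denF (RatFunc.X : RatFunc k) (xx n 0) (xx n 1) = xx (n + 1) 1 := by
      have := map_denF (emb (k := k)) Polynomial.X (Polynomial.X ^ ee n * pp n)
        (Polynomial.X ^ ee n * qq n)
      rw [f2, emb_X] at this
      exact this.symm
    rw [h1, h2]
    funext j
    fin_cases j <;> simp

/-- the local contribution of a place to the height of a vector -/
noncomputable def locHt (v : Valuation (RatFunc k) (WithZero (Multiplicative ℤ)))
    (x : Fin (1 + 1) → RatFunc k) : ℤ :=
  sInf {m : ℤ | ∀ i, v (x i) ≤ WithZero.coe (Multiplicative.ofAdd m)}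

lemma locHt_eq (v : Valuation (RatFunc k) (WithZero (Multiplicative ℤ)))
    (x : Fin (1 + 1) → RatFunc k) (M : ℤ) (h : ∀ i, v (x i) ≤ exp M)
    (h1 : ∃ i, v (x i) = exp M) : locHt v x = M := by
  have : {m : ℤ | ∀ i, v (x i) ≤ WithZero.coe (Multiplicative.ofAdd m)} = Set.Ici M := by
    ext m
    simp only [Set.mem_ofPred_eq, Set.mem_Ici]
    constructor
    · intro hm
      obtain ⟨i, hi⟩ := h1
      have := hm i
      rw [hi] at this
      exact WithZero.exp_le_exp.mp this
    · intro hm i
      exact (h i).trans (WithZero.exp_le_exp.mpr hm)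
  rw [locHt, this]
  exact csInf_Ici

variable (v : Valuation (RatFunc k) (WithZero (Multiplicative ℤ)))
  (hs : Function.Surjective v) (hc : ∀ c : k, c ≠ 0 → v (RatFunc.C c) = 1)

include hc in
lemma triv : v.IsTrivialOn k := ⟨fun a ha => by
  rw [RatFunc.algebraMap_eq_C]; exact hc a ha⟩

include hc in
lemma v_poly_le (hX : v RatFunc.X ≤ 1) (f : Polynomial k) :
    v (algebraMap (Polynomial k) (RatFunc k) f) ≤ 1 := by
  haveI := triv v hc
  have := Polynomial.valuation_le_one_of_valuation_X_le_one k hX f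
  rwa [RatFunc.coePolynomial_eq_algebraMap] at this

include hc in
lemma v_unit (hX : v RatFunc.X < 1) (f : Polynomial k) (hf : f.coeff 0 ≠ 0) :
    v (algebraMap (Polynomial k) (RatFunc k) f) = 1 := by
  have e : f = Polynomial.X * f.divX + Polynomial.C (f.coeff 0) := (Polynomial.X_mul_divX_add f).symm
  rw [e, map_add, map_mul, RatFunc.algebraMap_X, RatFunc.algebraMap_C]
  have h1 : v (RatFunc.X * algebraMap (Polynomial k) (RatFunc k) f.divX) < 1 := by
    rw [map_mul]
    exact mul_lt_one_of_lt_of_le hX (v_poly_le v hc hX.le _)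
  have h2 : v (RatFunc.C (f.coeff 0)) = 1 := hc _ hf
  rw [← h2] at h1
  rw [Valuation.map_add_eq_of_lt_right _ h1, h2]

include hc in
lemma v_poly_pow (hX : v RatFunc.X < 1) (f : Polynomial k) (hf : f ≠ 0) :
    ∃ m : ℕ, (∀ w : Valuation (RatFunc k) (WithZero (Multiplicative ℤ)),
      (∀ c : k, c ≠ 0 → w (RatFunc.C c) = 1) → w RatFunc.X < 1 →
      w (algebraMap (Polynomial k) (RatFunc k) f) = w RatFunc.X ^ m) := by
  obtain ⟨m, g, hg, hfg⟩ := WfDvdMonoid.max_power_factor hf
    (Polynomial.prime_X (R := k)).irreducible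
  refine ⟨m, fun w hwc hwX => ?_⟩
  rw [hfg, map_mul, map_pow, RatFunc.algebraMap_X, map_mul, map_pow,
    v_unit w hwc hwX g (fun h => hg (Polynomial.X_dvd_iff.mpr h)), mul_one]

include hc in
lemma v_zpow (hX : v RatFunc.X < 1) (f : RatFunc k) (hf : f ≠ 0) :
    ∃ m : ℤ, (∀ w : Valuation (RatFunc k) (WithZero (Multiplicative ℤ)),
      (∀ c : k, c ≠ 0 → w (RatFunc.C c) = 1) → w RatFunc.X < 1 →
      w f = w RatFunc.X ^ m) := by
  induction f using RatFunc.induction_on with
  | f p q hq =>
    have hp : p ≠ 0 := by rintro rfl; simp at hf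
    obtain ⟨m, hm⟩ := v_poly_pow v hc hX p hp
    obtain ⟨n, hn⟩ := v_poly_pow v hc hX q hq
    refine ⟨(m : ℤ) - n, fun w hwc hwX => ?_⟩
    have h0 : w RatFunc.X ≠ 0 := by
      rw [Valuation.ne_zero_iff]; exact RatFunc.X_ne_zero
    rw [map_div₀, hm w hwc hwX, hn w hwc hwX, zpow_sub₀ h0, zpow_natCast, zpow_natCast]

include hs hc in
lemma v_X_lt (hX : v RatFunc.X < 1) : v RatFunc.X = exp (-1 : ℤ) := by
  have h0 : v RatFunc.X ≠ 0 := by
    rw [Valuation.ne_zero_iff]; exact RatFunc.X_ne_zero
  obtain ⟨j, hj⟩ : ∃ j : ℤ, v RatFunc.X = exp j := ⟨log (v RatFunc.X), (exp_log h0).symm⟩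
  obtain ⟨f, hf⟩ := hs (exp (1 : ℤ))
  have hf0 : f ≠ 0 := by
    rintro rfl; rw [map_zero] at hf; exact (exp_ne_zero hf.symm)
  obtain ⟨m, hm⟩ := v_zpow v hc hX f hf0
  have h1 := hm v hc hX
  rw [hf, hj, ← exp_zsmul] at h1
  have h2 : (1 : ℤ) = m • j := exp_injective h1
  have h3 : j < 0 := by
    rw [hj, ← exp_zero] at hX
    exact exp_lt_exp.mp hX
  rw [smul_eq_mul] at h2
  have h4 : j = -1 := by
    rcases Int.eq_one_or_neg_one_of_mul_eq_one' h2.symm with h | h
    · omega
    · omega
  rw [hj, h4]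

include hs hc in
lemma v_X_gt (hX : 1 < v RatFunc.X) : v RatFunc.X = exp (1 : ℤ) := by
  haveI := triv v hc
  have h0 : v RatFunc.X ≠ 0 := by
    rw [Valuation.ne_zero_iff]; exact RatFunc.X_ne_zero
  obtain ⟨j, hj⟩ : ∃ j : ℤ, v RatFunc.X = exp j := ⟨log (v RatFunc.X), (exp_log h0).symm⟩
  obtain ⟨f, hf⟩ := hs (exp (1 : ℤ))
  have hf0 : f ≠ 0 := by
    rintro rfl; rw [map_zero] at hf; exact (exp_ne_zero hf.symm)
  have h1 := RatFunc.valuation_eq_valuation_X_zpow_intDegree_of_one_lt_valuation_X (v := v) hX hf0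
  rw [hf, hj, ← exp_zsmul] at h1
  have h2 : (1 : ℤ) = f.intDegree • j := exp_injective h1
  have h3 : 0 < j := by
    rw [hj, ← exp_zero] at hX
    exact exp_lt_exp.mp hX
  rw [smul_eq_mul] at h2
  have h4 : j = 1 := by
    rcases Int.eq_one_or_neg_one_of_mul_eq_one' h2.symm with h | h
    · omega
    · omega
  rw [hj, h4]

lemma unique_lt (v w : Valuation (RatFunc k) (WithZero (Multiplicative ℤ)))
    (hs : Function.Surjective v) (hc : ∀ c : k, c ≠ 0 → v (RatFunc.C c) = 1)
    (hs' : Function.Surjective w) (hc' : ∀ c : k, c ≠ 0 → w (RatFunc.C c) = 1)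
    (hX : v RatFunc.X < 1) (hX' : w RatFunc.X < 1) : v = w := by
  ext f
  by_cases hf : f = 0
  · simp [hf]
  · obtain ⟨m, hm⟩ := v_zpow v hc hX f hf
    rw [hm v hc hX, hm w hc' hX', v_X_lt v hs hc hX, v_X_lt w hs' hc' hX']

lemma unique_gt (v w : Valuation (RatFunc k) (WithZero (Multiplicative ℤ)))
    (hs : Function.Surjective v) (hc : ∀ c : k, c ≠ 0 → v (RatFunc.C c) = 1)
    (hs' : Function.Surjective w) (hc' : ∀ c : k, c ≠ 0 → w (RatFunc.C c) = 1)
    (hX : 1 < v RatFunc.X) (hX' : 1 < w RatFunc.X) : v = w := by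
  haveI := triv v hc
  haveI := triv w hc'
  ext f
  by_cases hf : f = 0
  · simp [hf]
  · rw [RatFunc.valuation_eq_valuation_X_zpow_intDegree_of_one_lt_valuation_X (v := v) hX hf,
      RatFunc.valuation_eq_valuation_X_zpow_intDegree_of_one_lt_valuation_X (v := w) hX' hf,
      v_X_gt v hs hc hX, v_X_gt w hs' hc' hX']

lemma map_coeff_zero (f : Polynomial (ZMod 2)) (hf : f.coeff 0 = 1) :
    (Polynomial.map (algebraMap (ZMod 2) k) f).coeff 0 ≠ 0 := by
  rw [Polynomial.coeff_map, hf, map_one]
  exact one_ne_zero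

include hs hc in
/-- contribution of the place above `X = 0` -/
lemma locHt_zero (hX : v RatFunc.X < 1) (n : ℕ) : locHt v (xx n) = -(ee n : ℤ) := by
  have hvX := v_X_lt v hs hc hX
  have hpow : v (emb (k := k) (Polynomial.X ^ ee n)) = exp (-(ee n : ℤ)) := by
    rw [map_pow, emb_X, map_pow, hvX, ← exp_nsmul]
    congr 1
    simp
  have hq : v (xx n 1) = exp (-(ee n : ℤ)) := by
    show v (emb (k := k) (Polynomial.X ^ ee n * qq n)) = _
    rw [map_mul, map_mul, hpow, emb_apply, v_unit v hc hX _ (map_coeff_zero _ (qq_coeff n)), mul_one]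
  apply locHt_eq
  · intro i
    fin_cases i
    · show v (emb (k := k) (Polynomial.X ^ ee n * pp n)) ≤ _
      rw [map_mul, map_mul, hpow, emb_apply]
      exact mul_le_of_le_one_right' (v_poly_le v hc hX.le _)
    · exact hq.le
  · exact ⟨1, hq⟩

include hs hc in
/-- contribution of the place at infinity -/
lemma locHt_infty (hX : 1 < v RatFunc.X) (n : ℕ) : locHt v (xx n) = 2 * 4 ^ n := by
  haveI := triv v hc
  have hvX := v_X_gt v hs hc hX
  have hval : ∀ f : Polynomial (ZMod 2), f ≠ 0 → v (emb (k := k) f) = exp (f.natDegree : ℤ) := by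
    intro f hf
    have hf' : Polynomial.map (algebraMap (ZMod 2) k) f ≠ 0 := by
      rw [Ne, Polynomial.map_eq_zero]; exact hf
    have := Polynomial.valuation_eq_valuation_X_pow_natDegree_of_one_lt_valuation_X k hX hf'
    rw [RatFunc.coePolynomial_eq_algebraMap] at this
    rw [emb_apply, this, hvX, ← exp_nsmul, emb_natDegree]
    congr 1
    simp
  have hXe : (Polynomial.X ^ ee n : Polynomial (ZMod 2)) ≠ 0 := pow_ne_zero _ Polynomial.X_ne_zero
  have hp : (Polynomial.X ^ ee n * pp n).natDegree = 2 * 4 ^ n := by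
    rw [Polynomial.natDegree_mul hXe (pp_ne_zero n), Polynomial.natDegree_X_pow, ← deg_add_ee n]
    ring
  have hq : (Polynomial.X ^ ee n * qq n).natDegree ≤ 2 * 4 ^ n := by
    rw [Polynomial.natDegree_mul hXe (qq_ne_zero n), Polynomial.natDegree_X_pow, ← deg_add_ee n]
    have := degs n
    have h2 : 1 ≤ 2 ^ n := Nat.one_le_two_pow
    omega
  have h0 : v (xx n 0) = exp (2 * 4 ^ n : ℤ) := by
    show v (emb (k := k) (Polynomial.X ^ ee n * pp n)) = _
    rw [hval _ (mul_ne_zero hXe (pp_ne_zero n)), hp]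
    push_cast
    rfl
  apply locHt_eq
  · intro i
    fin_cases i
    · exact h0.le
    · show v (emb (k := k) (Polynomial.X ^ ee n * qq n)) ≤ _
      rw [hval _ (mul_ne_zero hXe (qq_ne_zero n))]
      apply exp_le_exp.mpr
      exact_mod_cast hq
  · exact ⟨0, h0⟩

include hc in
/-- every other place contributes zero -/
lemma locHt_other (hX : v RatFunc.X = 1) (n : ℕ) : locHt v (xx n) = 0 := by
  have hle : ∀ f : Polynomial (ZMod 2), v (emb (k := k) f) ≤ 1 := by
    intro f
    rw [emb_apply]
    exact v_poly_le v hc hX.le _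
  have hXp : ∀ m : ℕ, v (emb (k := k) (Polynomial.X ^ m)) = 1 := by
    intro m
    rw [map_pow, emb_X, map_pow, hX, one_pow]
  -- the prime ideal of elements of value less than one
  let P : Ideal (Polynomial (ZMod 2)) :=
    { carrier := {f | v (emb (k := k) f) < 1}
      add_mem' := by
        intro a b ha hb
        show v (emb (k := k) (a + b)) < 1
        rw [map_add]
        exact lt_of_le_of_lt (v.map_add _ _) (max_lt ha hb)
      zero_mem' := by
        show v (emb (k := k) 0) < 1
        simp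
      smul_mem' := by
        intro a b hb
        show v (emb (k := k) (a • b)) < 1
        rw [smul_eq_mul, map_mul, map_mul]
        rw [mul_comm]
        exact mul_lt_one_of_lt_of_le hb (hle a) }
  have hmem : ∀ f, f ∈ P ↔ v (emb (k := k) f) < 1 := fun f => Iff.rfl
  haveI hP : P.IsPrime := by
    constructor
    · intro h
      have : (1 : Polynomial (ZMod 2)) ∈ P := by rw [h]; trivial
      rw [hmem, map_one, map_one] at this
      exact lt_irrefl _ this
    · intro a b hab
      rw [hmem, map_mul, map_mul] at hab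
      by_contra hcon
      push Not at hcon
      obtain ⟨ha, hb⟩ := hcon
      rw [hmem, not_lt] at ha hb
      have ha' : v (emb (k := k) a) = 1 := le_antisymm (hle a) ha
      have hb' : v (emb (k := k) b) = 1 := le_antisymm (hle b) hb
      rw [ha', hb', one_mul] at hab
      exact lt_irrefl _ hab
  have hnot : ¬ (pp n ∈ P ∧ qq n ∈ P) := by
    rintro ⟨h1, h2⟩
    have h3 := coprime_away n P h1 h2
    rw [hmem, emb_X, hX] at h3
    exact lt_irrefl _ h3
  have e0 : v (xx n 0) = v (emb (k := k) (pp n)) := by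
    show v (emb (k := k) (Polynomial.X ^ ee n * pp n)) = _
    rw [map_mul, map_mul, hXp, one_mul]
  have e1 : v (xx n 1) = v (emb (k := k) (qq n)) := by
    show v (emb (k := k) (Polynomial.X ^ ee n * qq n)) = _
    rw [map_mul, map_mul, hXp, one_mul]
  apply locHt_eq
  · intro i
    rw [exp_zero]
    fin_cases i
    · exact e0.le.trans (hle _)
    · exact e1.le.trans (hle _)
  · rw [exp_zero]
    by_cases h1 : pp n ∈ P
    · refine ⟨1, ?_⟩
      have h2 : qq n ∉ P := fun h => hnot ⟨h1, h⟩
      rw [hmem, not_lt] at h2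
      exact le_antisymm (e1.le.trans (hle _)) (by rw [e1]; exact h2)
    · refine ⟨0, ?_⟩
      rw [hmem, not_lt] at h1
      exact le_antisymm (e0.le.trans (hle _)) (by rw [e0]; exact h1)

/-- the place above `X = 0` -/
lemma exists_v0 : ∃ v : Valuation (RatFunc k) (WithZero (Multiplicative ℤ)),
    Function.Surjective v ∧ (∀ c : k, c ≠ 0 → v (RatFunc.C c) = 1) ∧ v RatFunc.X < 1 := by
  refine ⟨(Polynomial.idealX k).valuation (RatFunc k),
    IsDedekindDomain.HeightOneSpectrum.valuation_surjective _ _, ?_, ?_⟩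
  · intro c hcne
    rw [← RatFunc.algebraMap_C, IsDedekindDomain.HeightOneSpectrum.valuation_of_algebraMap]
    rw [IsDedekindDomain.HeightOneSpectrum.intValuation_eq_one_iff]
    rw [Polynomial.idealX_span, Ideal.mem_span_singleton, Polynomial.X_dvd_iff]
    simpa using hcne
  · rw [Polynomial.valuation_X_eq_neg_one, ← exp_zero]
    exact exp_lt_exp.mpr (by norm_num)

lemma exists_vinf : ∃ v : Valuation (RatFunc k) (WithZero (Multiplicative ℤ)),
    Function.Surjective v ∧ (∀ c : k, c ≠ 0 → v (RatFunc.C c) = 1) ∧ 1 < v RatFunc.X := by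
  classical
  refine ⟨RatFunc.inftyValuation k, ?_, ?_, ?_⟩
  · intro x
    by_cases hx : x = 0
    · exact ⟨0, by rw [map_zero, hx]⟩
    · exact ⟨RatFunc.X ^ (log x), by rw [RatFunc.inftyValuation.X_zpow, exp_log hx]⟩
  · intro c hcne
    exact RatFunc.inftyValuation.C _ hcne
  · rw [RatFunc.inftyValuation.X, ← exp_zero]
    exact exp_lt_exp.mpr (by norm_num)

/-- the height of the `n`-th iterate -/
lemma height_eq (n : ℕ) :
    (∑ᶠ v : {v : Valuation (RatFunc k) (WithZero (Multiplicative ℤ)) //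
      Function.Surjective v ∧ ∀ c : k, c ≠ 0 → v (RatFunc.C c) = 1},
      ((locHt v.1 (xx n) : ℤ) : ℝ)) = 2 * 4 ^ n - ee n := by
  classical
  obtain ⟨v0, hs0, hc0, hX0⟩ := exists_v0 (k := k)
  obtain ⟨v1, hs1, hc1, hX1⟩ := exists_vinf (k := k)
  set A : {v : Valuation (RatFunc k) (WithZero (Multiplicative ℤ)) //
      Function.Surjective v ∧ ∀ c : k, c ≠ 0 → v (RatFunc.C c) = 1} := ⟨v0, hs0, hc0⟩ with hA
  set B : {v : Valuation (RatFunc k) (WithZero (Multiplicative ℤ)) //
      Function.Surjective v ∧ ∀ c : k, c ≠ 0 → v (RatFunc.C c) = 1} := ⟨v1, hs1, hc1⟩ with hB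
  have hAB : A ≠ B := by
    intro h
    have : v0 = v1 := congrArg Subtype.val h
    rw [this] at hX0
    exact lt_asymm hX0 hX1
  rw [finsum_eq_sum_of_support_subset (s := {A, B})]
  · rw [Finset.sum_pair hAB]
    simp only [hA, hB]
    rw [locHt_zero v0 hs0 hc0 hX0, locHt_infty v1 hs1 hc1 hX1]
    push_cast
    ring
  · intro w hw
    rw [Function.mem_support] at hw
    rcases lt_trichotomy (w.1 RatFunc.X) 1 with h | h | h
    · have : w = A := Subtype.ext (unique_lt w.1 v0 w.2.1 w.2.2 hs0 hc0 h hX0)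
      simp [this]
    · exfalso
      apply hw
      rw [locHt_other w.1 w.2.2 h]
      simp
    · have : w = B := Subtype.ext (unique_gt w.1 v1 w.2.1 w.2.2 hs1 hc1 h hX1)
      simp [this]

/-- no rational number is the canonical height -/
theorem no_rational_limit (q : ℚ) (h : Tendsto (fun n : ℕ =>
    (∑ᶠ v : {v : Valuation (RatFunc k) (WithZero (Multiplicative ℤ)) //
      Function.Surjective v ∧ ∀ c : k, c ≠ 0 → v (RatFunc.C c) = 1},
      ((locHt v.1 (xx n) : ℤ) : ℝ)) / 4 ^ n) atTop (𝓝 (q : ℝ))) : False := by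
  apply not_rational (2 - q)
  have e : rr = fun n : ℕ => 2 - (∑ᶠ v : {v : Valuation (RatFunc k) (WithZero (Multiplicative ℤ)) //
      Function.Surjective v ∧ ∀ c : k, c ≠ 0 → v (RatFunc.C c) = 1},
      ((locHt v.1 (xx n) : ℤ) : ℝ)) / 4 ^ n := by
    funext n
    have h4 : (4 : ℝ) ^ n ≠ 0 := by positivity
    rw [height_eq n, rr]
    field_simp
    ring
  rw [e]
  push_cast
  exact tendsto_const_nhds.sub h

end places

end Pool.Agent.Helper259.Orbit2Main
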