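import Mathlib
import Pool.Agent.Helper259.EllHt

set_option autoImplicit false

namespace Pool.Agent.Helper259.Pts

open WeierstrassCurve WeierstrassCurve.Affine Pool.Agent.Helper259.EllHt

lemma coord (n : ℤ) (hn : n ≠ 0) : ∃ xy : ℚ × ℚ, ∃ h : W.toAffine.Nonsingular xy.1 xy.2,
    n • Q0 = Point.some xy.1 xy.2 h := by
  rcases e : n • Q0 with _ | ⟨x, y, h⟩
  · exact absurd (nontors n e) hn
  · exact ⟨(x, y), h, rfl⟩

/-- first coordinate of `n • Q0` -/
noncomputable def px (n : ℤ) : ℚ := if h : n ≠ 0 then (coord n h).choose.1 else 0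

/-- second coordinate of `n • Q0` -/
noncomputable def py (n : ℤ) : ℚ := if h : n ≠ 0 then (coord n h).choose.2 else 0

lemma spec {n : ℤ} (hn : n ≠ 0) : ∃ h : W.toAffine.Nonsingular (px n) (py n),
    n • Q0 = Point.some (px n) (py n) h := by
  have h := (coord n hn).choose_spec
  simp only [px, py, dif_pos hn]
  exact h

lemma of_eq {n : ℤ} (hn : n ≠ 0) {x y : ℚ} {h : W.toAffine.Nonsingular x y}
    (e : n • Q0 = Point.some x y h) : px n = x ∧ py n = y := by
  obtain ⟨h', e'⟩ := spec hn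
  rw [e'] at e
  injection e with h1 h2
  exact ⟨h1, h2⟩

lemma curve {n : ℤ} (hn : n ≠ 0) : py n ^ 2 = px n ^ 3 + 3 := by
  obtain ⟨h, -⟩ := spec hn
  exact W_eq h

lemma neg_coord {n : ℤ} (hn : n ≠ 0) : px (-n) = px n ∧ py (-n) = -py n := by
  obtain ⟨h, e⟩ := spec hn
  obtain ⟨h', e'⟩ := neg_pt h
  apply of_eq (neg_ne_zero.mpr hn) (h := h')
  rw [neg_smul, e, e']

lemma zsmul_inj {m n : ℤ} (h : m • Q0 = n • Q0) : m = n := by
  have : (m - n) • Q0 = 0 := by rw [sub_smul, h, sub_self]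
  have := nontors _ this
  omega

lemma px_inj {m n : ℤ} (hm : m ≠ 0) (hn : n ≠ 0) (h : px m = px n) : m = n ∨ m = -n := by
  obtain ⟨h1, e1⟩ := spec hm
  obtain ⟨h2, e2⟩ := spec hn
  rcases (Point.X_eq_iff (h₁ := h1) (h₂ := h2)).mp h with h3 | h3
  · left
    apply zsmul_inj
    rw [e1, e2, h3]
  · right
    apply zsmul_inj
    rw [e1, neg_smul, e2, h3]

lemma py_ne {n : ℤ} (hn : n ≠ 0) : py n ≠ 0 := by
  intro h
  obtain ⟨h1, e1⟩ := spec hn
  have h2 : n • Q0 + n • Q0 = 0 := by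
    rw [e1]
    apply Point.add_of_Y_eq rfl
    rw [negY_eq, h, neg_zero]
  rw [← add_zsmul] at h2
  have := nontors _ h2
  omega

lemma px_ne {n : ℤ} (hn : n ≠ 0) : px n ≠ 0 := by
  intro h
  have h1 := curve hn
  rw [h] at h1
  have h2 : (py n : ℝ) ^ 2 = 3 := by
    have : ((py n ^ 2 : ℚ) : ℝ) = ((0 ^ 3 + 3 : ℚ) : ℝ) := by rw [h1]
    push_cast at this
    linarith
  have h3 : Irrational (Real.sqrt 3) := by
    have := Nat.Prime.irrational_sqrt (show Nat.Prime 3 by norm_num)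
    exact_mod_cast this
  apply h3
  refine ⟨|py n|, ?_⟩
  push_cast
  rw [← Real.sqrt_sq_eq_abs, h2]

lemma py_inj {m n : ℤ} (hm : m ≠ 0) (hn : n ≠ 0) (h : py m = py n) : m = n := by
  have h1 := curve hm
  have h2 := curve hn
  rw [h, h2] at h1
  have h3 : px n ^ 3 = px m ^ 3 := by linarith
  have h4 : px n = px m := (Odd.strictMono_pow (by decide : Odd 3)).injective h3
  rcases px_inj hm hn h4.symm with h5 | h5
  · exact h5
  · exfalso
    have h6 := (neg_coord hn).2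
    rw [← h5, h] at h6
    exact py_ne hn (by linarith)

lemma py_neg_inj {m n : ℤ} (hm : m ≠ 0) (hn : n ≠ 0) (h : py m = -py n) : m = -n := by
  apply py_inj hm (neg_ne_zero.mpr hn)
  rw [h, (neg_coord hn).2]

lemma add_coord {m n : ℤ} (hm : m ≠ 0) (hn : n ≠ 0) (h1 : m ≠ n) (h2 : m ≠ -n) :
    px (m + n) = ((py m - py n) / (px m - px n)) ^ 2 - px m - px n ∧
    py (m + n) = -(py m + (py m - py n) / (px m - px n) * (px (m + n) - px m)) := by
  obtain ⟨e1, e1'⟩ := spec hm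
  obtain ⟨e2, e2'⟩ := spec hn
  have hx : px m ≠ px n := by
    intro h
    rcases px_inj hm hn h with h | h
    · exact h1 h
    · exact h2 h
  obtain ⟨X, Y, hn', e, hX, hY⟩ := add_ne e1 e2 hx
  have hmn : m + n ≠ 0 := by omega
  obtain ⟨h3, h4⟩ := of_eq hmn (h := hn') (by rw [add_zsmul, e1', e2', e])
  rw [h3, h4]
  exact ⟨hX, hY⟩

lemma dbl_coord {n : ℤ} (hn : n ≠ 0) :
    px (2 * n) = (3 * px n ^ 2 / (2 * py n)) ^ 2 - px n - px n ∧
    py (2 * n) = -(py n + 3 * px n ^ 2 / (2 * py n) * (px (2 * n) - px n)) := by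
  obtain ⟨e1, e1'⟩ := spec hn
  obtain ⟨X, Y, hn', e, hX, hY⟩ := dbl e1 (py_ne hn)
  obtain ⟨h3, h4⟩ := of_eq (n := 2 * n) (by omega) (h := hn') (by
    rw [two_mul, add_zsmul, e1', e])
  rw [h3, h4]
  exact ⟨hX, hY⟩

/-! ### scaled formulas -/

section Formulas

variable {K : Type*} [Field K]

def tau (u1 u2 w : K) : K :=
  2 * ((u1 ^ 3 - 1) - w * (u2 ^ 3 - 1)) / (w ^ 2 * (u2 ^ 3 - 1) - (u1 ^ 3 - 1))
def kap (u2 t : K) : K := (u2 ^ 3 - 1) / (t * (2 + t))
def addX (κ X1 Y1 X2 Y2 : K) : K := κ * ((Y1 - Y2) / (X1 - X2)) ^ 2 - X1 - X2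
def addY (κ X1 Y1 X2 Y2 : K) : K :=
  -(Y1 + (Y1 - Y2) / (X1 - X2) * (addX κ X1 Y1 X2 Y2 - X1))
def dblX (κ X Y : K) : K := κ * (3 * X ^ 2 / (2 * κ * Y)) ^ 2 - X - X
def dblY (κ X Y : K) : K := -(Y + 3 * X ^ 2 / (2 * κ * Y) * (dblX κ X Y - X))

end Formulas

/-- data at the triple `(A, B, C)` -/
lemma tau_val {A B C : ℤ} (hA : A ≠ 0) (hB : B ≠ 0) (hC : C ≠ 0) (hAB : A ≠ B)
    (hAC : A ≠ C) (hBC : B ≠ C) (hBC' : B ≠ -C) :
    tau (px A / px C) (px B / px C) ((py A - py C) / (py B - py C)) = py B / py C - 1 ∧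
    kap (px B / px C) (py B / py C - 1) = py C ^ 2 / px C ^ 3 ∧
    ((py A - py C) / (py B - py C)) ^ 2 * ((px B / px C) ^ 3 - 1) - ((px A / px C) ^ 3 - 1) ≠ 0 ∧
    (py B / py C - 1) * (2 + (py B / py C - 1)) ≠ 0 := by
  have cA := curve hA
  have cB := curve hB
  have cC := curve hC
  have xC := px_ne hC
  have yC := py_ne hC
  have d1 : py B - py C ≠ 0 := sub_ne_zero.mpr fun h => hBC (py_inj hB hC h)
  have d2 : py B + py C ≠ 0 := fun h => hBC' (py_neg_inj hB hC (by linarith))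
  have d3 : py A - py C ≠ 0 := sub_ne_zero.mpr fun h => hAC (py_inj hA hC h)
  have d4 : py A - py B ≠ 0 := sub_ne_zero.mpr fun h => hAB (py_inj hA hB h)
  have eA : (px A / px C) ^ 3 - 1 = (py A ^ 2 - py C ^ 2) / px C ^ 3 := by
    rw [cA, cC]; field_simp; ring
  have eB : (px B / px C) ^ 3 - 1 = (py B ^ 2 - py C ^ 2) / px C ^ 3 := by
    rw [cB, cC]; field_simp; ring
  have e3 : ((py A - py C) / (py B - py C)) ^ 2 * ((px B / px C) ^ 3 - 1) -
      ((px A / px C) ^ 3 - 1) =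
      2 * py C * (py A - py C) * (py A - py B) / ((py B - py C) * px C ^ 3) := by
    rw [eA, eB]; field_simp; ring
  have n3 : ((py A - py C) / (py B - py C)) ^ 2 * ((px B / px C) ^ 3 - 1) -
      ((px A / px C) ^ 3 - 1) ≠ 0 := by
    rw [e3]
    exact div_ne_zero (mul_ne_zero (mul_ne_zero (mul_ne_zero two_ne_zero yC) d3) d4)
      (mul_ne_zero d1 (pow_ne_zero _ xC))
  have n4 : (py B / py C - 1) * (2 + (py B / py C - 1)) ≠ 0 := by
    have : (py B / py C - 1) * (2 + (py B / py C - 1)) =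
        (py B - py C) * (py B + py C) / py C ^ 2 := by field_simp; ring
    rw [this]
    exact div_ne_zero (mul_ne_zero d1 d2) (pow_ne_zero _ yC)
  refine ⟨?_, ?_, n3, n4⟩
  · rw [tau, div_eq_iff n3, e3, eA, eB]
    field_simp
    ring
  · rw [kap, div_eq_iff n4, eB]
    field_simp
    ring

lemma addX_val {A B C : ℤ} (hA : A ≠ 0) (hB : B ≠ 0) (hC : C ≠ 0) (hAB : A ≠ B)
    (hAB' : A ≠ -B) :
    addX (py C ^ 2 / px C ^ 3) (px A / px C) (py A / py C) (px B / px C) (py B / py C) =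
      px (A + B) / px C ∧
    addY (py C ^ 2 / px C ^ 3) (px A / px C) (py A / py C) (px B / px C) (py B / py C) =
      py (A + B) / py C ∧ px A / px C - px B / px C ≠ 0 := by
  obtain ⟨h1, h2⟩ := add_coord hA hB hAB hAB'
  have xC := px_ne hC
  have yC := py_ne hC
  have d1 : px A - px B ≠ 0 := sub_ne_zero.mpr fun h => by
    rcases px_inj hA hB h with h | h
    · exact hAB h
    · exact hAB' h
  have d2 : px A / px C - px B / px C ≠ 0 := by
    rw [← sub_div]; exact div_ne_zero d1 xC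
  have e1 : addX (py C ^ 2 / px C ^ 3) (px A / px C) (py A / py C) (px B / px C)
      (py B / py C) = px (A + B) / px C := by
    rw [addX, h1]
    have : (py A / py C - py B / py C) / (px A / px C - px B / px C) =
        (py A - py B) / (px A - px B) * (px C / py C) := by
      rw [← sub_div, ← sub_div]; field_simp
    rw [this]
    field_simp
  refine ⟨e1, ?_, d2⟩
  rw [addY, e1, h2]
  have : (py A / py C - py B / py C) / (px A / px C - px B / px C) =
      (py A - py B) / (px A - px B) * (px C / py C) := by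
    rw [← sub_div, ← sub_div]; field_simp
  rw [this]
  field_simp

lemma dblX_val {A C : ℤ} (hA : A ≠ 0) (hC : C ≠ 0) :
    dblX (py C ^ 2 / px C ^ 3) (px A / px C) (py A / py C) = px (2 * A) / px C ∧
    dblY (py C ^ 2 / px C ^ 3) (px A / px C) (py A / py C) = py (2 * A) / py C ∧
    2 * (py C ^ 2 / px C ^ 3) * (py A / py C) ≠ 0 := by
  obtain ⟨h1, h2⟩ := dbl_coord hA
  have xC := px_ne hC
  have yC := py_ne hC
  have yA := py_ne hA
  have d : 2 * (py C ^ 2 / px C ^ 3) * (py A / py C) ≠ 0 :=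
    mul_ne_zero (mul_ne_zero two_ne_zero (div_ne_zero (pow_ne_zero _ yC) (pow_ne_zero _ xC)))
      (div_ne_zero yA yC)
  have e0 : 3 * (px A / px C) ^ 2 / (2 * (py C ^ 2 / px C ^ 3) * (py A / py C)) =
      3 * px A ^ 2 / (2 * py A) * (px C / py C) := by
    field_simp
  have e1 : dblX (py C ^ 2 / px C ^ 3) (px A / px C) (py A / py C) = px (2 * A) / px C := by
    rw [dblX, e0, h1]
    field_simp
  refine ⟨e1, ?_, d⟩
  rw [dblY, e1, e0, h2]
  field_simp

end Pool.Agent.Helper259.Pts
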