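import Mathlib
import Pool.Agent.Helper259.HtDef

set_option autoImplicit false

namespace Pool.Agent.Helper259.RatDef

open Pool.Agent.Helper259.AbsHt

/-- The `Qbar`-points of projective `n`-space. -/
abbrev PSpace (n : ℕ) : Type := Projectivization Qbar (Fin (n + 1) → Qbar)

/-- Absolute logarithmic Weil height of a point of projective space. -/
noncomputable def ht {n : ℕ} (P : PSpace n) : ℝ := absLogHeight P.rep

/-- Zariski open subsets of projective space: the points at which some form of a given family
of forms does not vanish. -/
def IsZariskiOpen {n : ℕ} (U : Set (PSpace n)) : Prop :=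
  ∃ T : Set (MvPolynomial (Fin (n + 1)) Qbar), (∀ F ∈ T, ∃ e : ℕ, F.IsHomogeneous e) ∧
    U = {P : PSpace n | ∃ F ∈ T, MvPolynomial.eval P.rep F ≠ 0}

/-- A set of points is Zariski dense if it meets every nonempty Zariski open set. -/
def IsZariskiDense {n : ℕ} (S : Set (PSpace n)) : Prop :=
  ∀ U : Set (PSpace n), IsZariskiOpen U → U.Nonempty → ∃ P ∈ S, P ∈ U

/-- A rational map of degree `d` from projective `n`-space to itself: `n + 1` forms of degree `d`
without common factor. -/
structure RatMap (n d : ℕ) where
  /-- the forms -/
  form : Fin (n + 1) → MvPolynomial (Fin (n + 1)) Qbar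
  homogeneous : ∀ i, (form i).IsHomogeneous d
  coprime : ∀ G : MvPolynomial (Fin (n + 1)) Qbar, (∀ i, G ∣ form i) → IsUnit G

namespace RatMap

variable {n d : ℕ}

/-- `f` is defined at `P` if the forms do not all vanish at `P`. -/
def DefinedAt (f : RatMap n d) (P : PSpace n) : Prop :=
  (fun i => MvPolynomial.eval P.rep (f.form i)) ≠ 0

/-- the value of `f` at a point where it is defined -/
noncomputable def value (f : RatMap n d) (P : PSpace n) (hP : f.DefinedAt P) : PSpace n :=
  Projectivization.mk Qbar (fun i => MvPolynomial.eval P.rep (f.form i)) hP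

/-- `f` is dominant if its image is Zariski dense. -/
def IsDominant (f : RatMap n d) : Prop :=
  IsZariskiDense {Q : PSpace n | ∃ (P : PSpace n) (hP : f.DefinedAt P), f.value P hP = Q}

end RatMap

end Pool.Agent.Helper259.RatDef
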