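import Mathlib
import Pool.Agent.Helper259.HtDef
import Pool.Agent.Helper259.AbsHt
import Pool.Agent.Helper259.RatDef

set_option autoImplicit false

namespace Pool.Agent.Helper259.RatMaps

open Pool.Agent.Helper259.AbsHt Pool.Agent.Helper259.RatDef MvPolynomial

/-! ### factors of homogeneous polynomials -/

section Factor

variable {σ K : Type*} [Field K]

/-- `X i ↦ t X i` -/
noncomputable def Φ (σ K : Type*) [Field K] : MvPolynomial σ K →ₐ[K] Polynomial (MvPolynomial σ K) :=
  aeval fun i => Polynomial.C (X i) * Polynomial.X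

lemma Φ_monomial (c : σ →₀ ℕ) (a : K) :
    Φ σ K (monomial c a) = Polynomial.C (monomial c a) * Polynomial.X ^ c.degree := by
  rw [Φ, aeval_monomial, monomial_eq, Finsupp.prod, Finsupp.prod, map_mul, map_prod]
  simp only [mul_pow, map_pow]
  rw [Finset.prod_mul_distrib, Finset.prod_pow_eq_pow_sum, Finsupp.degree_apply, ← mul_assoc]
  rfl

lemma Φ_coeff (p : MvPolynomial σ K) (j : ℕ) :
    (Φ σ K p).coeff j = homogeneousComponent j p := by
  induction p using MvPolynomial.induction_on' with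
  | monomial c a =>
    rw [Φ_monomial, Polynomial.coeff_C_mul_X_pow]
    rw [homogeneousComponent_of_mem (isHomogeneous_monomial a rfl)]
  | add p q hp hq => rw [map_add, Polynomial.coeff_add, hp, hq, map_add]

lemma Φ_homog {p : MvPolynomial σ K} {e : ℕ} (hp : p.IsHomogeneous e) :
    Φ σ K p = Polynomial.C p * Polynomial.X ^ e := by
  ext1 j
  rw [Φ_coeff, Polynomial.coeff_C_mul_X_pow, homogeneousComponent_of_mem hp]

lemma Φ_ne_zero {p : MvPolynomial σ K} (hp : p ≠ 0) : Φ σ K p ≠ 0 := by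
  intro h
  apply hp
  rw [← sum_homogeneousComponent p]
  apply Finset.sum_eq_zero
  intro j _
  rw [← Φ_coeff, h, Polynomial.coeff_zero]

/-- a factor of a nonzero homogeneous polynomial is homogeneous -/
lemma homog_of_mul {p q : MvPolynomial σ K} {D : ℕ} (h : (p * q).IsHomogeneous D)
    (h0 : p * q ≠ 0) : ∃ e, p.IsHomogeneous e ∧ q.IsHomogeneous (D - e) ∧ e ≤ D := by
  have hp0 : p ≠ 0 := left_ne_zero_of_mul h0
  have hq0 : q ≠ 0 := right_ne_zero_of_mul h0
  have hP := Φ_ne_zero hp0
  have hQ := Φ_ne_zero hq0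
  have h1 : Φ σ K p * Φ σ K q = Polynomial.C (p * q) * Polynomial.X ^ D := by
    rw [← map_mul, Φ_homog h]
  have hdeg : (Φ σ K p).natDegree + (Φ σ K q).natDegree = D := by
    rw [← Polynomial.natDegree_mul hP hQ, h1, Polynomial.natDegree_C_mul_X_pow _ _ h0]
  have htr : (Φ σ K p).natTrailingDegree + (Φ σ K q).natTrailingDegree = D := by
    rw [← Polynomial.natTrailingDegree_mul hP hQ, h1, Polynomial.C_mul_X_pow_eq_monomial,
      Polynomial.natTrailingDegree_monomial h0]
  have hle1 := Polynomial.natTrailingDegree_le_natDegree (Φ σ K p)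
  have hle2 := Polynomial.natTrailingDegree_le_natDegree (Φ σ K q)
  have key : ∀ r : MvPolynomial σ K, (Φ σ K r).natTrailingDegree = (Φ σ K r).natDegree →
      r.IsHomogeneous (Φ σ K r).natDegree := by
    intro r hr c hc
    have h2 : (Φ σ K r).coeff c.degree ≠ 0 := by
      rw [Φ_coeff]
      intro h
      have h5 := congrArg (coeff c) h
      rw [coeff_homogeneousComponent, if_pos rfl, coeff_zero] at h5
      exact hc h5
    have h3 := Polynomial.natTrailingDegree_le_of_ne_zero h2
    have h4 := Polynomial.le_natDegree_of_ne_zero h2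
    have h5 : Finsupp.weight 1 c = c.degree := by rw [Finsupp.degree_eq_weight_one]; rfl
    rw [h5]
    omega
  refine ⟨(Φ σ K p).natDegree, key p (by omega), ?_, by omega⟩
  have := key q (by omega)
  rwa [show (Φ σ K q).natDegree = D - (Φ σ K p).natDegree by omega] at this

end Factor

/-! ### homogenization -/

section Hom

variable {m : ℕ}

lemma eval_smul {n : ℕ} {F : MvPolynomial (Fin (n + 1)) Qbar} {d : ℕ} (hF : F.IsHomogeneous d)
    (c : Qbar) (x : Fin (n + 1) → Qbar) :
    MvPolynomial.eval (c • x) F = c ^ d * MvPolynomial.eval x F := by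
  rw [MvPolynomial.eval_eq', MvPolynomial.eval_eq', Finset.mul_sum]
  refine Finset.sum_congr rfl fun s hs => ?_
  have hdeg : ∑ i, s i = d := by
    have h := hF (MvPolynomial.mem_support_iff.mp hs)
    have h2 : Finsupp.degree s = d := by
      rw [← h, Finsupp.degree_eq_weight_one]; rfl
    rw [← h2, Finsupp.degree_eq_sum]
  simp only [Pi.smul_apply, smul_eq_mul, mul_pow]
  rw [Finset.prod_mul_distrib, Finset.prod_pow_eq_pow_sum, hdeg]
  ring

lemma ht_mk {n : ℕ} (x : Fin (n + 1) → Qbar) (hx : x ≠ 0) :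
    ht (Projectivization.mk Qbar x hx : PSpace n) = absLogHeight x := by
  obtain ⟨a, ha⟩ := Projectivization.exists_smul_eq_mk_rep Qbar x hx
  rw [ht, ← ha]
  exact absLogHeight_smul x a.ne_zero

lemma eval_mk {n : ℕ} {F : MvPolynomial (Fin (n + 1)) Qbar} {d : ℕ} (hF : F.IsHomogeneous d)
    (x : Fin (n + 1) → Qbar) (hx : x ≠ 0) :
    MvPolynomial.eval (Projectivization.mk Qbar x hx : PSpace n).rep F ≠ 0 ↔
      MvPolynomial.eval x F ≠ 0 := by
  obtain ⟨a, ha⟩ := Projectivization.exists_smul_eq_mk_rep Qbar x hx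
  rw [← ha, show (a • x : Fin (n + 1) → Qbar) = (a : Qbar) • x from rfl, eval_smul hF]
  simp [a.ne_zero]

/-- a nonzero polynomial is nonzero at a point with nonzero first coordinate -/
lemma exists_point {n : ℕ} (F : MvPolynomial (Fin (n + 1)) Qbar) (hF : F ≠ 0) :
    ∃ x : Fin (n + 1) → Qbar, x 0 ≠ 0 ∧ MvPolynomial.eval x F ≠ 0 := by
  by_contra hcon
  push Not at hcon
  have h1 : F * MvPolynomial.X 0 = 0 := by
    apply MvPolynomial.funext
    intro x
    rw [map_mul, MvPolynomial.eval_X, map_zero]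
    by_cases hx : x 0 = 0
    · rw [hx, mul_zero]
    · rw [hcon x hx, zero_mul]
  rcases mul_eq_zero.mp h1 with h | h
  · exact hF h
  · exact MvPolynomial.X_ne_zero _ h

/-- the affine point `[1 : a]` in coordinates -/
noncomputable def aff (a : Fin m → Qbar) : Fin (m + 1) → Qbar := Fin.cons 1 a

lemma aff_ne (a : Fin m → Qbar) : aff a ≠ 0 := by
  intro h
  have := congrFun h 0
  simp [aff] at this

lemma exists_aff {n e : ℕ} {F : MvPolynomial (Fin (n + 1)) Qbar} (he : F.IsHomogeneous e)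
    (hF : F ≠ 0) : ∃ a : Fin n → Qbar, eval (aff a) F ≠ 0 := by
  obtain ⟨x, hx0, hx⟩ := exists_point F hF
  refine ⟨fun i => (x 0)⁻¹ * x i.succ, ?_⟩
  have : aff (fun i => (x 0)⁻¹ * x i.succ) = (x 0)⁻¹ • x := by
    funext i
    refine Fin.cases ?_ (fun j => ?_) i
    · simp [aff, hx0]
    · simp [aff]
  rw [this, eval_smul he]
  exact mul_ne_zero (pow_ne_zero _ (inv_ne_zero hx0)) hx

/-- homogenization -/
noncomputable def hom (D : ℕ) (p : MvPolynomial (Fin m) Qbar) :
    MvPolynomial (Fin (m + 1)) Qbar :=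
  ∑ c ∈ p.support, monomial (Finsupp.cons (D - c.degree) c) (coeff c p)

lemma hom_homog {D : ℕ} {p : MvPolynomial (Fin m) Qbar} (hD : p.totalDegree ≤ D) :
    (hom D p).IsHomogeneous D := by
  refine IsHomogeneous.sum _ _ _ fun c hc => isHomogeneous_monomial _ ?_
  have h1 : c.degree ≤ D := by
    refine le_trans ?_ hD
    have := le_totalDegree hc
    rwa [Finsupp.sum_fintype _ _ (by simp), ← Finsupp.degree_eq_sum] at this
  rw [Finsupp.degree_eq_sum, Fin.sum_univ_succ]
  simp only [Finsupp.cons_zero, Finsupp.cons_succ]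
  rw [← Finsupp.degree_eq_sum]
  omega

lemma eval_hom (D : ℕ) (p : MvPolynomial (Fin m) Qbar) (a : Fin m → Qbar) :
    eval (aff a) (hom D p) = eval a p := by
  rw [hom, map_sum, eval_eq']
  refine Finset.sum_congr rfl fun c _ => ?_
  rw [eval_monomial, Finsupp.prod_fintype _ _ (by simp), Fin.prod_univ_succ]
  simp [aff]

/-- a rational function is regular at a point with a given value -/
def EvalsTo (r : FractionRing (MvPolynomial (Fin m) Qbar)) (a : Fin m → Qbar) (c : Qbar) : Prop :=
  ∃ p q : MvPolynomial (Fin m) Qbar, eval a q ≠ 0 ∧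
    r * algebraMap _ (FractionRing (MvPolynomial (Fin m) Qbar)) q = algebraMap _ _ p ∧
    c * eval a q = eval a p

/-- the function field -/
abbrev FF (m : ℕ) : Type := FractionRing (MvPolynomial (Fin m) Qbar)

namespace EvalsTo

lemma inj : Function.Injective (algebraMap (MvPolynomial (Fin m) Qbar) (FF m)) :=
  IsFractionRing.injective _ _

lemma ofPoly (p : MvPolynomial (Fin m) Qbar) (a : Fin m → Qbar) :
    EvalsTo (algebraMap (MvPolynomial (Fin m) Qbar) (FF m) p) a (eval a p) :=
  ⟨p, 1, by simp, by simp, by simp⟩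

lemma const (c : Qbar) (a : Fin m → Qbar) :
    EvalsTo (algebraMap (MvPolynomial (Fin m) Qbar) (FF m) (C c)) a c := by
  have := ofPoly (C c) a
  rwa [eval_C] at this

lemma var (i : Fin m) (a : Fin m → Qbar) :
    EvalsTo (algebraMap (MvPolynomial (Fin m) Qbar) (FF m) (X i)) a (a i) := by
  have := ofPoly (X i) a
  rwa [eval_X] at this

variable {r s : FF m} {a : Fin m → Qbar} {c e : Qbar}

lemma add (hr : EvalsTo r a c) (hs : EvalsTo s a e) : EvalsTo (r + s) a (c + e) := by
  obtain ⟨p, q, hq, h1, h2⟩ := hr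
  obtain ⟨p', q', hq', h1', h2'⟩ := hs
  refine ⟨p * q' + p' * q, q * q', ?_, ?_, ?_⟩
  · rw [map_mul]; exact mul_ne_zero hq hq'
  · rw [map_mul, map_add, map_mul, map_mul, ← h1, ← h1']; ring
  · rw [map_mul, map_add, map_mul, map_mul, ← h2, ← h2']; ring

lemma mul (hr : EvalsTo r a c) (hs : EvalsTo s a e) : EvalsTo (r * s) a (c * e) := by
  obtain ⟨p, q, hq, h1, h2⟩ := hr
  obtain ⟨p', q', hq', h1', h2'⟩ := hs
  refine ⟨p * p', q * q', ?_, ?_, ?_⟩
  · rw [map_mul]; exact mul_ne_zero hq hq'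
  · rw [map_mul, map_mul, ← h1, ← h1']; ring
  · rw [map_mul, map_mul, ← h2, ← h2']; ring

lemma neg (hr : EvalsTo r a c) : EvalsTo (-r) a (-c) := by
  obtain ⟨p, q, hq, h1, h2⟩ := hr
  refine ⟨-p, q, hq, ?_, ?_⟩
  · rw [map_neg, ← h1]; ring
  · rw [map_neg, ← h2]; ring

lemma sub (hr : EvalsTo r a c) (hs : EvalsTo s a e) : EvalsTo (r - s) a (c - e) := by
  rw [sub_eq_add_neg, sub_eq_add_neg]
  exact hr.add hs.neg

lemma inv (hr : EvalsTo r a c) (hc : c ≠ 0) : EvalsTo r⁻¹ a c⁻¹ := by
  obtain ⟨p, q, hq, h1, h2⟩ := hr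
  have hp : eval a p ≠ 0 := by rw [← h2]; exact mul_ne_zero hc hq
  have hp0 : p ≠ 0 := by rintro rfl; exact hp (map_zero _)
  have hr0 : r ≠ 0 := by
    rintro rfl
    rw [zero_mul] at h1
    exact hp0 (inj (by rw [← h1, map_zero]))
  refine ⟨q, p, hp, ?_, ?_⟩
  · rw [← h1, inv_mul_cancel_left₀ hr0]
  · rw [← h2, inv_mul_cancel_left₀ hc]

lemma div (hr : EvalsTo r a c) (hs : EvalsTo s a e) (he : e ≠ 0) : EvalsTo (r / s) a (c / e) := by
  rw [div_eq_mul_inv, div_eq_mul_inv]
  exact hr.mul (hs.inv he)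

lemma pow (hr : EvalsTo r a c) (n : ℕ) : EvalsTo (r ^ n) a (c ^ n) := by
  induction n with
  | zero => simpa using const 1 a
  | succ n ih => rw [pow_succ, pow_succ]; exact ih.mul hr

lemma ofNat (n : ℕ) : EvalsTo (n : FF m) a (n : Qbar) := by
  have := ofPoly (n : MvPolynomial (Fin m) Qbar) a
  simpa using this

end EvalsTo

lemma value_mk {n d : ℕ} (f : RatMap n d) (x : Fin (n + 1) → Qbar) (hx : x ≠ 0)
    (hv : (fun i => MvPolynomial.eval x (f.form i)) ≠ 0) :
    ∃ h : f.DefinedAt (Projectivization.mk Qbar x hx),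
      f.value (Projectivization.mk Qbar x hx) h = Projectivization.mk Qbar _ hv := by
  obtain ⟨a, ha⟩ := Projectivization.exists_smul_eq_mk_rep Qbar x hx
  have h1 : (fun i => MvPolynomial.eval (Projectivization.mk Qbar x hx).rep (f.form i)) =
      (a : Qbar) ^ d • (fun i => MvPolynomial.eval x (f.form i)) := by
    funext i
    rw [← ha, show (a • x : Fin (n + 1) → Qbar) = (a : Qbar) • x from rfl,
      eval_smul (f.homogeneous i)]
    rfl
  have ha0 : (a : Qbar) ^ d ≠ 0 := pow_ne_zero _ a.ne_zero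
  have h : f.DefinedAt (Projectivization.mk Qbar x hx) := by
    rw [RatMap.DefinedAt, h1]
    exact smul_ne_zero ha0 hv
  exact ⟨h, (Projectivization.mk_eq_mk_iff' Qbar _ _ h hv).mpr ⟨(a : Qbar) ^ d, h1.symm⟩⟩

/-- **Existence of rational maps** with prescribed affine coordinate functions. -/
theorem exists_ratMap (r : Fin m → FF m) : ∃ (d : ℕ) (f : RatMap m d),
    ∀ a c : Fin m → Qbar, (∀ i, EvalsTo (r i) a (c i)) →
      ∃ h : f.DefinedAt (Projectivization.mk Qbar (aff a) (aff_ne a)),
        f.value _ h = Projectivization.mk Qbar (aff c) (aff_ne c) := by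
  classical
  obtain ⟨⟨b, hb⟩, hint⟩ := IsLocalization.exist_integer_multiples_of_finite
    (nonZeroDivisors (MvPolynomial (Fin m) Qbar)) r
  have hb0 : b ≠ 0 := nonZeroDivisors.ne_zero hb
  choose p hp using hint
  have hp' : ∀ i, r i * algebraMap _ (FF m) b = algebraMap _ (FF m) (p i) := by
    intro i
    rw [hp i, mul_comm]
    simp [Algebra.smul_def]
  -- common degree
  set D := max b.totalDegree (Finset.univ.sup fun i => (p i).totalDegree) with hD
  have hDb : b.totalDegree ≤ D := le_max_left _ _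
  have hDp : ∀ i, (p i).totalDegree ≤ D := fun i =>
    (Finset.le_sup (f := fun i => (p i).totalDegree) (Finset.mem_univ i)).trans (le_max_right _ _)
  let bp : Fin (m + 1) → MvPolynomial (Fin m) Qbar := Fin.cons b p
  let F : Fin (m + 1) → MvPolynomial (Fin (m + 1)) Qbar := fun i => hom D (bp i)
  have hbpD : ∀ i, (bp i).totalDegree ≤ D := by
    intro i
    refine Fin.cases ?_ (fun j => ?_) i
    · exact hDb
    · exact hDp j
  have hFhom : ∀ i, (F i).IsHomogeneous D := fun i => hom_homog (hbpD i)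
  have hF0 : F 0 ≠ 0 := by
    intro h
    apply hb0
    apply MvPolynomial.funext
    intro a
    have := eval_hom D b a
    rw [show hom D b = F 0 from rfl, h, map_zero] at this
    rw [← this, map_zero]
  let _ : NormalizedGCDMonoid (MvPolynomial (Fin (m + 1)) Qbar) := Classical.arbitrary _
  obtain ⟨g, hg, hg1⟩ := Finset.extract_gcd F (s := Finset.univ) ⟨0, Finset.mem_univ _⟩
  set G := Finset.univ.gcd F with hG
  have hG0 : G ≠ 0 := by
    intro h
    apply hF0
    rw [hg 0 (Finset.mem_univ _), h, zero_mul]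
  have hg0 : g 0 ≠ 0 := by
    intro h
    apply hF0
    rw [hg 0 (Finset.mem_univ _), h, mul_zero]
  obtain ⟨e, hGe, hg0e, heD⟩ : ∃ e, G.IsHomogeneous e ∧ (g 0).IsHomogeneous (D - e) ∧ e ≤ D :=
    homog_of_mul (by rw [← hg 0 (Finset.mem_univ _)]; exact hFhom 0)
      (by rw [← hg 0 (Finset.mem_univ _)]; exact hF0)
  have hghom : ∀ i, (g i).IsHomogeneous (D - e) := by
    intro i
    by_cases hi : g i = 0
    · rw [hi]; exact isHomogeneous_zero _ _ _
    · obtain ⟨e', h1, h2, -⟩ := homog_of_mul (p := G) (q := g i) (D := D)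
        (by rw [← hg i (Finset.mem_univ _)]; exact hFhom i) (mul_ne_zero hG0 hi)
      rwa [h1.inj_right hGe hG0] at h2
  have hcop : ∀ H : MvPolynomial (Fin (m + 1)) Qbar, (∀ i, H ∣ g i) → IsUnit H := by
    intro H hH
    apply isUnit_of_dvd_one
    rw [← hg1]
    exact Finset.dvd_gcd fun i _ => hH i
  refine ⟨D - e, ⟨g, hghom, hcop⟩, fun a c hac => ?_⟩
  choose p' q' hq' h1 h2 using hac
  set Q : MvPolynomial (Fin m) Qbar := ∏ i, q' i with hQ
  let P : Fin m → MvPolynomial (Fin m) Qbar := fun i => p' i * ∏ j ∈ Finset.univ.erase i, q' j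
  have hQi : ∀ i, Q = q' i * ∏ j ∈ Finset.univ.erase i, q' j := fun i =>
    (Finset.mul_prod_erase _ _ (Finset.mem_univ i)).symm
  have hQa : eval a Q ≠ 0 := by
    rw [hQ, map_prod]
    exact Finset.prod_ne_zero_iff.mpr fun i _ => hq' i
  have hP1 : ∀ i, r i * algebraMap _ (FF m) Q = algebraMap _ (FF m) (P i) := by
    intro i
    rw [hQi i, map_mul, ← mul_assoc, h1 i, ← map_mul]
  have hP2 : ∀ i, c i * eval a Q = eval a (P i) := by
    intro i
    rw [hQi i, map_mul, ← mul_assoc, h2 i, ← map_mul]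
  set D' := max Q.totalDegree (Finset.univ.sup fun i => (P i).totalDegree) with hD'
  let bp' : Fin (m + 1) → MvPolynomial (Fin m) Qbar := Fin.cons Q P
  let F' : Fin (m + 1) → MvPolynomial (Fin (m + 1)) Qbar := fun i => hom D' (bp' i)
  have hbpD' : ∀ i, (bp' i).totalDegree ≤ D' := by
    intro i
    refine Fin.cases ?_ (fun j => ?_) i
    · exact le_max_left _ _
    · exact (Finset.le_sup (f := fun i => (P i).totalDegree) (Finset.mem_univ j)).trans
        (le_max_right _ _)
  have hF'hom : ∀ i, (F' i).IsHomogeneous D' := fun i => hom_homog (hbpD' i)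
  have hbpr : ∀ i, algebraMap _ (FF m) (bp i) =
      (Fin.cons 1 r : Fin (m + 1) → FF m) i * algebraMap _ (FF m) b := by
    intro i
    refine Fin.cases ?_ (fun j => ?_) i
    · simp [bp]
    · simp [bp, hp']
  have hbpr' : ∀ i, algebraMap _ (FF m) (bp' i) =
      (Fin.cons 1 r : Fin (m + 1) → FF m) i * algebraMap _ (FF m) Q := by
    intro i
    refine Fin.cases ?_ (fun j => ?_) i
    · simp [bp']
    · simp [bp', hP1]
  have hcross0 : ∀ i j, bp' i * bp j = bp' j * bp i := by
    intro i j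
    apply EvalsTo.inj
    rw [map_mul, map_mul, hbpr, hbpr, hbpr', hbpr']
    ring
  have hcross : ∀ i j, F' i * F j = F' j * F i := by
    intro i j
    rw [← sub_eq_zero]
    by_contra hne
    have hh : (F' i * F j - F' j * F i).IsHomogeneous (D' + D) :=
      ((hF'hom i).mul (hFhom j)).sub ((hF'hom j).mul (hFhom i))
    obtain ⟨a', ha'⟩ := exists_aff hh hne
    apply ha'
    rw [map_sub, map_mul, map_mul]
    simp only [F, F', eval_hom]
    rw [← map_mul, ← map_mul, hcross0, sub_self]
  have hcrossg : ∀ i j, F' i * g j = F' j * g i := by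
    intro i j
    have h3 := hcross i j
    rw [hg i (Finset.mem_univ _), hg j (Finset.mem_univ _)] at h3
    apply mul_left_cancel₀ hG0
    calc G * (F' i * g j) = F' i * (G * g j) := by ring
      _ = F' j * (G * g i) := h3
      _ = G * (F' j * g i) := by ring
  have hdvd : g 0 ∣ F' 0 := by
    have h3 : g 0 ∣ Finset.univ.gcd fun j => F' 0 * g j :=
      Finset.dvd_gcd fun j _ => ⟨F' j, by rw [hcrossg 0 j]; ring⟩
    have h4 := Finset.gcd_mul_left' Finset.univ g (F' 0)
    rw [hg1, mul_one] at h4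
    exact h3.trans h4.dvd
  obtain ⟨H, hH⟩ := hdvd
  have hFH : ∀ j, F' j = g j * H := by
    intro j
    apply mul_right_cancel₀ hg0
    rw [← hcrossg 0 j, hH]
    ring
  have hev : ∀ j, eval (aff a) (F' j) = eval (aff a) (g j) * eval (aff a) H := by
    intro j; rw [hFH j, map_mul]
  have hev0 : eval (aff a) (g 0) * eval (aff a) H = eval a Q := by
    rw [← hev 0]
    simp only [F', eval_hom]
    rfl
  have hg0a : eval (aff a) (g 0) ≠ 0 := by
    intro h; rw [h, zero_mul] at hev0; exact hQa hev0.symm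
  have hHa : eval (aff a) H ≠ 0 := by
    intro h; rw [h, mul_zero] at hev0; exact hQa hev0.symm
  have hevs : ∀ j : Fin m, eval (aff a) (g j.succ) = c j * eval (aff a) (g 0) := by
    intro j
    apply mul_right_cancel₀ hHa
    rw [← hev j.succ, mul_assoc, hev0, hP2]
    simp only [F', eval_hom]
    rfl
  have hv : (fun i => eval (aff a) (g i)) = (eval (aff a) (g 0)) • aff c := by
    funext i
    refine Fin.cases ?_ (fun j => ?_) i
    · simp [aff]
    · rw [hevs]; simp [aff, mul_comm]
  have hv0 : (fun i => eval (aff a) (g i)) ≠ 0 := by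
    rw [hv]
    exact smul_ne_zero hg0a (aff_ne c)
  obtain ⟨h, hval⟩ := value_mk (⟨g, hghom, hcop⟩ : RatMap m (D - e)) (aff a) (aff_ne a) hv0
  refine ⟨h, hval.trans ?_⟩
  exact (Projectivization.mk_eq_mk_iff' Qbar _ _ hv0 (aff_ne c)).mpr ⟨_, hv.symm⟩

end Hom

end Pool.Agent.Helper259.RatMaps
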