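import Mathlib
import Pool.Agent.Helper259.Pts
import Pool.Agent.Helper259.RatMaps

set_option autoImplicit false

namespace Pool.Agent.Helper259.Orbit3

open Pool.Agent.Helper259.AbsHt Pool.Agent.Helper259.RatDef Pool.Agent.Helper259.RatMaps
  Pool.Agent.Helper259.Pts

section Formulas

variable {K : Type*} [Field K]

def kk (u1 u2 w : K) : K := kap u2 (tau u1 u2 w)
def SX (u1 u2 w : K) : K := addX (kk u1 u2 w) u1 (1 + w * tau u1 u2 w) u2 (1 + tau u1 u2 w)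
def SY (u1 u2 w : K) : K := addY (kk u1 u2 w) u1 (1 + w * tau u1 u2 w) u2 (1 + tau u1 u2 w)
def RX (u1 u2 w : K) : K := addX (kk u1 u2 w) u2 (1 + tau u1 u2 w) 1 1
def RY (u1 u2 w : K) : K := addY (kk u1 u2 w) u2 (1 + tau u1 u2 w) 1 1
def AX (u1 u2 w : K) : K := dblX (kk u1 u2 w) (SX u1 u2 w) (SY u1 u2 w)
def AY (u1 u2 w : K) : K := dblY (kk u1 u2 w) (SX u1 u2 w) (SY u1 u2 w)
def BX (u1 u2 w : K) : K := dblX (kk u1 u2 w) (RX u1 u2 w) (RY u1 u2 w)
def BY (u1 u2 w : K) : K := dblY (kk u1 u2 w) (RX u1 u2 w) (RY u1 u2 w)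
def CX (u1 u2 w : K) : K := dblX (kk u1 u2 w) 1 1
def CY (u1 u2 w : K) : K := dblY (kk u1 u2 w) 1 1

end Formulas

/-- coordinate functions of the map -/
noncomputable def rr : Fin 3 → FF 3 :=
  let u1 : FF 3 := algebraMap (MvPolynomial (Fin 3) Qbar) (FF 3) (MvPolynomial.X 0)
  let u2 : FF 3 := algebraMap (MvPolynomial (Fin 3) Qbar) (FF 3) (MvPolynomial.X 1)
  let w : FF 3 := algebraMap (MvPolynomial (Fin 3) Qbar) (FF 3) (MvPolynomial.X 2)
  ![AX u1 u2 w / CX u1 u2 w, BX u1 u2 w / CX u1 u2 w,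
    (AY u1 u2 w / CY u1 u2 w - 1) / (BY u1 u2 w / CY u1 u2 w - 1)]

/-- regularity at rational points -/
def EQ (r : FF 3) (a : Fin 3 → ℚ) (c : ℚ) : Prop := EvalsTo r (fun i => (a i : Qbar)) (c : Qbar)

namespace EQ

variable {r s : FF 3} {a : Fin 3 → ℚ} {c e : ℚ}

lemma add (hr : EQ r a c) (hs : EQ s a e) : EQ (r + s) a (c + e) := by
  have := EvalsTo.add hr hs; rw [EQ]; exact_mod_cast this
lemma sub (hr : EQ r a c) (hs : EQ s a e) : EQ (r - s) a (c - e) := by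
  have := EvalsTo.sub hr hs; rw [EQ]; exact_mod_cast this
lemma mul (hr : EQ r a c) (hs : EQ s a e) : EQ (r * s) a (c * e) := by
  have := EvalsTo.mul hr hs; rw [EQ]; exact_mod_cast this
lemma neg (hr : EQ r a c) : EQ (-r) a (-c) := by
  have := EvalsTo.neg hr; rw [EQ]; exact_mod_cast this
lemma pow (hr : EQ r a c) (n : ℕ) : EQ (r ^ n) a (c ^ n) := by
  have := EvalsTo.pow hr n; rw [EQ]; exact_mod_cast this
lemma div (hr : EQ r a c) (hs : EQ s a e) (he : e ≠ 0) : EQ (r / s) a (c / e) := by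
  have := EvalsTo.div hr hs (by exact_mod_cast he); rw [EQ]; exact_mod_cast this
lemma one : EQ 1 a 1 := by
  have := EvalsTo.ofNat (a := fun i => (a i : Qbar)) 1; rw [EQ]; exact_mod_cast this
lemma two : EQ 2 a 2 := by
  have := EvalsTo.ofNat (a := fun i => (a i : Qbar)) 2; rw [EQ]; exact_mod_cast this
lemma three : EQ 3 a 3 := by
  have := EvalsTo.ofNat (a := fun i => (a i : Qbar)) 3; rw [EQ]; exact_mod_cast this

lemma tau {u1 u2 w : FF 3} {c1 c2 c3 : ℚ} (h1 : EQ u1 a c1) (h2 : EQ u2 a c2) (h3 : EQ w a c3)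
    (h : c3 ^ 2 * (c2 ^ 3 - 1) - (c1 ^ 3 - 1) ≠ 0) :
    EQ (tau u1 u2 w) a (Pts.tau c1 c2 c3) :=
  (two.mul (((h1.pow 3).sub one).sub (h3.mul ((h2.pow 3).sub one)))).div
    (((h3.pow 2).mul ((h2.pow 3).sub one)).sub ((h1.pow 3).sub one)) h

lemma kap {u2 t : FF 3} {c1 c2 : ℚ} (h1 : EQ u2 a c1) (h2 : EQ t a c2)
    (h : c2 * (2 + c2) ≠ 0) : EQ (kap u2 t) a (Pts.kap c1 c2) :=
  ((h1.pow 3).sub one).div (h2.mul (two.add h2)) h

lemma addX {κ X1 Y1 X2 Y2 : FF 3} {c0 c1 c2 c3 c4 : ℚ} (h0 : EQ κ a c0) (h1 : EQ X1 a c1)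
    (h2 : EQ Y1 a c2) (h3 : EQ X2 a c3) (h4 : EQ Y2 a c4) (h : c1 - c3 ≠ 0) :
    EQ (addX κ X1 Y1 X2 Y2) a (Pts.addX c0 c1 c2 c3 c4) :=
  ((h0.mul (((h2.sub h4).div (h1.sub h3) h).pow 2)).sub h1).sub h3

lemma addY {κ X1 Y1 X2 Y2 : FF 3} {c0 c1 c2 c3 c4 : ℚ} (h0 : EQ κ a c0) (h1 : EQ X1 a c1)
    (h2 : EQ Y1 a c2) (h3 : EQ X2 a c3) (h4 : EQ Y2 a c4) (h : c1 - c3 ≠ 0) :
    EQ (addY κ X1 Y1 X2 Y2) a (Pts.addY c0 c1 c2 c3 c4) :=
  (h2.add (((h2.sub h4).div (h1.sub h3) h).mul ((addX h0 h1 h2 h3 h4 h).sub h1))).neg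

lemma dblX {κ X1 Y1 : FF 3} {c0 c1 c2 : ℚ} (h0 : EQ κ a c0) (h1 : EQ X1 a c1)
    (h2 : EQ Y1 a c2) (h : 2 * c0 * c2 ≠ 0) :
    EQ (dblX κ X1 Y1) a (Pts.dblX c0 c1 c2) :=
  ((h0.mul (((three.mul (h1.pow 2)).div ((two.mul h0).mul h2) h).pow 2)).sub h1).sub h1

lemma dblY {κ X1 Y1 : FF 3} {c0 c1 c2 : ℚ} (h0 : EQ κ a c0) (h1 : EQ X1 a c1)
    (h2 : EQ Y1 a c2) (h : 2 * c0 * c2 ≠ 0) :
    EQ (dblY κ X1 Y1) a (Pts.dblY c0 c1 c2) :=
  (h2.add (((three.mul (h1.pow 2)).div ((two.mul h0).mul h2) h).mul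
    ((dblX h0 h1 h2 h).sub h1))).neg

end EQ

/-- affine coordinates of the orbit point attached to `(A, B, C)` -/
noncomputable def pt (A B C : ℤ) : Fin 3 → ℚ :=
  ![px A / px C, px B / px C, (py A - py C) / (py B - py C)]

lemma step {A B C : ℤ} (hAB : B < A) (hBC : C < B) (hC : 0 < C) (i : Fin 3) :
    EQ (rr i) (pt A B C) (pt (2 * (A + B)) (2 * (B + C)) (2 * C) i) := by
  have hA0 : A ≠ 0 := by omega
  have hB0 : B ≠ 0 := by omega
  have hC0 : C ≠ 0 := by omega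
  set a := pt A B C with ha
  set u1 : FF 3 := algebraMap (MvPolynomial (Fin 3) Qbar) (FF 3) (MvPolynomial.X 0) with hu1
  set u2 : FF 3 := algebraMap (MvPolynomial (Fin 3) Qbar) (FF 3) (MvPolynomial.X 1) with hu2
  set w : FF 3 := algebraMap (MvPolynomial (Fin 3) Qbar) (FF 3) (MvPolynomial.X 2) with hw
  have e1 : EQ u1 a (px A / px C) := EvalsTo.var 0 _
  have e2 : EQ u2 a (px B / px C) := EvalsTo.var 1 _
  have e3 : EQ w a ((py A - py C) / (py B - py C)) := EvalsTo.var 2 _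
  obtain ⟨t1, t2, t3, t4⟩ := tau_val hA0 hB0 hC0 (by omega : A ≠ B) (by omega : A ≠ C)
    (by omega : B ≠ C) (by omega : B ≠ -C)
  have xC := px_ne hC0
  have yC := py_ne hC0
  have d1 : py B - py C ≠ 0 := sub_ne_zero.mpr fun h => by
    have := py_inj hB0 hC0 h; omega
  have et : EQ (tau u1 u2 w) a (py B / py C - 1) := by
    have := EQ.tau e1 e2 e3 t3
    rwa [t1] at this
  have ek : EQ (kk u1 u2 w) a (py C ^ 2 / px C ^ 3) := by
    have := EQ.kap e2 et t4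
    rwa [t2] at this
  have ev2 : EQ (1 + tau u1 u2 w) a (py B / py C) := by
    have := EQ.one.add et
    rwa [add_sub_cancel] at this
  have ev1 : EQ (1 + w * tau u1 u2 w) a (py A / py C) := by
    have := EQ.one.add (e3.mul et)
    have e : 1 + (py A - py C) / (py B - py C) * (py B / py C - 1) = py A / py C := by
      field_simp; ring
    rwa [e] at this
  obtain ⟨s1, s2, s3⟩ := addX_val hA0 hB0 hC0 (by omega : A ≠ B) (by omega : A ≠ -B)
  have eSX : EQ (SX u1 u2 w) a (px (A + B) / px C) := by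
    have := EQ.addX ek e1 ev1 e2 ev2 s3
    rwa [s1] at this
  have eSY : EQ (SY u1 u2 w) a (py (A + B) / py C) := by
    have := EQ.addY ek e1 ev1 e2 ev2 s3
    rwa [s2] at this
  have o1 : px C / px C = 1 := div_self xC
  have o2 : py C / py C = 1 := div_self yC
  obtain ⟨r1, r2, r3⟩ := addX_val hB0 hC0 hC0 (by omega : B ≠ C) (by omega : B ≠ -C)
  rw [o1, o2] at r1 r2
  rw [o1] at r3
  have eRX : EQ (RX u1 u2 w) a (px (B + C) / px C) := by
    have := EQ.addX ek e2 ev2 EQ.one EQ.one r3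
    rwa [r1] at this
  have eRY : EQ (RY u1 u2 w) a (py (B + C) / py C) := by
    have := EQ.addY ek e2 ev2 EQ.one EQ.one r3
    rwa [r2] at this
  obtain ⟨a1, a2, a3⟩ := dblX_val (A := A + B) (by omega) hC0
  have eAX : EQ (AX u1 u2 w) a (px (2 * (A + B)) / px C) := by
    have := EQ.dblX ek eSX eSY a3
    rwa [a1] at this
  have eAY : EQ (AY u1 u2 w) a (py (2 * (A + B)) / py C) := by
    have := EQ.dblY ek eSX eSY a3
    rwa [a2] at this
  obtain ⟨b1, b2, b3⟩ := dblX_val (A := B + C) (by omega) hC0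
  have eBX : EQ (BX u1 u2 w) a (px (2 * (B + C)) / px C) := by
    have := EQ.dblX ek eRX eRY b3
    rwa [b1] at this
  have eBY : EQ (BY u1 u2 w) a (py (2 * (B + C)) / py C) := by
    have := EQ.dblY ek eRX eRY b3
    rwa [b2] at this
  obtain ⟨c1, c2, c3⟩ := dblX_val (A := C) hC0 hC0
  rw [o1, o2] at c1 c2
  rw [o2] at c3
  have eCX : EQ (CX u1 u2 w) a (px (2 * C) / px C) := by
    have := EQ.dblX ek EQ.one EQ.one c3
    rwa [c1] at this
  have eCY : EQ (CY u1 u2 w) a (py (2 * C) / py C) := by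
    have := EQ.dblY ek EQ.one EQ.one c3
    rwa [c2] at this
  have x2C : px (2 * C) ≠ 0 := px_ne (by omega)
  have y2C : py (2 * C) ≠ 0 := py_ne (by omega)
  have n1 : px (2 * C) / px C ≠ 0 := div_ne_zero x2C xC
  have n2 : py (2 * C) / py C ≠ 0 := div_ne_zero y2C yC
  have d5 : py (2 * (B + C)) - py (2 * C) ≠ 0 := sub_ne_zero.mpr fun h => by
    have := py_inj (by omega : 2 * (B + C) ≠ 0) (by omega : 2 * C ≠ 0) h; omega
  have n3 : py (2 * (B + C)) / py C / (py (2 * C) / py C) - 1 ≠ 0 := by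
    have : py (2 * (B + C)) / py C / (py (2 * C) / py C) - 1 =
        (py (2 * (B + C)) - py (2 * C)) / py (2 * C) := by field_simp
    rw [this]
    exact div_ne_zero d5 y2C
  fin_cases i
  · have := eAX.div eCX n1
    have e : px (2 * (A + B)) / px C / (px (2 * C) / px C) = px (2 * (A + B)) / px (2 * C) := by
      field_simp
    rw [e] at this
    exact this
  · have := eBX.div eCX n1
    have e : px (2 * (B + C)) / px C / (px (2 * C) / px C) = px (2 * (B + C)) / px (2 * C) := by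
      field_simp
    rw [e] at this
    exact this
  · have := ((eAY.div eCY n2).sub EQ.one).div ((eBY.div eCY n2).sub EQ.one) n3
    have e : (py (2 * (A + B)) / py C / (py (2 * C) / py C) - 1) /
        (py (2 * (B + C)) / py C / (py (2 * C) / py C) - 1) =
        (py (2 * (A + B)) - py (2 * C)) / (py (2 * (B + C)) - py (2 * C)) := by
      field_simp
    rw [e] at this
    exact this

/-- the integers `(A, B, C)` along the orbit -/
def tri : ℕ → ℤ × ℤ × ℤ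
  | 0 => (3, 2, 1)
  | (n + 1) => (2 * ((tri n).1 + (tri n).2.1), 2 * ((tri n).2.1 + (tri n).2.2), 2 * (tri n).2.2)

lemma tri_pos (n : ℕ) : (tri n).2.1 < (tri n).1 ∧ (tri n).2.2 < (tri n).2.1 ∧ 0 < (tri n).2.2 := by
  induction n with
  | zero => simp [tri]
  | succ n ih =>
    obtain ⟨h1, h2, h3⟩ := ih
    simp only [tri]
    refine ⟨by omega, by omega, by omega⟩

lemma tri_formula (n : ℕ) : (tri n).2.2 = 2 ^ n ∧ (tri n).2.1 = 2 ^ n * (n + 2) ∧
    2 * (tri n).1 = 2 ^ n * ((n : ℤ) ^ 2 + 3 * n + 6) := by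
  induction n with
  | zero => simp [tri]
  | succ n ih =>
    obtain ⟨h1, h2, h3⟩ := ih
    simp only [tri]
    refine ⟨?_, ?_, ?_⟩
    · rw [h1]; ring
    · rw [h1, h2]; push_cast; ring
    · push_cast
      linear_combination 2 * h3 + 4 * h2

/-- affine coordinates of the orbit -/
noncomputable def orb (n : ℕ) : Fin 3 → ℚ := pt (tri n).1 (tri n).2.1 (tri n).2.2

lemma orb_step (n : ℕ) (i : Fin 3) : EQ (rr i) (orb n) (orb (n + 1) i) := by
  obtain ⟨h1, h2, h3⟩ := tri_pos n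
  exact step h1 h2 h3 i

end Pool.Agent.Helper259.Orbit3
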