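import Mathlib
import Pool.Agent.Helper259.Orbit3
import Pool.Agent.Helper259.Dens

set_option autoImplicit false

namespace Pool.Agent.Helper259.Orbit3Ht

open Pool.Agent.Helper259.AbsHt Pool.Agent.Helper259.Uniform Pool.Agent.Helper259.Pts
  Pool.Agent.Helper259.Orbit3 Pool.Agent.Helper259.EllHt Height

lemma h1_rat (x : ℚ) : h1 (x : Qbar) = logHeight ![x, 1] := by
  have e : (![1, (x : Qbar)] : Fin 2 → Qbar) = fun i => algebraMap ℚ Qbar ((![1, x] : Fin 2 → ℚ) i) := by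
    funext i
    fin_cases i <;> simp
  rw [h1, e, absLogHeight_eq ℚ (algebraMap ℚ Qbar), logHeight_swap]
  simp

lemma h1_px {n : ℤ} (hn : n ≠ 0) : h1 (px n : Qbar) = H (n • Q0) := by
  obtain ⟨h, e⟩ := spec hn
  rw [h1_rat, H, e]
  rfl

lemma facts : ∃ α C : ℝ, 0 < α ∧ 0 ≤ C ∧
    (∀ n : ℤ, n ≠ 0 → |h1 (px n : Qbar) - α * (n : ℝ) ^ 2| ≤ C) ∧
    (∀ n : ℤ, n ≠ 0 → h1 (py n : Qbar) ≤ C * (1 + h1 (px n : Qbar))) := by
  obtain ⟨α, C, hα, hC⟩ := main
  obtain ⟨D, hD0, hD⟩ := h1_root (α := Fin 1)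
    (Polynomial.X ^ 2 - Polynomial.C (MvPolynomial.X 0 ^ 3 + 3))
  refine ⟨α, |C| + D, hα, by positivity, fun n hn => ?_, fun n hn => ?_⟩
  · rw [h1_px hn]
    exact (hC n).trans ((le_abs_self C).trans (by linarith))
  · have hc := curve hn
    have hc' : (py n : Qbar) ^ 2 = (px n : Qbar) ^ 3 + 3 := by
      exact_mod_cast congrArg (fun x : ℚ => (x : Qbar)) hc
    have hmap : (Polynomial.X ^ 2 - Polynomial.C (MvPolynomial.X 0 ^ 3 + 3) :
        Polynomial (MvPolynomial (Fin 1) Qbar)).map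
        (MvPolynomial.eval (fun _ => (px n : Qbar))) =
        Polynomial.X ^ 2 - Polynomial.C ((px n : Qbar) ^ 3 + 3) := by
      simp
    have h1' := hD (fun _ => (px n : Qbar)) (py n : Qbar) (by
      rw [hmap]
      exact Polynomial.X_pow_sub_C_ne_zero (by norm_num) _) (by
      rw [hmap]
      simp [hc'])
    simp only [Finset.univ_unique, Finset.sum_const, Finset.card_singleton, one_smul] at h1'
    refine h1'.trans ?_
    apply mul_le_mul_of_nonneg_right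
    · linarith [abs_nonneg C]
    · linarith [h1_nonneg (px n : Qbar)]

/-- the three coordinates -/
noncomputable def zz : Fin 3 → ℕ → Qbar :=
  ![fun n => (px (tri n).1 : Qbar), fun n => (px (tri n).2.1 : Qbar),
    fun n => (px (tri n).2.2 : Qbar)]

lemma aux (X Y r : ℕ → ℝ) (hY : ∀ n, 0 ≤ Y n) (hr : Filter.Tendsto r Filter.atTop Filter.atTop)
    (hX : ∀ n, r n * (1 + Y n) ≤ X n) (K C : ℝ) (hC : 0 ≤ C) :
    ∀ᶠ n in Filter.atTop, |K| * (1 + (Y n + C)) + C < X n := by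
  filter_upwards [hr.eventually_gt_atTop (|K| * (1 + C) + C)] with n hn
  have h1 : (|K| * (1 + C) + C) * (1 + Y n) < r n * (1 + Y n) :=
    mul_lt_mul_of_pos_right hn (by linarith [hY n])
  have h2 : |K| * (1 + (Y n + C)) + C ≤ (|K| * (1 + C) + C) * (1 + Y n) := by
    have e1 : 0 ≤ |K| * C * Y n := mul_nonneg (mul_nonneg (abs_nonneg K) hC) (hY n)
    have e2 : 0 ≤ C * Y n := mul_nonneg hC (hY n)
    nlinarith
  linarith [hX n]

lemma tri_real (n : ℕ) : (((tri n).2.2 : ℤ) : ℝ) = 2 ^ n ∧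
    (((tri n).2.1 : ℤ) : ℝ) = 2 ^ n * (n + 2) ∧
    (((tri n).1 : ℤ) : ℝ) = 2 ^ n * ((n : ℝ) ^ 2 + 3 * n + 6) / 2 := by
  obtain ⟨h1, h2, h3⟩ := tri_formula n
  refine ⟨by rw [h1]; push_cast; rfl, by rw [h2]; push_cast; rfl, ?_⟩
  have : (2 : ℝ) * (((tri n).1 : ℤ) : ℝ) = 2 ^ n * ((n : ℝ) ^ 2 + 3 * n + 6) := by
    exact_mod_cast h3
  linarith

lemma tri_ne (n : ℕ) : (tri n).1 ≠ 0 ∧ (tri n).2.1 ≠ 0 ∧ (tri n).2.2 ≠ 0 := by
  obtain ⟨h1, h2, h3⟩ := tri_pos n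
  refine ⟨by omega, by omega, by omega⟩

lemma tendsto_sq (e : ℝ) (he : 0 < e) :
    Filter.Tendsto (fun n : ℕ => e * ((n : ℝ) + 1) ^ 2) Filter.atTop Filter.atTop := by
  apply Filter.Tendsto.const_mul_atTop he
  apply (Filter.tendsto_pow_atTop (two_ne_zero)).comp
  exact Filter.tendsto_atTop_add_const_right _ _ tendsto_natCast_atTop_atTop

lemma zz_sep (i : Fin 3) (K : ℝ) : ∀ᶠ n in Filter.atTop,
    K * (1 + ∑ j, if i < j then h1 (zz j n) else 0) < h1 (zz i n) := by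
  obtain ⟨α, C, hα, hC, hx, -⟩ := facts
  have hp : ∀ n : ℕ, (1 : ℝ) ≤ (2 ^ n) ^ 2 := fun n => one_le_pow₀ (one_le_pow₀ (by norm_num))
  have bA : ∀ n, |h1 (zz 0 n) - α * (2 ^ n * ((n : ℝ) ^ 2 + 3 * n + 6) / 2) ^ 2| ≤ C := by
    intro n
    have := hx _ (tri_ne n).1
    rwa [(tri_real n).2.2] at this
  have bB : ∀ n, |h1 (zz 1 n) - α * (2 ^ n * ((n : ℝ) + 2)) ^ 2| ≤ C := by
    intro n
    have := hx _ (tri_ne n).2.1
    rwa [(tri_real n).2.1] at this
  have bC : ∀ n, |h1 (zz 2 n) - α * (2 ^ n) ^ 2| ≤ C := by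
    intro n
    have := hx _ (tri_ne n).2.2
    rwa [(tri_real n).1] at this
  have hK : ∀ x y : ℝ, 0 ≤ x → x ≤ y → K * (1 + x) ≤ |K| * (1 + y) := by
    intro x y hx0 hxy
    calc K * (1 + x) ≤ |K| * (1 + x) :=
          mul_le_mul_of_nonneg_right (le_abs_self K) (by linarith)
      _ ≤ |K| * (1 + y) := mul_le_mul_of_nonneg_left (by linarith) (abs_nonneg K)
  fin_cases i
  · -- A
    have key := aux (fun n => α * (2 ^ n * ((n : ℝ) ^ 2 + 3 * n + 6) / 2) ^ 2)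
      (fun n => α * (2 ^ n * ((n : ℝ) + 2)) ^ 2 + α * (2 ^ n) ^ 2)
      (fun n => α / (4 * (1 + 2 * α)) * ((n : ℝ) + 1) ^ 2) (fun n => by positivity)
      (tendsto_sq _ (by positivity)) (fun n => by
        have h1 : 1 + (α * (2 ^ n * ((n : ℝ) + 2)) ^ 2 + α * (2 ^ n) ^ 2) ≤
            (1 + 2 * α) * (2 ^ n * ((n : ℝ) + 2)) ^ 2 := by
          have h2 : (1 : ℝ) ≤ ((n : ℝ) + 2) ^ 2 := by
            have : (0 : ℝ) ≤ n := Nat.cast_nonneg n
            nlinarith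
          have h3 := hp n
          have h4 : (2 ^ n : ℝ) ^ 2 ≤ (2 ^ n * ((n : ℝ) + 2)) ^ 2 := by
            rw [mul_pow]; nlinarith
          have h5 : (1 : ℝ) ≤ (2 ^ n * ((n : ℝ) + 2)) ^ 2 := h3.trans h4
          nlinarith
        have h6 : (2 ^ n * ((n : ℝ) + 2)) ^ 2 * (((n : ℝ) + 1) ^ 2 / 4) ≤
            (2 ^ n * ((n : ℝ) ^ 2 + 3 * n + 6) / 2) ^ 2 := by
          have h7 : (((n : ℝ) + 2) * ((n : ℝ) + 1)) ^ 2 ≤ ((n : ℝ) ^ 2 + 3 * n + 6) ^ 2 := by
            have : (0 : ℝ) ≤ n := Nat.cast_nonneg n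
            apply pow_le_pow_left₀ (by positivity)
            nlinarith
          have e1 : (2 ^ n * ((n : ℝ) + 2)) ^ 2 * (((n : ℝ) + 1) ^ 2 / 4) =
            (2 ^ n) ^ 2 / 4 * (((n : ℝ) + 2) * ((n : ℝ) + 1)) ^ 2 := by ring
          have e2 : (2 ^ n * ((n : ℝ) ^ 2 + 3 * n + 6) / 2) ^ 2 =
            (2 ^ n) ^ 2 / 4 * ((n : ℝ) ^ 2 + 3 * n + 6) ^ 2 := by ring
          rw [e1, e2]
          exact mul_le_mul_of_nonneg_left h7 (by positivity)
        calc α / (4 * (1 + 2 * α)) * ((n : ℝ) + 1) ^ 2 *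
              (1 + (α * (2 ^ n * ((n : ℝ) + 2)) ^ 2 + α * (2 ^ n) ^ 2))
            ≤ α / (4 * (1 + 2 * α)) * ((n : ℝ) + 1) ^ 2 *
              ((1 + 2 * α) * (2 ^ n * ((n : ℝ) + 2)) ^ 2) :=
              mul_le_mul_of_nonneg_left h1 (by positivity)
          _ = α * ((2 ^ n * ((n : ℝ) + 2)) ^ 2 * (((n : ℝ) + 1) ^ 2 / 4)) := by
              field_simp
          _ ≤ _ := mul_le_mul_of_nonneg_left h6 hα.le) K (2 * C) (by linarith)
    filter_upwards [key] with n hn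
    have e : (∑ j : Fin 3, if (0 : Fin 3) < j then h1 (zz j n) else 0) =
        h1 (zz 1 n) + h1 (zz 2 n) := by
      rw [Fin.sum_univ_three]; simp
    show K * (1 + ∑ j : Fin 3, if (0 : Fin 3) < j then h1 (zz j n) else 0) < h1 (zz 0 n)
    rw [e]
    have b1 := abs_le.mp (bA n)
    have b2 := abs_le.mp (bB n)
    have b3 := abs_le.mp (bC n)
    have h5 := hK (h1 (zz 1 n) + h1 (zz 2 n))
      (α * (2 ^ n * ((n : ℝ) + 2)) ^ 2 + α * (2 ^ n) ^ 2 + 2 * C)
      (add_nonneg (h1_nonneg _) (h1_nonneg _)) (by linarith)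
    linarith
  · have key := aux (fun n => α * (2 ^ n * ((n : ℝ) + 2)) ^ 2)
      (fun n => α * (2 ^ n) ^ 2)
      (fun n => α / (1 + α) * ((n : ℝ) + 1) ^ 2) (fun n => by positivity)
      (tendsto_sq _ (by positivity)) (fun n => by
        have h1 : 1 + α * (2 ^ n) ^ 2 ≤ (1 + α) * (2 ^ n : ℝ) ^ 2 := by
          have := hp n
          nlinarith
        have h2 : ((n : ℝ) + 1) ^ 2 ≤ ((n : ℝ) + 2) ^ 2 := by
          have : (0 : ℝ) ≤ n := Nat.cast_nonneg n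
          nlinarith
        calc α / (1 + α) * ((n : ℝ) + 1) ^ 2 * (1 + α * (2 ^ n) ^ 2)
            ≤ α / (1 + α) * ((n : ℝ) + 2) ^ 2 * ((1 + α) * (2 ^ n : ℝ) ^ 2) := by
              apply mul_le_mul _ h1 (by positivity) (by positivity)
              exact mul_le_mul_of_nonneg_left h2 (by positivity)
          _ = α * (2 ^ n * ((n : ℝ) + 2)) ^ 2 := by field_simp) K C hC
    filter_upwards [key] with n hn
    have e : (∑ j : Fin 3, if (1 : Fin 3) < j then h1 (zz j n) else 0) = h1 (zz 2 n) := by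
      rw [Fin.sum_univ_three]; simp
    show K * (1 + ∑ j : Fin 3, if (1 : Fin 3) < j then h1 (zz j n) else 0) < h1 (zz 1 n)
    rw [e]
    have b2 := abs_le.mp (bB n)
    have b3 := abs_le.mp (bC n)
    have h5 := hK (h1 (zz 2 n)) (α * (2 ^ n) ^ 2 + C) (h1_nonneg _) (by linarith)
    linarith
  · have key := aux (fun n => α * (2 ^ n) ^ 2) (fun n => 0)
      (fun n => α * (4 : ℝ) ^ n) (fun n => le_rfl)
      ((tendsto_pow_atTop_atTop_of_one_lt (by norm_num)).const_mul_atTop hα) (fun n => by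
        rw [add_zero, mul_one, ← pow_mul, mul_comm n 2, pow_mul]
        norm_num) K C hC
    filter_upwards [key] with n hn
    have e : (∑ j : Fin 3, if (2 : Fin 3) < j then h1 (zz j n) else 0) = 0 := by
      rw [Fin.sum_univ_three]; simp
    show K * (1 + ∑ j : Fin 3, if (2 : Fin 3) < j then h1 (zz j n) else 0) < h1 (zz 2 n)
    rw [e]
    have b3 := abs_le.mp (bC n)
    have h5 := hK 0 (0 + C) le_rfl (by linarith)
    linarith

/-! ### density -/

section Density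

variable (U : Ultrafilter ℕ)

lemma toK_div (f g : ℕ → Qbar) : toK U (f / g) = toK U f / toK U g := rfl

/-- algebraic over a subring of a field: closure properties -/
lemma alg_div {R A : Type*} [CommRing R] [IsDomain R] [Field A] [Algebra R A] {x y : A}
    (hx : IsAlgebraic R x) (hy : IsAlgebraic R y) : IsAlgebraic R (x / y) := by
  rw [div_eq_mul_inv]
  exact hx.mul hy.inv

lemma alg_num {R A : Type*} [CommRing R] [IsDomain R] [Field A] [Algebra R A] (n : ℕ) :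
    IsAlgebraic R (n : A) := by
  have := isAlgebraic_algebraMap (R := R) (A := A) (n : R)
  simpa using this

/-- affine coordinates of the orbit, as algebraic numbers -/
noncomputable def uu (i : Fin 3) (n : ℕ) : Qbar := (orb n i : Qbar)

lemma alg_z (i : Fin 3) :
    IsAlgebraic (Algebra.adjoin Qbar (Set.range fun i => toK U (uu i))) (toK U (zz i)) := by
  set R := Algebra.adjoin Qbar (Set.range fun i => toK U (uu i)) with hR
  have hu : ∀ i, IsAlgebraic R (toK U (uu i)) := fun i => by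
    have := isAlgebraic_algebraMap (R := R) (A := Kst U)
      (⟨toK U (uu i), Algebra.subset_adjoin ⟨i, rfl⟩⟩ : R)
    exact this
  have h1 : IsAlgebraic R (1 : Kst U) := isAlgebraic_one
  have h2 : IsAlgebraic R (2 : Kst U) := by exact_mod_cast alg_num (R := R) (A := Kst U) 2
  have h3 : IsAlgebraic R (3 : Kst U) := by exact_mod_cast alg_num (R := R) (A := Kst U) 3
  -- tau
  have ht : IsAlgebraic R (tau (toK U (uu 0)) (toK U (uu 1)) (toK U (uu 2))) := by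
    rw [tau]
    refine alg_div (h2.mul ((((hu 0).pow 3).sub h1).sub ((hu 2).mul (((hu 1).pow 3).sub h1)))) ?_
    exact (((hu 2).pow 2).mul (((hu 1).pow 3).sub h1)).sub (((hu 0).pow 3).sub h1)
  have hk : IsAlgebraic R (kap (toK U (uu 1))
      (tau (toK U (uu 0)) (toK U (uu 1)) (toK U (uu 2)))) := by
    rw [kap]
    exact alg_div (((hu 1).pow 3).sub h1) (ht.mul (h2.add ht))
  have hs : (toK U (zz 2)) ^ 3 = 3 / (kap (toK U (uu 1))
      (tau (toK U (uu 0)) (toK U (uu 1)) (toK U (uu 2))) - 1) := by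
    have e2 : (2 : Kst U) = toK U 2 := (map_ofNat (toK U) 2).symm
    have e3 : (3 : Kst U) = toK U 3 := (map_ofNat (toK U) 3).symm
    have e1 : tau (toK U (uu 0)) (toK U (uu 1)) (toK U (uu 2)) =
        toK U (fun n => tau (uu 0 n) (uu 1 n) (uu 2 n)) := by
      rw [tau, e2, ← map_one (toK U)]
      simp only [← map_pow, ← map_sub, ← map_mul, ← toK_div]
      rfl
    rw [e1, kap, e2, e3, ← map_one (toK U)]
    simp only [← map_pow, ← map_sub, ← map_add, ← map_mul, ← toK_div]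
    congr 1
    funext n
    obtain ⟨hA0, hB0, hC0⟩ := tri_ne n
    obtain ⟨hp1, hp2, hp3⟩ := tri_pos n
    obtain ⟨t1, t2, -, -⟩ := tau_val hA0 hB0 hC0 (by omega) (by omega) (by omega) (by omega)
    have xC := px_ne hC0
    have hcC := curve hC0
    have t1' : tau (uu 0 n) (uu 1 n) (uu 2 n) =
        (((py (tri n).2.1 / py (tri n).2.2 - 1 : ℚ)) : Qbar) := by
      rw [← t1, tau, tau]
      simp only [uu, orb, pt]
      push_cast
      rfl
    have t2' : ((uu 1 n) ^ 3 - 1) / ((((py (tri n).2.1 / py (tri n).2.2 - 1 : ℚ)) : Qbar) *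
        (2 + (((py (tri n).2.1 / py (tri n).2.2 - 1 : ℚ)) : Qbar))) =
        ((py (tri n).2.2 ^ 2 / px (tri n).2.2 ^ 3 : ℚ) : Qbar) := by
      rw [← t2, kap]
      simp only [uu, orb, pt]
      push_cast
      rfl
    have e4 : px (tri n).2.2 ^ 3 = 3 / (py (tri n).2.2 ^ 2 / px (tri n).2.2 ^ 3 - 1) := by
      rw [hcC]
      field_simp
      ring
    have e5 := congrArg (fun x : ℚ => (x : Qbar)) e4
    simp only [Pi.pow_apply, Pi.div_apply, Pi.sub_apply, Pi.mul_apply, Pi.add_apply,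
      Pi.ofNat_apply]
    rw [t1', t2']
    push_cast at e5 ⊢
    exact e5
  have hz2 : IsAlgebraic R (toK U (zz 2)) := by
    apply IsAlgebraic.of_pow (n := 3) (by norm_num)
    rw [hs]
    exact alg_div h3 (hk.sub h1)
  have hzi : ∀ i : Fin 3, i ≠ 2 → toK U (zz i) = toK U (uu i) * toK U (zz 2) := by
    intro i hi
    rw [← map_mul]
    congr 1
    funext n
    obtain ⟨hA0, hB0, hC0⟩ := tri_ne n
    have xC := px_ne hC0
    have xC' : ((px (tri n).2.2 : ℚ) : Qbar) ≠ 0 := by exact_mod_cast xC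
    fin_cases i
    · show ((px (tri n).1 : ℚ) : Qbar) = ((px (tri n).1 / px (tri n).2.2 : ℚ) : Qbar) *
        ((px (tri n).2.2 : ℚ) : Qbar)
      push_cast
      field_simp
    · show ((px (tri n).2.1 : ℚ) : Qbar) = ((px (tri n).2.1 / px (tri n).2.2 : ℚ) : Qbar) *
        ((px (tri n).2.2 : ℚ) : Qbar)
      push_cast
      field_simp
    · exact absurd rfl hi
  by_cases hi : i = 2
  · rw [hi]; exact hz2
  · rw [hzi i hi]
    exact (hu i).mul hz2

/-- the orbit is Zariski dense -/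
theorem dense (p : MvPolynomial (Fin 3) Qbar) (hp : p ≠ 0) (N : ℕ) :
    ∃ n ≥ N, MvPolynomial.eval (fun i => uu i n) p ≠ 0 := by
  by_contra hcon
  push Not at hcon
  let U : Ultrafilter ℕ := Filter.hyperfilter ℕ
  have hUle : (U : Filter ℕ) ≤ Filter.atTop := by
    rw [← Nat.cofinite_eq_atTop]
    exact Filter.hyperfilter_le_cofinite
  have hz : AlgebraicIndependent Qbar (fun i => toK U (zz i)) := by
    rw [algebraicIndependent_iff]
    intro q hq
    by_contra hq0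
    rw [toK_aeval, toK_eq_zero_iff] at hq
    have h1 := Dens.sep 3 zz zz_sep q hq0
    have h2 : ∀ᶠ n in (U : Filter ℕ), MvPolynomial.eval (fun i => zz i n) q ≠ 0 := hUle h1
    obtain ⟨n, h3, h4⟩ := (hq.and h2).exists
    exact h4 h3
  have hu := Dens.algInd _ _ hz (alg_z U)
  apply hp
  rw [algebraicIndependent_iff] at hu
  apply hu
  rw [toK_aeval, toK_eq_zero_iff]
  exact hUle (Filter.eventually_atTop.mpr ⟨N, hcon⟩)

end Density

/-! ### asymptotics -/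

lemma h1_inv {y : Qbar} (hy : y ≠ 0) : h1 y⁻¹ ≤ h1 y := by
  have e : y • (![1, y⁻¹] : Fin 2 → Qbar) = ![1, y] ∘ ![1, 0] := by
    funext i
    fin_cases i <;> simp [hy]
  rw [h1, ← absLogHeight_smul _ hy, e]
  exact absLogHeight_comp_le _ _

lemma h1_div {x y : Qbar} (hy : y ≠ 0) : h1 (x / y) ≤ h1 x + h1 y := by
  rw [div_eq_mul_inv]
  exact (h1_mul _ _).trans (by linarith [h1_inv hy])

theorem asymp : ∃ c₁ c₂ : ℝ, 0 < c₁ ∧ 0 < c₂ ∧ ∃ n₀ : ℕ, ∀ n ≥ n₀,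
    c₁ * ((4 : ℝ) ^ n * (n : ℝ) ^ 4) ≤ absLogHeight (RatMaps.aff fun i => uu i n) ∧
    absLogHeight (RatMaps.aff fun i => uu i n) ≤ c₂ * ((4 : ℝ) ^ n * (n : ℝ) ^ 4) := by
  obtain ⟨α, C, hα, hC, hx, hy⟩ := facts
  obtain ⟨D, hD0, hD⟩ := h1_eval (MvPolynomial.X 0 - MvPolynomial.X 1 : MvPolynomial (Fin 2) Qbar)
  have hD' : ∀ a b : Qbar, h1 (a - b) ≤ D * (1 + (h1 a + h1 b)) := by
    intro a b
    have := hD ![a, b]
    simpa [Fin.sum_univ_two] using this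
  have h4 : ∀ n : ℕ, ((2 : ℝ) ^ n) ^ 2 = 4 ^ n := fun n => by
    rw [← pow_mul, mul_comm, pow_mul]; norm_num
  have hp4 : ∀ n : ℕ, (1 : ℝ) ≤ 4 ^ n := fun n => one_le_pow₀ (by norm_num)
  have bA : ∀ n, |h1 (zz 0 n) - α * (2 ^ n * ((n : ℝ) ^ 2 + 3 * n + 6) / 2) ^ 2| ≤ C := by
    intro n
    have := hx _ (tri_ne n).1
    rwa [(tri_real n).2.2] at this
  have bB : ∀ n, |h1 (zz 1 n) - α * (2 ^ n * ((n : ℝ) + 2)) ^ 2| ≤ C := by
    intro n
    have := hx _ (tri_ne n).2.1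
    rwa [(tri_real n).2.1] at this
  have bC : ∀ n, |h1 (zz 2 n) - α * (2 ^ n) ^ 2| ≤ C := by
    intro n
    have := hx _ (tri_ne n).2.2
    rwa [(tri_real n).1] at this
  have eA : ∀ n : ℕ, (2 ^ n * ((n : ℝ) ^ 2 + 3 * n + 6) / 2) ^ 2 =
      4 ^ n * (((n : ℝ) ^ 2 + 3 * n + 6) ^ 2 / 4) := fun n => by rw [← h4]; ring
  have eB : ∀ n : ℕ, (2 ^ n * ((n : ℝ) + 2)) ^ 2 = 4 ^ n * ((n : ℝ) + 2) ^ 2 := fun n => by
    rw [← h4]; ring
  -- crude upper bounds
  have uA : ∀ n : ℕ, 1 ≤ n → h1 (zz 0 n) ≤ (25 * α + C) * ((4 : ℝ) ^ n * (n : ℝ) ^ 4) ∧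
      h1 (zz 1 n) ≤ (25 * α + C) * ((4 : ℝ) ^ n * (n : ℝ) ^ 4) ∧
      h1 (zz 2 n) ≤ (25 * α + C) * ((4 : ℝ) ^ n * (n : ℝ) ^ 4) ∧
      1 ≤ (4 : ℝ) ^ n * (n : ℝ) ^ 4 := by
    intro n hn
    have hn1 : (1 : ℝ) ≤ n := by exact_mod_cast hn
    have hn4 : (1 : ℝ) ≤ (n : ℝ) ^ 4 := one_le_pow₀ hn1
    have hM : 1 ≤ (4 : ℝ) ^ n * (n : ℝ) ^ 4 := one_le_mul_of_one_le_of_one_le (hp4 n) hn4
    have q1 : ((n : ℝ) ^ 2 + 3 * n + 6) ^ 2 / 4 ≤ 25 * (n : ℝ) ^ 4 := by
      have : ((n : ℝ) ^ 2 + 3 * n + 6) ≤ 10 * (n : ℝ) ^ 2 := by nlinarith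
      have h5 : ((n : ℝ) ^ 2 + 3 * n + 6) ^ 2 ≤ (10 * (n : ℝ) ^ 2) ^ 2 :=
        pow_le_pow_left₀ (by positivity) this 2
      nlinarith
    have q2 : ((n : ℝ) + 2) ^ 2 ≤ 25 * (n : ℝ) ^ 4 := by
      have : ((n : ℝ) + 2) ≤ 3 * (n : ℝ) ^ 2 := by nlinarith
      have h5 : ((n : ℝ) + 2) ^ 2 ≤ (3 * (n : ℝ) ^ 2) ^ 2 :=
        pow_le_pow_left₀ (by positivity) this 2
      nlinarith
    have q3 : (1 : ℝ) ≤ 25 * (n : ℝ) ^ 4 := by linarith
    have hCM : C ≤ C * ((4 : ℝ) ^ n * (n : ℝ) ^ 4) := le_mul_of_one_le_right hC hM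
    have gen : ∀ (x q : ℝ), x - α * (4 ^ n * q) ≤ C → q ≤ 25 * (n : ℝ) ^ 4 →
        x ≤ (25 * α + C) * ((4 : ℝ) ^ n * (n : ℝ) ^ 4) := by
      intro x q h6 h7
      have h8 : α * (4 ^ n * q) ≤ α * (4 ^ n * (25 * (n : ℝ) ^ 4)) :=
        mul_le_mul_of_nonneg_left (mul_le_mul_of_nonneg_left h7 (by positivity)) hα.le
      nlinarith
    refine ⟨?_, ?_, ?_, hM⟩
    · have := (abs_le.mp (bA n)).2
      rw [eA] at this
      exact gen _ _ this q1
    · have := (abs_le.mp (bB n)).2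
      rw [eB] at this
      exact gen _ _ this q2
    · have := (abs_le.mp (bC n)).2
      rw [h4, ← mul_one ((4 : ℝ) ^ n)] at this
      exact gen _ _ this q3
  set E := 25 * α + C with hE
  have hE0 : 0 < E := by positivity
  obtain ⟨n₁, hn₁⟩ : ∃ n₁ : ℕ, ∀ n ≥ n₁, 2 * C ≤ 8 * α * 4 ^ n := by
    have : Filter.Tendsto (fun n : ℕ => 8 * α * (4 : ℝ) ^ n) Filter.atTop Filter.atTop :=
      (tendsto_pow_atTop_atTop_of_one_lt (by norm_num)).const_mul_atTop (by positivity)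
    exact Filter.eventually_atTop.mp (this.eventually_ge_atTop (2 * C))
  refine ⟨α / 4, h1 1 + 4 * E + 2 * (D * (1 + 2 * (C * (1 + E)))) + 1, by positivity, by
    have := h1_nonneg 1
    positivity, max n₁ 1, fun n hn => ⟨?_, ?_⟩⟩
  · have hn1 : n₁ ≤ n := (le_max_left _ _).trans hn
    have l1 : h1 (uu 0 n) ≤ absLogHeight (RatMaps.aff fun i => uu i n) := by
      have := absLogHeight_comp_le (![0, 1] : Fin 2 → Fin 4) (RatMaps.aff fun i => uu i n)
      have e : (RatMaps.aff fun i => uu i n) ∘ (![0, 1] : Fin 2 → Fin 4) = ![1, uu 0 n] := by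
        funext i
        fin_cases i
        · simp [RatMaps.aff]
        · show (Fin.cons 1 (fun i => uu i n) : Fin 4 → Qbar) (Fin.succ 0) = _
          rw [Fin.cons_succ]; rfl
      rwa [e] at this
    obtain ⟨hA0, hB0, hC0⟩ := tri_ne n
    have xC : ((px (tri n).2.2 : ℚ) : Qbar) ≠ 0 := by exact_mod_cast px_ne hC0
    have e0 : zz 0 n = uu 0 n * zz 2 n := by
      show ((px (tri n).1 : ℚ) : Qbar) = ((px (tri n).1 / px (tri n).2.2 : ℚ) : Qbar) *
        ((px (tri n).2.2 : ℚ) : Qbar)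
      push_cast
      field_simp
    have l2 := h1_mul (uu 0 n) (zz 2 n)
    rw [← e0] at l2
    have l3 := (abs_le.mp (bA n)).1
    have l4 := (abs_le.mp (bC n)).2
    rw [eA] at l3
    rw [h4] at l4
    have l5 := hn₁ n hn1
    have l6 : 4 ^ n * ((n : ℝ) ^ 4 / 4 + 9) ≤ 4 ^ n * (((n : ℝ) ^ 2 + 3 * n + 6) ^ 2 / 4) := by
      apply mul_le_mul_of_nonneg_left _ (by positivity)
      have hn0 : (0 : ℝ) ≤ n := Nat.cast_nonneg n
      have : (n : ℝ) ^ 4 + 36 ≤ ((n : ℝ) ^ 2 + 3 * n + 6) ^ 2 := by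
        have : ((n : ℝ) ^ 2 + 3 * n + 6) ^ 2 =
          (n : ℝ) ^ 4 + 36 + (6 * (n : ℝ) ^ 3 + 21 * (n : ℝ) ^ 2 + 36 * n) := by ring
        rw [this]
        have : (0 : ℝ) ≤ 6 * (n : ℝ) ^ 3 + 21 * (n : ℝ) ^ 2 + 36 * n := by positivity
        linarith
      linarith
    have l7 := mul_le_mul_of_nonneg_left l6 hα.le
    nlinarith
  · have hn1 : 1 ≤ n := (le_max_right _ _).trans hn
    obtain ⟨u1, u2, u3, hM⟩ := uA n hn1
    set M := (4 : ℝ) ^ n * (n : ℝ) ^ 4 with hMdef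
    obtain ⟨hA0, hB0, hC0⟩ := tri_ne n
    obtain ⟨hp1, hp2, hp3⟩ := tri_pos n
    have xC : ((px (tri n).2.2 : ℚ) : Qbar) ≠ 0 := by exact_mod_cast px_ne hC0
    have dBC : ((py (tri n).2.1 : ℚ) : Qbar) - ((py (tri n).2.2 : ℚ) : Qbar) ≠ 0 := by
      rw [sub_ne_zero]
      intro h
      have h' : py (tri n).2.1 = py (tri n).2.2 := by exact_mod_cast h
      have := py_inj hB0 hC0 h'
      omega
    have u3' : h1 ((px (tri n).2.2 : ℚ) : Qbar) ≤ E * M := u3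
    have w0 : h1 (uu 0 n) ≤ 2 * E * M := by
      have e0 : uu 0 n = zz 0 n / zz 2 n := by
        show ((px (tri n).1 / px (tri n).2.2 : ℚ) : Qbar) = _
        push_cast; rfl
      rw [e0]
      exact (h1_div xC).trans (by linarith [u3'])
    have w1 : h1 (uu 1 n) ≤ 2 * E * M := by
      have e0 : uu 1 n = zz 1 n / zz 2 n := by
        show ((px (tri n).2.1 / px (tri n).2.2 : ℚ) : Qbar) = _
        push_cast; rfl
      rw [e0]
      exact (h1_div xC).trans (by linarith [u3'])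
    have yb : ∀ m : ℤ, m ≠ 0 → h1 (px m : Qbar) ≤ E * M →
        h1 (py m : Qbar) ≤ C * (1 + E) * M := by
      intro m hm h5
      refine (hy m hm).trans ?_
      have : 1 + h1 (px m : Qbar) ≤ (1 + E) * M := by linarith
      calc C * (1 + h1 (px m : Qbar)) ≤ C * ((1 + E) * M) := mul_le_mul_of_nonneg_left this hC
        _ = C * (1 + E) * M := by ring
    have yA := yb _ hA0 u1
    have yB := yb _ hB0 u2
    have yC := yb _ hC0 u3
    have dd : ∀ a b : Qbar, h1 a ≤ C * (1 + E) * M → h1 b ≤ C * (1 + E) * M →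
        h1 (a - b) ≤ D * (1 + 2 * (C * (1 + E))) * M := by
      intro a b ha hb
      refine (hD' a b).trans ?_
      have : 1 + (h1 a + h1 b) ≤ (1 + 2 * (C * (1 + E))) * M := by linarith
      calc D * (1 + (h1 a + h1 b)) ≤ D * ((1 + 2 * (C * (1 + E))) * M) :=
            mul_le_mul_of_nonneg_left this hD0
        _ = D * (1 + 2 * (C * (1 + E))) * M := by ring
    have w2 : h1 (uu 2 n) ≤ 2 * (D * (1 + 2 * (C * (1 + E)))) * M := by
      have e0 : uu 2 n = (((py (tri n).1 : ℚ) : Qbar) - ((py (tri n).2.2 : ℚ) : Qbar)) /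
          (((py (tri n).2.1 : ℚ) : Qbar) - ((py (tri n).2.2 : ℚ) : Qbar)) := by
        show (((py (tri n).1 - py (tri n).2.2) / (py (tri n).2.1 - py (tri n).2.2) : ℚ) : Qbar) = _
        push_cast; rfl
      rw [e0]
      refine (h1_div dBC).trans ?_
      have d1 := dd _ _ yA yC
      have d2 := dd _ _ yB yC
      linarith
    refine (absLogHeight_le_sum _).trans ?_
    rw [Fin.sum_univ_succ, Fin.sum_univ_three]
    have s0 : absLogHeight ![1, RatMaps.aff (fun i => uu i n) 0] = h1 1 := rfl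
    have s1 : absLogHeight ![1, RatMaps.aff (fun i => uu i n) (Fin.succ 0)] = h1 (uu 0 n) := rfl
    have s2 : absLogHeight ![1, RatMaps.aff (fun i => uu i n) (Fin.succ 1)] = h1 (uu 1 n) := rfl
    have s3 : absLogHeight ![1, RatMaps.aff (fun i => uu i n) (Fin.succ 2)] = h1 (uu 2 n) := rfl
    rw [s0, s1, s2, s3]
    have t1 : h1 1 ≤ h1 1 * M := le_mul_of_one_le_right (h1_nonneg _) hM
    nlinarith

end Pool.Agent.Helper259.Orbit3Ht
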